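import Mathlib

/-!
Definitions for low-degree points on universal complete intersections.
-/

set_option autoImplicit false

namespace Pool.Agent.H74.LowDeg

open MvPolynomial

attribute [local instance] MvPolynomial.gradedAlgebra

/-- The points of the projective space `P^N` over the field `K`: the homogeneous prime ideals of
`K[x_0, ..., x_N]` not containing all the variables (the projective spectrum of Mathlib). -/
def PSpace (K : Type*) [Field K] (N : ℕ) : Type _ :=
  ProjectiveSpectrum (homogeneousSubmodule (Fin (N + 1)) K)

section points

variable {K : Type*} [Field K] {N : ℕ}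

/-- The Zariski topology. -/
noncomputable instance zariskiTop : TopologicalSpace (PSpace K N) :=
  ProjectiveSpectrum.zariskiTopology (homogeneousSubmodule (Fin (N + 1)) K)

/-- The homogeneous prime ideal of a point. -/
noncomputable def ptIdeal (P : PSpace K N) : Ideal (MvPolynomial (Fin (N + 1)) K) :=
  (ProjectiveSpectrum.asHomogeneousIdeal P).toIdeal

instance ptIdeal_isPrime (P : PSpace K N) : (ptIdeal P).IsPrime := ProjectiveSpectrum.isPrime P

/-- The homogeneous coordinate ring of the integral closed subvariety with generic point `P`. -/
def CoordRing (P : PSpace K N) : Type _ := MvPolynomial (Fin (N + 1)) K ⧸ ptIdeal P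

noncomputable instance coordRing_commRing (P : PSpace K N) : CommRing (CoordRing P) :=
  Ideal.Quotient.commRing (ptIdeal P)

instance coordRing_isDomain (P : PSpace K N) : IsDomain (CoordRing P) :=
  Ideal.Quotient.isDomain (ptIdeal P)

noncomputable instance coordRing_algebra (P : PSpace K N) : Algebra K (CoordRing P) :=
  Ideal.Quotient.algebra K

/-- The quotient map from the polynomial ring. -/
noncomputable def coordMk (P : PSpace K N) :
    MvPolynomial (Fin (N + 1)) K →ₐ[K] CoordRing P :=
  Ideal.Quotient.mkₐ K (ptIdeal P)

/-- The fraction field of the homogeneous coordinate ring. -/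
def ConeField (P : PSpace K N) : Type _ := FractionRing (CoordRing P)

noncomputable instance coneField_field (P : PSpace K N) : Field (ConeField P) :=
  FractionRing.field (CoordRing P)

noncomputable instance coneField_algebra (P : PSpace K N) : Algebra K (ConeField P) :=
  (inferInstance : Algebra K (FractionRing (CoordRing P)))

/-- The image of a polynomial in the fraction field of the homogeneous coordinate ring. -/
noncomputable def coneVal (P : PSpace K N) (f : MvPolynomial (Fin (N + 1)) K) : ConeField P :=
  algebraMap (CoordRing P) (FractionRing (CoordRing P)) (coordMk P f)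

/-- The residue field of a point `P` of `P^N`: the subfield, of the fraction field of
`K[x_0, ..., x_N] / P`, generated over `K` by the fractions `f / g` of two forms of the same
degree, with `g` not vanishing at `P`. -/
noncomputable def residueFieldAt (P : PSpace K N) : IntermediateField K (ConeField P) :=
  IntermediateField.adjoin K
    {z | ∃ (m : ℕ) (f g : MvPolynomial (Fin (N + 1)) K), f.IsHomogeneous m ∧ g.IsHomogeneous m ∧
      g ∉ ptIdeal P ∧ z = coneVal P f / coneVal P g}

/-- The degree of a point: the degree of its residue field over `K`. -/
noncomputable def pointDegree (P : PSpace K N) : ℕ :=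
  Module.finrank K (residueFieldAt P)

/-- The Hilbert function of the integral closed subvariety of `P^N` whose generic point is `Z`:
the dimension over `K` of the degree `m` part of its homogeneous coordinate ring. -/
noncomputable def hilbertFn (Z : PSpace K N) (m : ℕ) : ℕ :=
  Module.finrank K ((homogeneousSubmodule (Fin (N + 1)) K m).map (coordMk Z).toLinearMap)

/-- The integral closed subvariety with generic point `Z` has dimension `e` and degree `k`: its
Hilbert polynomial has degree `e` and leading coefficient `k / e!`. -/
def HasDimDegree (Z : PSpace K N) (e k : ℕ) : Prop :=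
  ∃ q : Polynomial ℚ, q.natDegree = e ∧ q.leadingCoeff = (k : ℚ) / (e.factorial : ℚ) ∧
    ∃ M : ℕ, ∀ m ≥ M, (hilbertFn Z m : ℚ) = q.eval (m : ℚ)

end points

section universal

variable (N : ℕ) {e : ℕ} (d : Fin e → ℕ)

/-- The indices of the coefficients of `e` forms of degrees `d 0, ..., d (e-1)` in `N + 1`
variables, except the coefficients of the monomials `x_0 ^ d i`. -/
abbrev CoefIdx : Type :=
  {c : Fin e × (Fin (N + 1) →₀ ℕ) // c.2.degree = d c.1 ∧ c.2 ≠ Finsupp.single 0 (d c.1)}

/-- The function field of the product `B` of the projective spaces of forms of degrees `d i`: the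
field of rational functions in the coefficients, where each form is divided by its coefficient
of `x_0 ^ d i`. -/
def BField : Type := FractionRing (MvPolynomial (CoefIdx N d) ℂ)

noncomputable instance bField_field : Field (BField N d) :=
  FractionRing.field (MvPolynomial (CoefIdx N d) ℂ)

/-- The coefficient of index `c`, an element of the function field. -/
noncomputable def genA (c : CoefIdx N d) : BField N d :=
  algebraMap (MvPolynomial (CoefIdx N d) ℂ) (FractionRing (MvPolynomial (CoefIdx N d) ℂ)) (X c)

open Classical in
/-- The coefficient of `x ^ α` in the `i`-th universal form, for `α` of degree `d i`: an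
independent variable, or one for `x_0 ^ d i`. -/
noncomputable def univCoef (i : Fin e) (α : Fin (N + 1) →₀ ℕ) : BField N d :=
  if h : α.degree = d i ∧ α ≠ Finsupp.single 0 (d i) then genA N d ⟨(i, α), h⟩ else 1

/-- The `i`-th universal form, of degree `d i`. -/
noncomputable def univForm (i : Fin e) : MvPolynomial (Fin (N + 1)) (BField N d) :=
  ∑ α ∈ Finset.finsuppAntidiag Finset.univ (d i), monomial α (univCoef N d i α)

variable {N}

/-- The point `P` lies on the universal complete intersection. -/
def OnX (P : PSpace (BField N d) N) : Prop := ∀ i, univForm N d i ∈ ptIdeal P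

/-- `P` arises from a complete intersection with a degree `k` variety of dimension `e`: some
integral closed subvariety `Z` of dimension `e` and degree `k` has `Z ∩ X = {P}`. -/
def Arises (k : ℕ) (P : PSpace (BField N d) N) : Prop :=
  ∃ Z : PSpace (BField N d) N, HasDimDegree Z e k ∧
    {p : PSpace (BField N d) N | ptIdeal Z ≤ ptIdeal p ∧ OnX d p} = {P}

end universal

/-- The assertion of the question for the dimension `n` and the integer `k`, for the types all of
whose entries are at least two. -/
def AllArise (n k : ℕ) : Prop :=
  ∃ δ : ℕ, ∀ (e : ℕ) (d : Fin e → ℕ), 0 < e → (∀ i, 2 ≤ d i) → δ ≤ ∑ i, d i →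
    ∀ P : PSpace (BField (n + e) d) (n + e), IsClosed {P} → OnX d P →
      pointDegree P = k * ∏ i, d i → Arises d k P

end Pool.Agent.H74.LowDeg
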