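import Mathlib
import Pool.Agent.H74.LowDeg.Defs

namespace Pool.Agent.H74.LowDeg

open MvPolynomial

attribute [local instance] MvPolynomial.gradedAlgebra

section

variable {K N : Type*} [Field K] [Field N] [Algebra K N] {n : ℕ}

/-- the homomorphism to `N[X]` attached to a vector -/
noncomputable def Phi (v : Fin n → N) : MvPolynomial (Fin n) K →ₐ[K] Polynomial N :=
  aeval fun i => Polynomial.C (v i) * Polynomial.X

theorem Phi_homogeneous (v : Fin n → N) (f : MvPolynomial (Fin n) K) (m : ℕ)
    (hf : f.IsHomogeneous m) : Phi v f = Polynomial.C (aeval v f) * Polynomial.X ^ m := by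
  unfold Phi
  rw [MvPolynomial.aeval_eq_eval₂Hom, MvPolynomial.coe_eval₂Hom, MvPolynomial.eval₂_eq',
    MvPolynomial.aeval_eq_eval₂Hom, MvPolynomial.coe_eval₂Hom, MvPolynomial.eval₂_eq',
    map_sum, Finset.sum_mul]
  refine Finset.sum_congr rfl fun d hd => ?_
  have hdm : ∑ i, d i = m := by
    have := hf (mem_support_iff.mp hd)
    rw [← this]
    simp [Finsupp.weight_apply, Finsupp.sum_fintype]
  simp only [mul_pow, Finset.prod_mul_distrib, map_mul, map_prod, map_pow]
  rw [Finset.prod_pow_eq_pow_sum, hdm]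
  have : (algebraMap K (Polynomial N)) (coeff d f) = Polynomial.C (algebraMap K N (coeff d f)) :=
    rfl
  rw [this]
  ring

theorem Phi_coeff (v : Fin n → N) (f : MvPolynomial (Fin n) K) (m : ℕ) :
    (Phi v f).coeff m = aeval v (homogeneousComponent m f) := by
  classical
  conv_lhs => rw [← sum_homogeneousComponent f]
  rw [map_sum, Polynomial.finsetSum_coeff]
  have h1 : ∀ j, (Phi v (homogeneousComponent j f)).coeff m =
      if m = j then aeval v (homogeneousComponent m f) else 0 := by
    intro j
    rw [Phi_homogeneous v _ j (homogeneousComponent_isHomogeneous j f), Polynomial.coeff_C_mul,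
      Polynomial.coeff_X_pow]
    split_ifs with h
    · rw [h, mul_one]
    · rw [mul_zero]
  simp_rw [h1]
  rw [Finset.sum_ite_eq]
  split_ifs with h
  · rfl
  · rw [Finset.mem_range, not_lt] at h
    rw [homogeneousComponent_eq_zero _ _ (by omega), map_zero]

theorem Phi_eq_zero_iff (v : Fin n → N) (f : MvPolynomial (Fin n) K) :
    Phi v f = 0 ↔ ∀ m, aeval v (homogeneousComponent m f) = 0 := by
  rw [Polynomial.ext_iff]
  simp only [Phi_coeff, Polynomial.coeff_zero]

/-- the homogeneous ideal of the point `v` -/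
noncomputable def vecIdeal (v : Fin (n + 1) → N) :
    HomogeneousIdeal (homogeneousSubmodule (Fin (n + 1)) K) :=
  ⟨RingHom.ker (Phi (K := K) v).toRingHom, by
    intro m f hf
    have hf' : Phi (K := K) v f = 0 := hf
    rw [Phi_eq_zero_iff] at hf'
    change Phi (K := K) v _ = 0
    have h1 : ((DirectSum.decompose (homogeneousSubmodule (Fin (n + 1)) K) f m :
        homogeneousSubmodule (Fin (n + 1)) K m) : MvPolynomial (Fin (n + 1)) K) =
        homogeneousComponent m f := decomposition.decompose'_apply f m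
    rw [h1, Phi_homogeneous v _ m (homogeneousComponent_isHomogeneous m f), hf' m]
    simp⟩

theorem mem_vecIdeal (v : Fin (n + 1) → N) (f : MvPolynomial (Fin (n + 1)) K) :
    f ∈ (vecIdeal (K := K) v).toIdeal ↔ ∀ m, aeval v (homogeneousComponent m f) = 0 :=
  Phi_eq_zero_iff v f

/-- the point of projective space attached to a nonzero vector -/
noncomputable def vecPoint (v : Fin (n + 1) → N) (hv : ∃ i, v i ≠ 0) : PSpace K n :=
  ProjectiveSpectrum.mk (𝒜 := homogeneousSubmodule (Fin (n + 1)) K)
    (vecIdeal v) (RingHom.ker_isPrime _) (by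
    intro h
    obtain ⟨i, hi⟩ := hv
    have h1 : (X i : MvPolynomial (Fin (n + 1)) K) ∈
        HomogeneousIdeal.irrelevant (homogeneousSubmodule (Fin (n + 1)) K) := by
      rw [HomogeneousIdeal.mem_irrelevant_iff, GradedRing.proj_apply]
      have h2 : ((DirectSum.decompose (homogeneousSubmodule (Fin (n + 1)) K) (X i) 0 :
        homogeneousSubmodule (Fin (n + 1)) K 0) : MvPolynomial (Fin (n + 1)) K) =
        homogeneousComponent 0 (X i) := decomposition.decompose'_apply (X i) 0
      rw [h2, homogeneousComponent_of_mem ((mem_homogeneousSubmodule _ _).mpr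
        (isHomogeneous_X K i)), if_neg (by norm_num)]
    have h3 : (X i : MvPolynomial (Fin (n + 1)) K) ∈ (vecIdeal (K := K) v).toIdeal := h h1
    rw [mem_vecIdeal] at h3
    have h4 := h3 1
    rw [homogeneousComponent_of_mem ((mem_homogeneousSubmodule _ _).mpr
        (isHomogeneous_X K i)), if_pos rfl, aeval_X] at h4
    exact hi h4)

theorem mem_vecPoint (v : Fin (n + 1) → N) (hv : ∃ i, v i ≠ 0)
    (f : MvPolynomial (Fin (n + 1)) K) :
    f ∈ ptIdeal (vecPoint (K := K) v hv) ↔
      ∀ m, aeval v (homogeneousComponent m f) = 0 :=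
  mem_vecIdeal v f

theorem mem_vecPoint_of_homogeneous (v : Fin (n + 1) → N) (hv : ∃ i, v i ≠ 0)
    (f : MvPolynomial (Fin (n + 1)) K) (m : ℕ) (hf : f.IsHomogeneous m) :
    f ∈ ptIdeal (vecPoint (K := K) v hv) ↔ aeval v f = 0 := by
  rw [mem_vecPoint]
  constructor
  · intro h
    have := h m
    rwa [homogeneousComponent_of_mem ((mem_homogeneousSubmodule _ _).mpr hf), if_pos rfl] at this
  · intro h j
    rw [homogeneousComponent_of_mem ((mem_homogeneousSubmodule _ _).mpr hf)]
    split_ifs
    · exact h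
    · simp

end

section closed

variable {K N : Type*} [Field K] [Field N] [Algebra K N] {n : ℕ}

/-- every element of `N` is a quotient of a form by a power of a coordinate -/
theorem surj_forms [Algebra.IsAlgebraic K N] (v : Fin (n + 1) → N) (hv : ∀ i, v i ≠ 0)
    (hgen : ∀ W : IntermediateField K N, (∀ i j, v i / v j ∈ W) → W = ⊤) (i0 : Fin (n + 1))
    (z : N) : ∃ (l : ℕ) (h : MvPolynomial (Fin (n + 1)) K), h.IsHomogeneous l ∧
      aeval v h = z * v i0 ^ l := by
  let T : Subalgebra K N :=
    { carrier := {z | ∃ (l : ℕ) (h : MvPolynomial (Fin (n + 1)) K), h.IsHomogeneous l ∧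
        aeval v h = z * v i0 ^ l}
      mul_mem' := by
        rintro a b ⟨l, h, hh, ha⟩ ⟨l', h', hh', hb⟩
        refine ⟨l + l', h * h', hh.mul hh', ?_⟩
        rw [map_mul, ha, hb]
        ring
      add_mem' := by
        rintro a b ⟨l, h, hh, ha⟩ ⟨l', h', hh', hb⟩
        refine ⟨l + l', h * X i0 ^ l' + h' * X i0 ^ l,
          (hh.mul (isHomogeneous_X_pow i0 l')).add ?_, ?_⟩
        · have := hh'.mul (isHomogeneous_X_pow (R := K) i0 l)
          rwa [add_comm l' l] at this
        · rw [map_add, map_mul, map_mul, ha, hb, map_pow, map_pow, aeval_X]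
          ring
      algebraMap_mem' := by
        intro c
        exact ⟨0, C c, isHomogeneous_C _ c, by simp⟩ }
  have hinv : ∀ x ∈ T, x⁻¹ ∈ T := by
    intro x hx
    exact T.inv_mem_of_algebraic (x := ⟨x, hx⟩) (Algebra.IsAlgebraic.isAlgebraic x)
  have hT : T.toIntermediateField hinv = ⊤ := by
    apply hgen
    have h1 : ∀ i, v i / v i0 ∈ T.toIntermediateField hinv := by
      intro i
      refine ⟨1, X i, isHomogeneous_X K i, ?_⟩
      rw [aeval_X, pow_one, div_mul_cancel₀ _ (hv i0)]
    intro i j
    have := div_mem (h1 i) (h1 j)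
    rwa [div_div_div_cancel_right₀ (hv i0)] at this
  have hz : z ∈ T.toIntermediateField hinv := by rw [hT]; trivial
  exact hz

theorem irrelevant_le_of_forall (p : PSpace K n)
    (h : ∀ i, (X i : MvPolynomial (Fin (n + 1)) K) ∈ ptIdeal p) : False := by
  apply ProjectiveSpectrum.not_irrelevant_le p
  intro a ha
  have h0 : homogeneousComponent 0 a = 0 := by
    have h1 := (HomogeneousIdeal.mem_irrelevant_iff _ _).mp ha
    rw [GradedRing.proj_apply] at h1
    have h2 : ((DirectSum.decompose (homogeneousSubmodule (Fin (n + 1)) K) a 0 :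
        homogeneousSubmodule (Fin (n + 1)) K 0) : MvPolynomial (Fin (n + 1)) K) =
        homogeneousComponent 0 a := decomposition.decompose'_apply a 0
    rwa [h2] at h1
  rw [homogeneousComponent_zero] at h0
  have h0' : coeff 0 a = 0 := by
    have := congrArg (coeff 0) h0
    simpa using this
  change a ∈ ptIdeal p
  rw [a.as_sum]
  refine Ideal.sum_mem _ fun d hd => ?_
  have hd0 : d ≠ 0 := by
    rintro rfl
    exact (mem_support_iff.mp hd) h0'
  obtain ⟨i, hi⟩ : ∃ i, d i ≠ 0 := by
    by_contra hcon
    push Not at hcon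
    exact hd0 (Finsupp.ext hcon)
  have h3 : (X i : MvPolynomial (Fin (n + 1)) K) ∣ monomial d (coeff d a) :=
    X_dvd_monomial.mpr (Or.inr hi)
  exact Ideal.mem_of_dvd _ h3 (h i)

theorem vecPoint_closed [Algebra.IsAlgebraic K N] (v : Fin (n + 1) → N) (hv : ∀ i, v i ≠ 0)
    (hgen : ∀ W : IntermediateField K N, (∀ i j, v i / v j ∈ W) → W = ⊤) (hv' : ∃ i, v i ≠ 0) :
    IsClosed {vecPoint (K := K) v hv'} := by
  refine (ProjectiveSpectrum.isClosed_iff_zeroLocus (homogeneousSubmodule (Fin (n + 1)) K) _).mpr
    ⟨(vecPoint (K := K) v hv').asHomogeneousIdeal, ?_⟩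
  apply Set.ext
  intro (p : PSpace K n)
  constructor
  · intro hp
    have hp' : p = vecPoint (K := K) v hv' := hp
    rw [hp']
    exact Set.Subset.refl _
  · intro hp
    have hp' : ∀ f ∈ ptIdeal (vecPoint (K := K) v hv'),
        f ∈ ptIdeal p := fun f hf => hp hf
    change p = vecPoint (K := K) v hv'
    apply ProjectiveSpectrum.ext
    apply HomogeneousIdeal.ext
    apply le_antisymm
    · intro f hf
      refine (mem_vecPoint (K := K) v hv' f).mpr ?_
      intro m
      by_contra hne
      have hg : homogeneousComponent m f ∈ ptIdeal p :=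
        homogeneousComponent_mem_of_mem p.asHomogeneousIdeal.isHomogeneous hf m
      apply irrelevant_le_of_forall p
      intro i
      obtain ⟨l, h, hh, he⟩ := surj_forms v hv hgen i
        ((aeval v (homogeneousComponent m f))⁻¹ * v i ^ m)
      have h1 : (homogeneousComponent m f * h - X i ^ (m + l)).IsHomogeneous (m + l) :=
        ((homogeneousComponent_isHomogeneous m f).mul hh).sub (isHomogeneous_X_pow i (m + l))
      have h2 : homogeneousComponent m f * h - X i ^ (m + l) ∈ ptIdeal p := by
        apply hp'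
        rw [mem_vecPoint_of_homogeneous v hv' _ _ h1, map_sub, map_mul, he, map_pow, aeval_X]
        field_simp
        ring
      have h3 : (X i : MvPolynomial (Fin (n + 1)) K) ^ (m + l) ∈ ptIdeal p := by
        have h4 : homogeneousComponent m f * h ∈ ptIdeal p :=
          Ideal.mul_mem_right _ _ hg
        have h5 := Ideal.sub_mem _ h4 h2
        rwa [sub_sub_cancel] at h5
      exact p.isPrime.mem_of_pow_mem _ h3
    · exact fun f hf => hp' f hf

end closed

section degree

theorem deg_aux {K N A : Type*} [Field K] [Field N] [Algebra K N] [CommRing A] [IsDomain A]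
    [Algebra K A] (g0 : A →ₐ[K] Polynomial N) (hg0 : Function.Injective g0) (G : Set (A × A))
    (x y : A × A → N) (m : A × A → ℕ)
    (hG : ∀ p ∈ G, g0 p.1 = Polynomial.C (x p) * Polynomial.X ^ m p ∧
      g0 p.2 = Polynomial.C (y p) * Polynomial.X ^ m p)
    (hgen : ∀ W : IntermediateField K N, (∀ p ∈ G, x p / y p ∈ W) → W = ⊤) :
    Module.finrank K (IntermediateField.adjoin K
      {z : FractionRing A | ∃ p ∈ G, z = algebraMap A (FractionRing A) p.1 /
        algebraMap A (FractionRing A) p.2}) = Module.finrank K N := by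
  let L := FractionRing (Polynomial N)
  let g : A →ₐ[K] L := (IsScalarTower.toAlgHom K (Polynomial N) L).comp g0
  have hgi : Function.Injective g := (IsFractionRing.injective (Polynomial N) L).comp hg0
  let ι : FractionRing A →ₐ[K] L := IsFractionRing.liftAlgHom (K := FractionRing A) hgi
  have hι : ∀ f, ι (algebraMap A (FractionRing A) f) = algebraMap (Polynomial N) L (g0 f) := by
    intro f
    exact IsFractionRing.lift_algebraMap (K := FractionRing A) (g := (g : A →+* L)) hgi f
  let j : N →ₐ[K] L := (IsScalarTower.toAlgHom K (Polynomial N) L).comp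
    (IsScalarTower.toAlgHom K N (Polynomial N))
  have hj : ∀ x, j x = algebraMap (Polynomial N) L (Polynomial.C x) := fun x => rfl
  have hXne : ∀ m : ℕ, algebraMap (Polynomial N) L (Polynomial.X ^ m) ≠ 0 := by
    intro m
    rw [map_ne_zero_iff _ (IsFractionRing.injective (Polynomial N) L)]
    exact pow_ne_zero _ Polynomial.X_ne_zero
  have hfrac : ∀ p ∈ G, ι (algebraMap A (FractionRing A) p.1 / algebraMap A (FractionRing A) p.2) =
        j (x p / y p) := by
    intro p hp
    rw [map_div₀, map_div₀, hι, hι, hj, hj, (hG p hp).1, (hG p hp).2,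
      map_mul, map_mul, mul_div_mul_right _ _ (hXne (m p))]
  have hmap : (IntermediateField.adjoin K
      {z : FractionRing A | ∃ p ∈ G, z = algebraMap A (FractionRing A) p.1 /
        algebraMap A (FractionRing A) p.2}).map ι = j.fieldRange := by
    rw [IntermediateField.adjoin_map]
    apply le_antisymm
    · rw [IntermediateField.adjoin_le_iff]
      rintro _ ⟨_, ⟨p, hp, rfl⟩, rfl⟩
      rw [hfrac p hp]
      exact ⟨_, rfl⟩
    · rintro _ ⟨z, rfl⟩
      set T := IntermediateField.adjoin K (ι '' {z : FractionRing A | ∃ p ∈ G,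
        z = algebraMap A (FractionRing A) p.1 / algebraMap A (FractionRing A) p.2}) with hT
      have hW : T.comap j = ⊤ := by
        apply hgen
        intro p hp
        change j (x p / y p) ∈ T
        rw [← hfrac p hp]
        exact IntermediateField.subset_adjoin _ _ ⟨_, ⟨p, hp, rfl⟩, rfl⟩
      have hz : z ∈ T.comap j := by rw [hW]; trivial
      exact hz
  have e1 := ((IntermediateField.adjoin K
      {z : FractionRing A | ∃ p ∈ G, z = algebraMap A (FractionRing A) p.1 /
        algebraMap A (FractionRing A) p.2}).equivMap ι).toLinearEquiv.finrank_eq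
  have e2 := (AlgEquiv.ofInjectiveField j).toLinearEquiv.finrank_eq
  rw [e1, hmap, e2]
  rfl

variable {K N : Type*} [Field K] [Field N] [Algebra K N] {n : ℕ}

theorem vecPoint_degree (v : Fin (n + 1) → N)
    (hgen : ∀ W : IntermediateField K N, (∀ i j, v i / v j ∈ W) → W = ⊤) (hv : ∀ i, v i ≠ 0)
    (hv' : ∃ i, v i ≠ 0) :
    pointDegree (vecPoint (K := K) v hv') = Module.finrank K N := by
  classical
  obtain ⟨P, hP⟩ : ∃ P, P = vecPoint (K := K) v hv' := ⟨_, rfl⟩
  have hker : ∀ a ∈ ptIdeal P, Phi (K := K) v a = 0 := by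
    intro a ha
    rw [hP] at ha
    exact ha
  have hker' : ∀ a, Phi (K := K) v a = 0 → a ∈ ptIdeal P := by
    intro a ha
    rw [hP]
    exact ha
  have hmemP : ∀ (f : MvPolynomial (Fin (n + 1)) K) (m : ℕ), f.IsHomogeneous m →
      (f ∈ ptIdeal P ↔ aeval v f = 0) := by
    intro f m hf
    rw [hP]
    exact mem_vecPoint_of_homogeneous v hv' f m hf
  rw [← hP]
  let g0 : CoordRing P →ₐ[K] Polynomial N :=
    Ideal.Quotient.liftₐ (ptIdeal P) (Phi (K := K) v) hker
  have hg0 : ∀ f, g0 (coordMk P f) = Phi v f := fun f => rfl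
  have hsurj : ∀ a : CoordRing P, ∃ f, coordMk P f = a := fun a =>
    Ideal.Quotient.mk_surjective a
  have hzero : ∀ f, coordMk P f = 0 ↔ f ∈ ptIdeal P := fun f => Ideal.Quotient.eq_zero_iff_mem
  have hg0i : Function.Injective g0 := by
    rw [injective_iff_map_eq_zero]
    intro a ha
    obtain ⟨f, rfl⟩ := hsurj a
    rw [hg0] at ha
    rw [hzero]
    exact hker' f ha
  set G : Set (CoordRing P × CoordRing P) :=
    {p | ∃ (m : ℕ) (f g : MvPolynomial (Fin (n + 1)) K), f.IsHomogeneous m ∧ g.IsHomogeneous m ∧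
      g ∉ ptIdeal P ∧ p = (coordMk P f, coordMk P g)}
    with hG
  have hex : ∀ p : CoordRing P × CoordRing P,
      ∃ t : N × N × ℕ, p ∈ G → g0 p.1 = Polynomial.C t.1 * Polynomial.X ^ t.2.2 ∧
        g0 p.2 = Polynomial.C t.2.1 * Polynomial.X ^ t.2.2 := by
    intro p
    by_cases hp : p ∈ G
    · obtain ⟨m, f, g, hf, hg, -, rfl⟩ := hp
      refine ⟨(aeval v f, aeval v g, m), fun _ => ?_⟩
      simp only [hg0]
      exact ⟨Phi_homogeneous v f m hf, Phi_homogeneous v g m hg⟩
    · exact ⟨(0, 0, 0), fun h => absurd h hp⟩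
  choose t ht using hex
  have key := deg_aux g0 hg0i G (fun p => (t p).1) (fun p => (t p).2.1) (fun p => (t p).2.2) ht (by
    intro W hW
    apply hgen
    intro i j
    have hmem : ((coordMk P (X i), coordMk P (X j)) : CoordRing P × CoordRing P) ∈ G := by
      refine ⟨1, X i, X j, isHomogeneous_X K i, isHomogeneous_X K j, ?_, rfl⟩
      intro hb
      rw [hmemP _ 1 (isHomogeneous_X K j), aeval_X] at hb
      exact hv j hb
    have h1 := hW _ hmem
    obtain ⟨h2, h3⟩ := ht _ hmem
    simp only [hg0] at h2 h3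
    rw [Phi_homogeneous v _ 1 (isHomogeneous_X K i), aeval_X] at h2
    rw [Phi_homogeneous v _ 1 (isHomogeneous_X K j), aeval_X] at h3
    generalize t (coordMk P (X i), coordMk P (X j)) = s at h1 h2 h3
    have hm : s.2.2 = 1 := by
      have h4 := congrArg Polynomial.natDegree h2
      rw [Polynomial.natDegree_C_mul_X_pow _ _ (hv i)] at h4
      have h5 : s.1 ≠ 0 := by
        intro h
        rw [h, Polynomial.C_0, zero_mul] at h2
        have := congrArg (fun q => Polynomial.coeff q 1) h2
        simp at this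
        exact hv i this
      rw [Polynomial.natDegree_C_mul_X_pow _ _ h5] at h4
      exact h4.symm
    rw [hm] at h2 h3
    have h4 := congrArg (fun q => Polynomial.coeff q 1) h2
    have h5 := congrArg (fun q => Polynomial.coeff q 1) h3
    simp at h4 h5
    rw [h4, h5]
    exact h1)
  have hset : {z : ConeField P | ∃ (m : ℕ) (f g : MvPolynomial (Fin (n + 1)) K),
      f.IsHomogeneous m ∧ g.IsHomogeneous m ∧ g ∉ ptIdeal P ∧
      z = coneVal P f / coneVal P g} =
      {z : ConeField P | ∃ p ∈ G, z = (algebraMap (CoordRing P) (FractionRing (CoordRing P)) p.1 /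
          algebraMap (CoordRing P) (FractionRing (CoordRing P)) p.2 :
            FractionRing (CoordRing P))} := by
    apply Set.ext
    intro z
    constructor
    · rintro ⟨m, f, g, hf, hg, hgP, rfl⟩
      exact ⟨_, ⟨m, f, g, hf, hg, hgP, rfl⟩, rfl⟩
    · rintro ⟨_, ⟨m, f, g, hf, hg, hgP, rfl⟩, rfl⟩
      exact ⟨m, f, g, hf, hg, hgP, rfl⟩
  unfold pointDegree residueFieldAt
  rw [hset]
  exact key

end degree

end Pool.Agent.H74.LowDeg
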