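import Mathlib

namespace Pool.Agent.H74.LowDeg

open MvPolynomial

section expand

variable {K : Type*} [Field K] [CharZero K] {n : ℕ}

/-- the Gram matrix of a quadratic form -/
noncomputable def gram (Q : MvPolynomial (Fin n) K) : Matrix (Fin n) (Fin n) K :=
  Matrix.of fun i j => coeff (Finsupp.single i 1 + Finsupp.single j 1) Q *
    (if i = j then 1 else 1 / 2)

omit [CharZero K] in
theorem gram_symm (Q : MvPolynomial (Fin n) K) (i j : Fin n) : gram Q i j = gram Q j i := by
  unfold gram
  simp only [Matrix.of_apply]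
  rw [add_comm]
  by_cases h : i = j
  · simp [h]
  · simp [h, Ne.symm h]

omit [CharZero K] in
theorem linear_expand (A : MvPolynomial (Fin n) K) (hA : A.IsHomogeneous 1) :
    A = ∑ j, C (coeff (Finsupp.single j 1) A) * X j := by
  classical
  have h1 : A ∈ homogeneousSubmodule (Fin n) K 1 := hA
  rw [homogeneousSubmodule_one_eq_span_X, Submodule.mem_span_range_iff_exists_fun] at h1
  obtain ⟨c, rfl⟩ := h1
  refine Finset.sum_congr rfl fun j _ => ?_
  rw [smul_eq_C_mul]
  congr 2
  rw [coeff_sum, Finset.sum_eq_single j]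
  · rw [smul_eq_C_mul, coeff_C_mul]; simp
  · intro i _ hij
    rw [smul_eq_C_mul, coeff_C_mul, coeff_X, if_neg, mul_zero]
    intro h
    exact hij (Finsupp.single_left_injective one_ne_zero h)
  · intro h; exact absurd (Finset.mem_univ _) h

theorem quad_expand (Q : MvPolynomial (Fin n) K) (hQ : Q.IsHomogeneous 2) :
    Q = ∑ i, ∑ j, C (gram Q i j) * X i * X j := by
  classical
  have h1 := hQ.sum_X_mul_pderiv
  have h2 : ∀ i, pderiv i Q = ∑ j, C (2 * gram Q i j) * X j := by
    intro i
    have h3 : (pderiv i Q).IsHomogeneous 1 := by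
      have := hQ.pderiv (i := i)
      simpa using this
    conv_lhs => rw [linear_expand _ h3]
    refine Finset.sum_congr rfl fun j _ => ?_
    congr 2
    rw [coeff_pderiv]
    unfold gram
    simp only [Matrix.of_apply]
    rw [add_comm]
    by_cases h : i = j
    · subst h
      simp
      ring
    · rw [Finsupp.single_apply, if_neg (Ne.symm h), if_neg h]
      simp
      ring
  have h3 : (2 : MvPolynomial (Fin n) K) * Q =
      2 * ∑ i, ∑ j, C (gram Q i j) * X i * X j := by
    rw [show (2 : MvPolynomial (Fin n) K) * Q = 2 • Q by simp, ← h1, Finset.mul_sum]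
    refine Finset.sum_congr rfl fun i _ => ?_
    rw [h2, Finset.mul_sum, Finset.mul_sum]
    refine Finset.sum_congr rfl fun j _ => ?_
    rw [C_mul, map_ofNat]
    ring
  exact mul_left_cancel₀ two_ne_zero h3

theorem quad_aeval {M : Type*} [Field M] [Algebra K M] (Q : MvPolynomial (Fin n) K)
    (hQ : Q.IsHomogeneous 2) (x : Fin n → M) :
    aeval x Q = ∑ i, ∑ j, algebraMap K M (gram Q i j) * x i * x j := by
  conv_lhs => rw [quad_expand Q hQ]
  simp only [map_sum, map_mul, aeval_C, aeval_X]

end expand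

section orth

variable {F : Type*} [Field F] [CharZero F]

/-- a nondegenerate symmetric matrix of size five has an orthogonal basis -/
theorem orth_five (G : Matrix (Fin 5) (Fin 5) F) (hG : ∀ i j, G i j = G j i) (hdet : G.det ≠ 0) :
    ∃ (f : Fin 5 → Fin 5 → F) (a : Fin 5 → F), (∀ i, a i ≠ 0) ∧ a 4 / a 3 ≠ a 2 / a 0 ∧
      ∀ i j, (∑ p, ∑ q, f i p * G p q * f j q) = if i = j then a i else 0 := by
  classical
  have : Invertible (2 : F) := invertibleOfNonzero two_ne_zero
  have hnd : (Matrix.toBilin' G).Nondegenerate :=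
    LinearMap.BilinForm.nondegenerate_toBilin'_iff_det_ne_zero.mpr hdet
  have hsymm : LinearMap.IsSymm (Matrix.toBilin' G) := by
    constructor
    intro x y
    simp only [Matrix.toBilin'_apply, RingHom.id_apply]
    rw [Finset.sum_comm]
    refine Finset.sum_congr rfl fun i _ => Finset.sum_congr rfl fun j _ => ?_
    rw [hG i j]
    ring
  obtain ⟨v, hv⟩ := LinearMap.BilinForm.exists_orthogonal_basis hsymm
  have hfr : Module.finrank F (Fin 5 → F) = 5 := by simp
  set f0 : Fin 5 → Fin 5 → F := fun i => v (Fin.cast hfr.symm i) with hf0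
  set a0 : Fin 5 → F := fun i => Matrix.toBilin' G (f0 i) (f0 i) with ha0
  have hne : ∀ i, a0 i ≠ 0 := by
    intro i
    exact LinearMap.IsOrthoᵢ.not_isOrtho_basis_self_of_separatingLeft hv hnd.1 _
  have hort : ∀ i j, i ≠ j → Matrix.toBilin' G (f0 i) (f0 j) = 0 := by
    intro i j hij
    exact hv (fun h => hij (Fin.cast_injective _ h))
  have hexp : ∀ x y : Fin 5 → F, Matrix.toBilin' G x y = ∑ p, ∑ q, x p * G p q * y q := by
    intro x y
    exact Matrix.toBilin'_apply G x y
  have key : ∀ i j, (∑ p, ∑ q, f0 i p * G p q * f0 j q) = if i = j then a0 i else 0 := by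
    intro i j
    rw [← hexp]
    split_ifs with h
    · subst h; rfl
    · exact hort i j h
  by_cases hcase : a0 4 / a0 3 ≠ a0 2 / a0 0
  · exact ⟨f0, a0, hne, hcase, key⟩
  · push Not at hcase
    set c : Fin 5 → F := fun i => if i = 4 then 2 else 1 with hc
    have hc0 : ∀ i, c i ≠ 0 := by
      intro i
      simp only [hc]
      split_ifs
      · exact two_ne_zero
      · exact one_ne_zero
    refine ⟨fun i p => c i * f0 i p, fun i => c i ^ 2 * a0 i, ?_, ?_, ?_⟩
    · intro i
      exact mul_ne_zero (pow_ne_zero 2 (hc0 i)) (hne i)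
    · have h4 : c 4 = 2 := by simp [hc]
      have h3 : c 3 = 1 := by simp [hc]
      have h2 : c 2 = 1 := by simp [hc]
      have h0 : c 0 = 1 := by simp [hc]
      simp only [h4, h3, h2, h0, one_pow, one_mul]
      rw [← hcase]
      intro h
      have h5 : (4 : F) * (a0 4 / a0 3) = a0 4 / a0 3 := by
        rw [← mul_div_assoc]
        convert h using 2
        norm_num
      have h6 : a0 4 / a0 3 ≠ 0 := div_ne_zero (hne 4) (hne 3)
      have h7 : (3 : F) * (a0 4 / a0 3) = 0 := by linear_combination h5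
      rcases mul_eq_zero.mp h7 with h8 | h8
      · norm_num at h8
      · exact h6 h8
    · intro i j
      have h1 : (∑ p, ∑ q, c i * f0 i p * G p q * (c j * f0 j q)) =
          c i * c j * ∑ p, ∑ q, f0 i p * G p q * f0 j q := by
        rw [Finset.mul_sum]
        refine Finset.sum_congr rfl fun p _ => ?_
        rw [Finset.mul_sum]
        refine Finset.sum_congr rfl fun q _ => ?_
        ring
      rw [h1, key]
      split_ifs with h
      · subst h; ring
      · ring

end orth

section six

variable {M : Type*} [CommRing M]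

/-- the vector with coordinates `y` in the basis `f` -/
def vec (f : Fin 5 → Fin 5 → M) (P : Fin 5 → M) (y : Fin 5 → M) (y5 : M) : Fin 6 → M :=
  Fin.snoc (fun j => ∑ i, y i * f i j + y5 * P j) y5

theorem eval_six (G : Fin 6 → Fin 6 → M) (hs : ∀ i j, G i j = G j i) (f : Fin 5 → Fin 5 → M)
    (a P : Fin 5 → M)
    (horth : ∀ i j, (∑ p, ∑ q, f i p * G (Fin.castSucc p) (Fin.castSucc q) * f j q) =
      if i = j then a i else 0)
    (hP : ∀ q, ∑ p, G (Fin.castSucc q) (Fin.castSucc p) * P p = - G (Fin.castSucc q) (Fin.last 5))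
    (y : Fin 5 → M) (y5 : M) :
    ∑ i, ∑ j, G i j * vec f P y y5 i * vec f P y y5 j =
      ∑ i, a i * y i ^ 2 +
        y5 ^ 2 * (G (Fin.last 5) (Fin.last 5) + ∑ p, G (Fin.castSucc p) (Fin.last 5) * P p) := by
  classical
  set G5 : Matrix (Fin 5) (Fin 5) M := Matrix.of fun p q => G (Fin.castSucc p) (Fin.castSucc q)
    with hG5
  set B := Matrix.toBilin' G5 with hB
  have hBe : ∀ x z : Fin 5 → M, B x z =
      ∑ p, ∑ q, x p * G (Fin.castSucc p) (Fin.castSucc q) * z q := by
    intro x z
    rw [hB, Matrix.toBilin'_apply]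
    rfl
  have hBP : ∀ x : Fin 5 → M, B x P = - ∑ p, x p * G (Fin.castSucc p) (Fin.last 5) := by
    intro x
    rw [hBe, ← Finset.sum_neg_distrib]
    refine Finset.sum_congr rfl fun p _ => ?_
    rw [show - (x p * G (Fin.castSucc p) (Fin.last 5)) =
      x p * (- G (Fin.castSucc p) (Fin.last 5)) by ring, ← hP, Finset.mul_sum]
    refine Finset.sum_congr rfl fun q _ => ?_
    ring
  have hBs : ∀ x z, B x z = B z x := by
    intro x z
    rw [hBe, hBe, Finset.sum_comm]
    refine Finset.sum_congr rfl fun p _ => Finset.sum_congr rfl fun q _ => ?_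
    rw [hs]
    ring
  set x : Fin 5 → M := ∑ i, y i • f i with hx
  set w : Fin 5 → M := x + y5 • P with hw
  have hvec : ∀ j : Fin 5, vec f P y y5 (Fin.castSucc j) = w j := by
    intro j
    unfold vec
    rw [Fin.snoc_castSucc]
    simp [hw, hx, Finset.sum_apply]
  have hvec5 : vec f P y y5 (Fin.last 5) = y5 := by
    unfold vec
    rw [Fin.snoc_last]
  have hxx : B x x = ∑ i, a i * y i ^ 2 := by
    have h1 : ∀ i j, B (f i) (f j) = if i = j then a i else 0 := by
      intro i j
      rw [hBe, horth]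
    rw [hx]
    simp only [map_sum, LinearMap.sum_apply, map_smul, LinearMap.smul_apply, h1, smul_eq_mul]
    refine Finset.sum_congr rfl fun i _ => ?_
    rw [Finset.sum_eq_single i]
    · simp
      ring
    · intro j _ hj
      rw [if_neg hj]
      ring
    · intro h; exact absurd (Finset.mem_univ _) h
  have hww : B w w = B x x + 2 * y5 * B x P + y5 ^ 2 * B P P := by
    rw [hw]
    simp only [map_add, LinearMap.add_apply, map_smul, LinearMap.smul_apply, smul_eq_mul]
    rw [hBs P x]
    ring
  have h2 : ∑ i, ∑ j, G i j * vec f P y y5 i * vec f P y y5 j =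
      B w w + 2 * y5 * (∑ p, w p * G (Fin.castSucc p) (Fin.last 5)) +
        y5 ^ 2 * G (Fin.last 5) (Fin.last 5) := by
    rw [Fin.sum_univ_castSucc]
    simp only [Fin.sum_univ_castSucc (n := 5), hvec, hvec5]
    rw [Finset.sum_add_distrib, hBe]
    have e1 : ∑ i : Fin 5, ∑ j : Fin 5, G (Fin.castSucc i) (Fin.castSucc j) * w i * w j =
        ∑ p, ∑ q, w p * G (Fin.castSucc p) (Fin.castSucc q) * w q := by
      refine Finset.sum_congr rfl fun p _ => Finset.sum_congr rfl fun q _ => ?_
      ring
    have e2 : ∑ i : Fin 5, G (Fin.castSucc i) (Fin.last 5) * w i * y5 =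
        y5 * ∑ p, w p * G (Fin.castSucc p) (Fin.last 5) := by
      rw [Finset.mul_sum]
      refine Finset.sum_congr rfl fun p _ => ?_
      ring
    have e3 : ∑ i : Fin 5, G (Fin.last 5) (Fin.castSucc i) * y5 * w i =
        y5 * ∑ p, w p * G (Fin.castSucc p) (Fin.last 5) := by
      rw [Finset.mul_sum]
      refine Finset.sum_congr rfl fun p _ => ?_
      rw [hs]
      ring
    rw [e1, e2, e3]
    ring
  have h3 : ∑ p, w p * G (Fin.castSucc p) (Fin.last 5) =
      ∑ p, x p * G (Fin.castSucc p) (Fin.last 5) +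
        y5 * ∑ p, P p * G (Fin.castSucc p) (Fin.last 5) := by
    rw [Finset.mul_sum, ← Finset.sum_add_distrib]
    refine Finset.sum_congr rfl fun p _ => ?_
    simp only [hw, Pi.add_apply, Pi.smul_apply, smul_eq_mul]
    ring
  have h4 : ∑ p, G (Fin.castSucc p) (Fin.last 5) * P p =
      ∑ p, P p * G (Fin.castSucc p) (Fin.last 5) := by
    refine Finset.sum_congr rfl fun p _ => ?_
    ring
  rw [h2, hww, hxx, hBP, hBP, h3, h4]
  ring

end six

end Pool.Agent.H74.LowDeg
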