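import Mathlib

namespace Pool.Agent.H74.LowDeg

open IntermediateField

variable {k K σ : Type*} [Field k] [Field K] [Algebra k K]

/-- the subfield generated by all but one of the generators -/
def Eo (a : σ → K) (i0 : σ) : IntermediateField k K := IntermediateField.adjoin k (a '' {i0}ᶜ)

theorem gen_transcendental (a : σ → K) (ha : AlgebraicIndependent k a) (i0 : σ) :
    Transcendental (Eo (k := k) a i0) (a i0) := by
  unfold Eo
  rw [IntermediateField.transcendental_adjoin_iff]
  exact ha.transcendental_adjoin (by simp)

theorem gen_top (a : σ → K) (htop : IntermediateField.adjoin k (Set.range a) = ⊤) (i0 : σ) :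
    IntermediateField.adjoin (Eo (k := k) a i0) {a i0} = ⊤ := by
  apply IntermediateField.restrictScalars_injective k
  unfold Eo
  rw [IntermediateField.adjoin_adjoin_left, IntermediateField.restrictScalars_top, ← htop]
  congr 1
  ext x
  constructor
  · rintro (⟨i, -, rfl⟩ | rfl)
    · exact ⟨i, rfl⟩
    · exact ⟨i0, rfl⟩
  · rintro ⟨i, rfl⟩
    by_cases hi : i = i0
    · right; rw [hi]; rfl
    · left; exact ⟨i, hi, rfl⟩

/-- transcendence over a subfield survives a finite extension -/
theorem ext_transcendental {L : Type*} [Field L] [Algebra K L] (E : IntermediateField k K) (s : K)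
    (hs : Transcendental E s) (θ : L) (hθ : IsIntegral E θ) :
    Transcendental (IntermediateField.adjoin E {θ}) (algebraMap K L s) := by
  have h1 : Transcendental E (algebraMap K L s) :=
    (transcendental_algebraMap_iff (algebraMap K L).injective).mpr hs
  have := IntermediateField.isAlgebraic_adjoin_simple hθ
  exact h1.extendScalars _

theorem ext_top {L : Type*} [Field L] [Algebra K L] (E : IntermediateField k K) (s : K)
    (hs : IntermediateField.adjoin E {s} = ⊤) (θ : L)
    (hθ : IntermediateField.adjoin K {θ} = ⊤) :
    IntermediateField.adjoin (IntermediateField.adjoin E {θ}) {algebraMap K L s} = ⊤ := by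
  set T := IntermediateField.adjoin (IntermediateField.adjoin E {θ}) {algebraMap K L s} with hT
  have hE : ∀ x : E, algebraMap E L x ∈ T := by
    intro x
    have h1 : algebraMap E L x ∈ IntermediateField.adjoin E {θ} :=
      IntermediateField.algebraMap_mem _ x
    exact IntermediateField.algebraMap_mem T ⟨_, h1⟩
  have hθT : θ ∈ T := by
    have h1 : θ ∈ IntermediateField.adjoin E {θ} := IntermediateField.mem_adjoin_simple_self _ _
    exact IntermediateField.algebraMap_mem T ⟨_, h1⟩
  have hsT : algebraMap K L s ∈ T := IntermediateField.mem_adjoin_simple_self _ _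
  -- the part of `K` inside `T`
  let U : IntermediateField E K :=
    { (T.toSubfield.comap (algebraMap K L)) with
      algebraMap_mem' := fun x => by
        change algebraMap K L (algebraMap E K x) ∈ T
        rw [← IsScalarTower.algebraMap_apply E K L]
        exact hE x }
  have hU : U = ⊤ := by
    rw [eq_top_iff, ← hs, IntermediateField.adjoin_le_iff]
    rintro _ rfl
    exact hsT
  have hK : ∀ x : K, algebraMap K L x ∈ T := by
    intro x
    have : x ∈ U := by rw [hU]; trivial
    exact this
  let W : IntermediateField K L :=
    { T.toSubfield with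
      algebraMap_mem' := hK }
  have hW : W = ⊤ := by
    rw [eq_top_iff, ← hθ, IntermediateField.adjoin_le_iff]
    rintro _ rfl
    exact hθT
  rw [eq_top_iff]
  intro x _
  have : x ∈ W := by rw [hW]; trivial
  exact this

end Pool.Agent.H74.LowDeg
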