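import Mathlib

namespace Pool.Agent.H74.LowDeg

open Polynomial

/-- If `t` is transcendental over `F` and `M = F(t)`, then `a + t b` is irreducible over `M`
for coprime `a, b ∈ F[X]`, not both constant. -/
theorem irr_linear {F M : Type*} [Field F] [Field M] [Algebra F M] (t : M)
    (ht : Transcendental F t) (htop : IntermediateField.adjoin F {t} = ⊤)
    (a b : F[X]) (hab : IsCoprime a b) (hb : b ≠ 0)
    (hdeg : 0 < a.natDegree ∨ 0 < b.natDegree) :
    Irreducible (a.map (algebraMap F M) + C t * b.map (algebraMap F M)) := by
  let e : RatFunc F ≃+* M :=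
    (((RatFunc.algEquivOfTranscendental t ht).trans
      (IntermediateField.equivOfEq htop)).trans IntermediateField.topEquiv).toRingEquiv
  have heX : e RatFunc.X = t := by
    simp [e]
  have heC : ∀ c : F, e (algebraMap F (RatFunc F) c) = algebraMap F M c := by
    intro c
    simp only [e]
    exact AlgEquiv.commutes _ c
  set φ : F[X][X] := a.map (algebraMap F F[X]) + C X * b.map (algebraMap F F[X]) with hφ
  have h1 : φ = Bivariate.swap (C a + X * C b) := by
    simp only [hφ, X_mul_C, Bivariate.swap_apply, aevalAeval, aevalAevalEquiv, Equiv.coe_fn_mk,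
      AlgHom.coe_comp, AlgHom.coe_restrictScalars', coe_aeval_eq_eval, Function.comp_apply,
      aeval_C, algebraMap_def, coe_mapRingHom, map_mul, map_add, aeval_X,
      eval_map_algebraMap, Polynomial.eval_C]
    rw [mul_comm]
    rfl
  have h2 : Irreducible (C a + X * C b : F[X][X]) := by
    have := irreducible_C_mul_X_add_C (R := F[X]) (a := b) (b := a) hb
      (hab.symm.isRelPrime)
    convert this using 1
    rw [add_comm, mul_comm]
  have h3 : Irreducible φ := by
    rw [h1]
    exact (MulEquiv.irreducible_iff Bivariate.swap).mpr h2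
  have hcoef : ∀ n, φ.coeff n = C (a.coeff n) + X * C (b.coeff n) := by
    intro n
    simp [hφ, Polynomial.coeff_map]
  have hcoef0 : ∀ x y : F, (C x + X * C y : F[X]) = 0 → x = 0 ∧ y = 0 := by
    intro x y h
    have h0 := congrArg (fun p => Polynomial.coeff p 0) h
    have h1 := congrArg (fun p => Polynomial.coeff p 1) h
    simp at h0 h1
    exact ⟨h0, h1⟩
  have hnd : 0 < φ.natDegree := by
    rcases hdeg with h | h
    · refine lt_of_lt_of_le h (le_natDegree_of_ne_zero ?_)
      intro h0
      rw [hcoef] at h0
      have := (hcoef0 _ _ h0).1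
      have h' : a.leadingCoeff = 0 := this
      rw [leadingCoeff_eq_zero] at h'
      simp [h'] at h
    · refine lt_of_lt_of_le h (le_natDegree_of_ne_zero ?_)
      intro h0
      rw [hcoef] at h0
      have := (hcoef0 _ _ h0).2
      have h' : b.leadingCoeff = 0 := this
      rw [leadingCoeff_eq_zero] at h'
      simp [h'] at h
  have h4 : φ.IsPrimitive := h3.isPrimitive hnd.ne'
  have h5 : Irreducible (φ.map (algebraMap F[X] (RatFunc F))) :=
    (h4.irreducible_iff_irreducible_map_fraction_map (K := RatFunc F)).mp h3
  have h6 : Polynomial.mapEquiv e (φ.map (algebraMap F[X] (RatFunc F))) =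
      a.map (algebraMap F M) + C t * b.map (algebraMap F M) := by
    ext n
    rw [Polynomial.mapEquiv_apply]
    simp only [Polynomial.coeff_map, hcoef, coeff_add, coeff_C_mul]
    have h7 : ∀ x : F, e (algebraMap F[X] (RatFunc F) (C x)) = algebraMap F M x := by
      intro x
      have : algebraMap F[X] (RatFunc F) (C x) = algebraMap F (RatFunc F) x := by
        rw [RatFunc.algebraMap_C, RatFunc.algebraMap_eq_C]
      rw [this, heC]
    simp only [map_add, map_mul, RingEquiv.coe_toRingHom, RatFunc.algebraMap_X, heX, h7]
  rw [← h6]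
  exact (MulEquiv.irreducible_iff (Polynomial.mapEquiv e)).mpr h5

end Pool.Agent.H74.LowDeg
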