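import Mathlib
import Pool.Agent.H74.LowDeg.Fld

namespace Pool.Agent.H74.LowDeg

open Polynomial

theorem quartic_coeffs {L : Type*} [Field L] {a4 a3 a2 a1 a0 b4 b3 b2 b1 b0 : L}
    (h : (C a4 * X ^ 4 + C a3 * X ^ 3 + C a2 * X ^ 2 + C a1 * X + C a0 : L[X]) =
      C b4 * X ^ 4 + C b3 * X ^ 3 + C b2 * X ^ 2 + C b1 * X + C b0) :
    a4 = b4 ∧ a3 = b3 ∧ a2 = b2 ∧ a1 = b1 ∧ a0 = b0 := by
  refine ⟨?_, ?_, ?_, ?_, ?_⟩
  · have := congrArg (fun p => coeff p 4) h
    simpa [coeff_X, coeff_C] using this
  · have := congrArg (fun p => coeff p 3) h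
    simpa [coeff_X, coeff_C] using this
  · have := congrArg (fun p => coeff p 2) h
    simpa [coeff_X, coeff_C] using this
  · have := congrArg (fun p => coeff p 1) h
    simpa [coeff_X, coeff_C] using this
  · have := congrArg (fun p => coeff p 0) h
    simpa [coeff_X, coeff_C] using this

section

variable {F K : Type*} [Field F] [Field K] [CharZero F] [Algebra F K]

/-- the resolvent cubic, as a polynomial over `K` -/
noncomputable def resolv (m b r : F) (σ : K) : K[X] :=
  (X ^ 3 + C (2 * m) * X ^ 2 + C (m ^ 2 - 4 * (m * b ^ 2 / 4 + r)) * X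
      - C (m ^ 2 * b ^ 2) : F[X]).map (algebraMap F K) +
    C σ * ((C 4 * X * (X + C m)) : F[X]).map (algebraMap F K)

/-- the quartic -/
noncomputable def quart (m b r : F) (σ : K) : K[X] :=
  (X ^ 2 + C σ) ^ 2 + C (algebraMap F K m) * X ^ 2 - C (algebraMap F K (m * b)) * X +
    C (algebraMap F K (m * b ^ 2 / 4 + r))

variable (m b r : F) (σ : K)

theorem resolv_irr (ht : Transcendental F σ) (htop : IntermediateField.adjoin F {σ} = ⊤)
    (hm : m ≠ 0) (hb : b ≠ 0) (hr : r ≠ 0) : Irreducible (resolv m b r σ) := by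
  have h4 : (4 : F) ≠ 0 := by norm_num
  have h4' : IsUnit (C (4 : F)) := isUnit_C.mpr (isUnit_iff_ne_zero.mpr h4)
  apply irr_linear σ ht htop
  · -- coprime
    set h : F[X] := X ^ 3 + C (2 * m) * X ^ 2 + C (m ^ 2 - 4 * (m * b ^ 2 / 4 + r)) * X
      - C (m ^ 2 * b ^ 2) with hh
    apply IsCoprime.mul_right
    · apply IsCoprime.mul_right
      · obtain ⟨u, hu⟩ := h4'.exists_right_inv
        exact ⟨0, u, by rw [zero_mul, zero_add, mul_comm]; exact hu⟩
      · refine IsCoprime.symm ((irreducible_X.coprime_iff_not_dvd).mpr ?_)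
        rw [X_dvd_iff]
        have : h.coeff 0 = - (m ^ 2 * b ^ 2) := by
          rw [hh]
          simp only [coeff_add, coeff_sub, coeff_C_mul, coeff_C_zero, coeff_X_pow, coeff_X_zero]
          simp
        rw [this]
        simp [hm, hb]
    · refine IsCoprime.symm ?_
      have : (X + C m : F[X]) = X - C (-m) := by simp
      rw [this]
      refine ((irreducible_X_sub_C _).coprime_iff_not_dvd).mpr ?_
      rw [dvd_iff_isRoot, IsRoot]
      have : eval (-m) h = 4 * m * r := by
        simp [hh]
        ring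
      rw [this]
      simp [hm, hr]
  · intro h0
    have h1 := congrArg (fun p => coeff p 2) h0
    simp only [mul_add, coeff_add] at h1
    rw [show C (4 : F) * X * X = C 4 * X ^ 2 by ring, show C (4:F) * X * C m = C (4 * m) * X by
      rw [C_mul]; ring] at h1
    simp at h1
  · left
    have : (X ^ 3 + C (2 * m) * X ^ 2 + C (m ^ 2 - 4 * (m * b ^ 2 / 4 + r)) * X
      - C (m ^ 2 * b ^ 2) : F[X]).natDegree = 3 := by compute_degree!
    rw [this]; norm_num

omit [CharZero F] in
theorem resolv_natDegree : (resolv m b r σ).natDegree = 3 := by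
  have : resolv m b r σ = X ^ 3 + C (algebraMap F K (2 * m) + σ * 4) * X ^ 2 +
    C (algebraMap F K (m ^ 2 - 4 * (m * b ^ 2 / 4 + r)) + σ * 4 * algebraMap F K m) * X -
      C (algebraMap F K (m ^ 2 * b ^ 2)) := by
    simp only [resolv, Polynomial.map_add, Polynomial.map_sub, Polynomial.map_mul,
      Polynomial.map_pow, map_X, map_C, map_ofNat, map_mul, map_pow, map_sub,
      map_add, Polynomial.map_ofNat]
    ring
  rw [this]
  compute_degree!

omit [CharZero F] in
theorem resolv_aeval {L : Type*} [Field L] [Algebra K L] [Algebra F L] [IsScalarTower F K L]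
    (z : L) : aeval z (resolv m b r σ) =
      z ^ 3 + (2 * algebraMap F L m + 4 * algebraMap K L σ) * z ^ 2 +
      (algebraMap F L m ^ 2 - 4 * algebraMap F L (m * b ^ 2 / 4 + r) +
        4 * algebraMap K L σ * algebraMap F L m) * z - algebraMap F L m ^ 2 * algebraMap F L b ^ 2 := by
  simp only [resolv, map_add, map_sub, map_mul, map_pow, aeval_X, aeval_C, aeval_map_algebraMap,
    map_ofNat]
  ring

omit [CharZero F] in
theorem quart_expand : quart m b r σ = C 1 * X ^ 4 + C 0 * X ^ 3 +
    C (2 * σ + algebraMap F K m) * X ^ 2 + C (- algebraMap F K (m * b)) * X +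
    C (σ ^ 2 + algebraMap F K (m * b ^ 2 / 4 + r)) := by
  simp only [quart, C_add, C_mul, C_neg, C_pow, map_one, map_zero, map_ofNat]
  ring

omit [CharZero F] in
theorem quart_natDegree : (quart m b r σ).natDegree = 4 := by
  rw [quart_expand]
  compute_degree!

omit [CharZero F] in
theorem quart_monic : (quart m b r σ).Monic := by
  rw [quart_expand]
  monicity!

omit [CharZero F] in
/-- quadratic factors give roots of the resolvent -/
theorem quad_factor {L : Type*} [Field L] [Algebra K L] [Algebra F L] [IsScalarTower F K L]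
    (α β : L)
    (hdvd : (X ^ 2 + C α * X + C β) ∣ (quart m b r σ).map (algebraMap K L)) :
    aeval (α ^ 2) (resolv m b r σ) = 0 := by
  obtain ⟨q, hq⟩ := hdvd
  have hmon : (X ^ 2 + C α * X + C β : L[X]).Monic := by monicity!
  have hd2 : (X ^ 2 + C α * X + C β : L[X]).natDegree = 2 := by compute_degree!
  have hq0 : q ≠ 0 := by
    rintro rfl
    rw [mul_zero] at hq
    exact ((quart_monic m b r σ).map (algebraMap K L)).ne_zero hq
  have hdq : q.natDegree = 2 := by
    have := congrArg natDegree hq
    rw [natDegree_map, quart_natDegree, hmon.natDegree_mul' hq0, hd2] at this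
    omega
  have hq2 : q = C (q.coeff 2) * X ^ 2 + C (q.coeff 1) * X + C (q.coeff 0) :=
    eq_quadratic_of_degree_le_two (by
      rw [degree_eq_natDegree hq0, hdq]; norm_num)
  set c2 := q.coeff 2
  set c1 := q.coeff 1
  set c0 := q.coeff 0
  rw [quart_expand, hq2] at hq
  simp only [Polynomial.map_add, Polynomial.map_mul, Polynomial.map_pow, map_X, map_C] at hq
  have h := quartic_coeffs (L := L) (b4 := c2) (b3 := c1 + α * c2) (b2 := c0 + α * c1 + β * c2)
    (b1 := α * c0 + β * c1) (b0 := β * c0) (hq.trans (by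
      simp only [C_add, C_mul]; ring))
  simp only [map_one, map_zero, map_add, map_mul, map_neg, map_pow, map_ofNat] at h
  obtain ⟨h4, h3, h2, h1, h0⟩ := h
  rw [resolv_aeval]
  rw [← h4] at h3 h2
  have e1 : c1 = - α := by linear_combination -h3
  rw [e1] at h2 h1
  simp only [← IsScalarTower.algebraMap_apply F K L] at h2 h1 h0
  rw [map_add (algebraMap F L)]
  linear_combination (2 * α ^ 4 + ((2 * algebraMap K L σ + algebraMap F L m) +
    (c0 + α * (-α) + β)) * α ^ 2) * h2 - 4 * α ^ 2 * h0 -
    (-(algebraMap F L m * algebraMap F L b) + (α * c0 + β * (-α))) * h1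

/-- the resolvent has no root in an extension of degree at most two -/
theorem resolv_no_root {L : Type*} [Field L] [Algebra K L] [FiniteDimensional K L]
    (ht : Transcendental F σ) (htop : IntermediateField.adjoin F {σ} = ⊤)
    (hm : m ≠ 0) (hb : b ≠ 0) (hr : r ≠ 0) (hL : Module.finrank K L ≤ 2) (z : L) :
    aeval z (resolv m b r σ) ≠ 0 := by
  intro hz
  have hirr := resolv_irr m b r σ ht htop hm hb hr
  have hint : IsIntegral K z := Algebra.IsIntegral.isIntegral z
  have h1 : minpoly K z ∣ resolv m b r σ := minpoly.dvd K z hz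
  have h2 : Associated (minpoly K z) (resolv m b r σ) :=
    (minpoly.irreducible hint).associated_of_dvd hirr h1
  have h3 : (minpoly K z).natDegree = 3 := by
    rw [natDegree_eq_of_degree_eq (degree_eq_degree_of_associated h2), resolv_natDegree]
  have h4 := minpoly.natDegree_le (A := K) z
  omega

omit [CharZero F] in
/-- no root of the quartic in `F(σ)` -/
theorem quart_no_root (ht : Transcendental F σ) (htop : IntermediateField.adjoin F {σ} = ⊤)
    (x : K) : eval x (quart m b r σ) ≠ 0 := by
  intro hx
  let e : RatFunc F ≃ₐ[F] K :=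
    ((RatFunc.algEquivOfTranscendental σ ht).trans
      (IntermediateField.equivOfEq htop)).trans IntermediateField.topEquiv
  have heX : e RatFunc.X = σ := by
    simp [e]
  obtain ⟨y, rfl⟩ := e.surjective x
  have hq : (y ^ 2 + RatFunc.X) ^ 2 + algebraMap F (RatFunc F) m * y ^ 2 -
      algebraMap F (RatFunc F) (m * b) * y + algebraMap F (RatFunc F) (m * b ^ 2 / 4 + r) = 0 := by
    apply e.injective
    simp only [map_add, map_sub, map_mul, map_pow, heX, AlgEquiv.commutes, map_zero]
    simp only [quart, eval_add, eval_sub, eval_mul, eval_pow, eval_X, eval_C, map_add, map_mul,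
      map_pow] at hx
    exact hx
  have hint : IsIntegral F[X] y := by
    refine ⟨C 1 * X ^ 4 + C 0 * X ^ 3 +
      C (2 * X + C m) * X ^ 2 + C (- C (m * b)) * X + C (X ^ 2 + C (m * b ^ 2 / 4 + r)), ?_, ?_⟩
    · monicity!
    · simp only [eval₂_add, eval₂_mul, eval₂_pow, eval₂_X, eval₂_C, map_add, map_mul, map_neg,
        map_pow, map_one, map_zero, map_ofNat, RatFunc.algebraMap_X, RatFunc.algebraMap_C,
        RatFunc.algebraMap_eq_C, eval₂_one, eval₂_zero, eval₂_neg, eval₂_ofNat] at hq ⊢
      linear_combination hq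
  obtain ⟨p, rfl⟩ := IsIntegrallyClosed.isIntegral_iff.mp hint
  have hp : (p ^ 2 + X) ^ 2 + C m * p ^ 2 - C (m * b) * p + C (m * b ^ 2 / 4 + r) = 0 := by
    apply RatFunc.algebraMap_injective (K := F)
    simp only [map_add, map_mul, map_sub, map_pow, RatFunc.algebraMap_X, RatFunc.algebraMap_C,
      map_zero, RatFunc.algebraMap_eq_C] at hq ⊢
    exact hq
  have hX : (X : F[X]) ≠ 0 := X_ne_zero
  rcases Nat.eq_zero_or_pos p.natDegree with h0 | h0
  · obtain ⟨c, rfl⟩ := natDegree_eq_zero.mp h0
    have := congrArg (fun p => coeff p 2) hp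
    rw [show ((C c ^ 2 + X) ^ 2 + C m * C c ^ 2 - C (m * b) * C c + C (m * b ^ 2 / 4 + r) : F[X])
      = X ^ 2 + C (2 * c ^ 2) * X + C (c ^ 4 + m * c ^ 2 - m * b * c + (m * b ^ 2 / 4 + r)) by
        simp only [C_add, C_mul, C_pow, C_sub, map_ofNat]; ring] at this
    simp only [coeff_add, coeff_X_pow, coeff_C_mul, coeff_C, coeff_X, coeff_zero] at this
    norm_num at this
  · have h1 : (p ^ 2 + X).natDegree = 2 * p.natDegree := by
      rw [natDegree_add_eq_left_of_natDegree_lt]
      · rw [natDegree_pow]
      · rw [natDegree_pow, natDegree_X]; omega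
    have h2 : ((p ^ 2 + X) ^ 2).natDegree = 4 * p.natDegree := by
      rw [natDegree_pow, h1]; ring
    have h3 : (C m * p ^ 2 - C (m * b) * p + C (m * b ^ 2 / 4 + r)).natDegree ≤
        2 * p.natDegree := by
      refine (natDegree_add_le _ _).trans (max_le ((natDegree_sub_le _ _).trans
        (max_le ?_ ?_)) ?_)
      · refine (natDegree_C_mul_le _ _).trans ?_
        rw [natDegree_pow]
      · refine (natDegree_C_mul_le _ _).trans ?_
        omega
      · simp
    have h4 : (p ^ 2 + X) ^ 2 = -(C m * p ^ 2 - C (m * b) * p + C (m * b ^ 2 / 4 + r)) := by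
      linear_combination hp
    have h5 := congrArg natDegree h4
    rw [h2, natDegree_neg] at h5
    omega

theorem quart_irr (ht : Transcendental F σ) (htop : IntermediateField.adjoin F {σ} = ⊤)
    (hm : m ≠ 0) (hb : b ≠ 0) (hr : r ≠ 0) : Irreducible (quart m b r σ) := by
  have hmon := quart_monic m b r σ
  rw [hmon.irreducible_iff_lt_natDegree_lt]
  · intro q hq hdeg hdvd
    rw [quart_natDegree] at hdeg
    simp only [Finset.mem_Ioc] at hdeg
    obtain h1 | h2 : q.natDegree = 1 ∨ q.natDegree = 2 := by omega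
    · rw [hq.eq_X_add_C h1] at hdvd
      have : (X + C (q.coeff 0) : K[X]) = X - C (- q.coeff 0) := by simp
      rw [this, dvd_iff_isRoot] at hdvd
      exact quart_no_root m b r σ ht htop _ hdvd
    · have hq2 : q = X ^ 2 + C (q.coeff 1) * X + C (q.coeff 0) := by
        have h3 := eq_quadratic_of_degree_le_two (p := q) (by
          rw [degree_eq_natDegree hq.ne_zero, h2]; norm_num)
        have h4 : q.coeff 2 = 1 := by
          have := hq.coeff_natDegree
          rwa [h2] at this
        rw [h4, C_1, one_mul] at h3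
        exact h3
      rw [hq2] at hdvd
      have h5 := quad_factor m b r σ (L := K) (q.coeff 1) (q.coeff 0) (by
        simpa using hdvd)
      exact resolv_no_root m b r σ (L := K) ht htop hm hb hr (by simp) _ h5
  · intro h
    have := quart_natDegree m b r σ
    rw [h] at this
    simp at this

/-- no quadratic subextension -/
theorem quart_no_sqrt {L : Type*} [Field L] [Algebra K L] [Algebra F L] [IsScalarTower F K L]
    (ht : Transcendental F σ) (htop : IntermediateField.adjoin F {σ} = ⊤)
    (hm : m ≠ 0) (hb : b ≠ 0) (hr : r ≠ 0) (ξ : L) (hξ : aeval ξ (quart m b r σ) = 0)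
    (hL : IntermediateField.adjoin K {ξ} = ⊤) (z : L) (g : K) (hz : z ^ 2 = algebraMap K L g) :
    ∃ c : K, z = algebraMap K L c := by
  by_contra hcon
  push Not at hcon
  have hirr := quart_irr m b r σ ht htop hm hb hr
  have hmin : minpoly K ξ = quart m b r σ :=
    (minpoly.eq_of_irreducible_of_monic hirr hξ (quart_monic m b r σ)).symm
  have hξint : IsIntegral K ξ := ⟨quart m b r σ, quart_monic m b r σ, hξ⟩
  have hLfin : FiniteDimensional K L := by
    have := IntermediateField.adjoin.finiteDimensional hξint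
    rw [hL] at this
    exact IntermediateField.topEquiv.toLinearEquiv.finiteDimensional
  have hL4 : Module.finrank K L = 4 := by
    have := IntermediateField.adjoin.finrank hξint
    rw [hL, hmin, quart_natDegree, IntermediateField.finrank_top'] at this
    exact this
  have hzint : IsIntegral K z := Algebra.IsIntegral.isIntegral z
  set E := IntermediateField.adjoin K {z} with hE
  have hE2 : Module.finrank K E = 2 := by
    rw [hE, IntermediateField.adjoin.finrank hzint]
    apply le_antisymm
    · have : minpoly K z ∣ X ^ 2 - C g := minpoly.dvd K z (by simp [hz])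
      have h2 : (X ^ 2 - C g : K[X]).natDegree = 2 := natDegree_X_pow_sub_C
      have := natDegree_le_of_dvd this (X_pow_sub_C_ne_zero (by norm_num) g)
      omega
    · rw [minpoly.two_le_natDegree_iff hzint]
      rintro ⟨c, hc⟩
      exact hcon c hc.symm
  have hEL : Module.finrank E L = 2 := by
    have := Module.finrank_mul_finrank K E L
    rw [hE2, hL4] at this
    omega
  have hξE : IsIntegral E ξ := Algebra.IsIntegral.isIntegral ξ
  have hd : (minpoly E ξ).natDegree ≤ 2 := hEL ▸ minpoly.natDegree_le (A := E) ξ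
  have hdvd : minpoly E ξ ∣ (quart m b r σ).map (algebraMap K E) :=
    minpoly.dvd E ξ (by rw [aeval_map_algebraMap]; exact hξ)
  have hpos := minpoly.natDegree_pos hξE
  obtain h1 | h2 : (minpoly E ξ).natDegree = 1 ∨ (minpoly E ξ).natDegree = 2 := by omega
  · have h3 : ξ ∈ E := by
      rw [minpoly.natDegree_eq_one_iff] at h1
      obtain ⟨c, hc⟩ := h1
      rw [← hc]
      exact c.2
    have h4 : (⊤ : IntermediateField K L) ≤ E := by
      rw [← hL, IntermediateField.adjoin_le_iff]
      simpa using h3
    have h5 : E = ⊤ := top_le_iff.mp h4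
    rw [h5, IntermediateField.finrank_top'] at hE2
    omega
  · have hq := minpoly.monic hξE
    set q := minpoly E ξ with hqdef
    have hq2 : q = X ^ 2 + C (q.coeff 1) * X + C (q.coeff 0) := by
      have h3 := eq_quadratic_of_degree_le_two (p := q) (by
        rw [degree_eq_natDegree hq.ne_zero, h2]; norm_num)
      have h4 : q.coeff 2 = 1 := by
        have := hq.coeff_natDegree
        rwa [h2] at this
      rw [h4, C_1, one_mul] at h3
      exact h3
    rw [hq2] at hdvd
    have h5 := quad_factor m b r σ (L := E) (q.coeff 1) (q.coeff 0) hdvd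
    exact resolv_no_root m b r σ (L := E) ht htop hm hb hr hE2.le _ h5

end

end Pool.Agent.H74.LowDeg
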