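import Mathlib
import Pool.Agent.H74.LowDeg.Quartic

namespace Pool.Agent.H74.LowDeg

universe u

theorem affine_back {F K : Type*} [Field F] [Field K] [Algebra F K] (s : K)
    (x y : F) (hy : y ≠ 0) :
    (algebraMap F K x + algebraMap F K y * s - algebraMap F K x) * algebraMap F K y⁻¹ = s := by
  have : algebraMap F K y * algebraMap F K y⁻¹ = 1 := by
    rw [← map_mul, mul_inv_cancel₀ hy, map_one]
  linear_combination s * this

theorem affine_transcendental {F K : Type*} [Field F] [Field K] [Algebra F K] (s : K)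
    (hs : Transcendental F s) (x y : F) (hy : y ≠ 0) :
    Transcendental F (algebraMap F K x + algebraMap F K y * s) := by
  intro h
  apply hs
  have h1 : IsAlgebraic F (algebraMap F K x) := isAlgebraic_algebraMap x
  have h2 : IsAlgebraic F (algebraMap F K y⁻¹) := isAlgebraic_algebraMap _
  have h3 := (h.sub h1).mul h2
  rwa [affine_back s x y hy] at h3

theorem affine_top {F K : Type*} [Field F] [Field K] [Algebra F K] (s : K)
    (hs : IntermediateField.adjoin F {s} = ⊤) (x y : F) (hy : y ≠ 0) :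
    IntermediateField.adjoin F {algebraMap F K x + algebraMap F K y * s} = ⊤ := by
  rw [eq_top_iff, ← hs, IntermediateField.adjoin_le_iff, Set.singleton_subset_iff]
  have h0 : algebraMap F K x + algebraMap F K y * s ∈
      IntermediateField.adjoin F {algebraMap F K x + algebraMap F K y * s} :=
    IntermediateField.mem_adjoin_simple_self _ _
  generalize IntermediateField.adjoin F {algebraMap F K x + algebraMap F K y * s} = T at *
  have h3 := T.mul_mem (T.sub_mem h0 (T.algebraMap_mem x)) (T.algebraMap_mem y⁻¹)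
  rwa [affine_back s x y hy] at h3

theorem alg_one {M : Type*} [Field M] [CharZero M] (A0 A1 A2 κ β S ξ : M) (hA0 : A0 ≠ 0)
    (hκ : κ ≠ 0)
    (h1 : (ξ ^ 2 + (S / κ - (β / κ) ^ 2 / 4)) ^ 2 + A2 / (A0 * κ ^ 2) * ξ ^ 2 -
      A2 / (A0 * κ ^ 2) * (β / κ) * ξ +
      (A2 / (A0 * κ ^ 2) * (β / κ) ^ 2 / 4 + A1 / (A0 * κ ^ 2)) = 0) :
    A0 * (S + β * (ξ - β / κ / 2) + κ * (ξ - β / κ / 2) ^ 2) ^ 2 + A1 +
      A2 * (ξ - β / κ / 2) ^ 2 = 0 := by
  have h2 : A0 * κ ^ 2 * ((ξ ^ 2 + (S / κ - (β / κ) ^ 2 / 4)) ^ 2 + A2 / (A0 * κ ^ 2) * ξ ^ 2 -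
      A2 / (A0 * κ ^ 2) * (β / κ) * ξ +
      (A2 / (A0 * κ ^ 2) * (β / κ) ^ 2 / 4 + A1 / (A0 * κ ^ 2))) = 0 := by
    rw [h1, mul_zero]
  rw [← h2]
  field_simp
  ring

theorem alg_two {M : Type*} [Field M] [CharZero M] (A0 A1 A2 A3 A4 a5 κ β S θ v0 : M)
    (hA0 : A0 ≠ 0) (hA3 : A3 ≠ 0)
    (hS : S = (1 + A4 / A3 + a5 / A3 - A1 / A0) / 2)
    (hβ : β = A4 / A3) (hκ : κ = (A4 / A3 - A2 / A0) / 2)
    (hv : v0 = S + β * θ + κ * θ ^ 2)
    (h : A0 * v0 ^ 2 + A1 + A2 * θ ^ 2 = 0) :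
    A3 * (v0 - 1) ^ 2 + A4 * (θ + 1) ^ 2 + a5 = 0 := by
  have h1 : A3 * (v0 - 1) ^ 2 + A4 * (θ + 1) ^ 2 + a5 =
      A3 / A0 * (A0 * v0 ^ 2 + A1 + A2 * θ ^ 2) := by
    have h2 : 2 * A3 * v0 = A3 + A4 + a5 - A3 * A1 / A0 + 2 * A4 * θ +
        (A4 - A3 * A2 / A0) * θ ^ 2 := by
      rw [hv, hS, hβ, hκ]
      field_simp
    have h3 : A3 / A0 * (A0 * v0 ^ 2 + A1 + A2 * θ ^ 2) =
        A3 * v0 ^ 2 + A3 * A1 / A0 + A3 * A2 / A0 * θ ^ 2 := by
      field_simp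
    rw [h3]
    linear_combination - h2
  rw [h1, h, mul_zero]

open Polynomial in
theorem quart_root_eq {F K M : Type*} [Field F] [Field K] [Algebra F K] [Field M]
    [Algebra K M] (m b r : F) (σ : K) (ξ : M) (h : aeval ξ (quart m b r σ) = 0) :
    (ξ ^ 2 + algebraMap K M σ) ^ 2 + algebraMap K M (algebraMap F K m) * ξ ^ 2 -
        algebraMap K M (algebraMap F K (m * b)) * ξ +
        algebraMap K M (algebraMap F K (m * b ^ 2 / 4 + r)) = 0 := by
  simp only [quart, map_add, map_sub, map_mul, map_pow, aeval_X, aeval_C] at h ⊢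
  linear_combination h

theorem level_one_aux {K M : Type*} [Field K] [CharZero K] [Field M] [Algebra K M]
    (A : Fin 5 → K) (hA0 : ∀ i, A i ≠ 0) (a5 S κ β σ m b r : K) (hκn : κ ≠ 0)
    (hS : S = (1 + A 4 / A 3 + a5 / A 3 - A 1 / A 0) / 2)
    (hβ : β = A 4 / A 3) (hκ' : κ = (A 4 / A 3 - A 2 / A 0) / 2)
    (hσ2 : σ = S / κ - (β / κ) ^ 2 / 4)
    (e1 : m = A 2 / (A 0 * κ ^ 2)) (e3 : b = β / κ)
    (e4 : r = A 2 / (A 0 * κ ^ 2) * (β / κ) ^ 2 / 4 + A 1 / (A 0 * κ ^ 2)) (ξ : M)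
    (hξtop : IntermediateField.adjoin K {ξ} = ⊤)
    (hreq : (ξ ^ 2 + algebraMap K M σ) ^ 2 + algebraMap K M m * ξ ^ 2 -
        algebraMap K M (m * b) * ξ + algebraMap K M r = 0) :
    IntermediateField.adjoin K {ξ - algebraMap K M (β / κ / 2)} = ⊤ ∧
    ∀ v0 : M, v0 = algebraMap K M S + algebraMap K M β * (ξ - algebraMap K M (β / κ / 2)) +
        algebraMap K M κ * (ξ - algebraMap K M (β / κ / 2)) ^ 2 →
      algebraMap K M (A 0) * v0 ^ 2 + algebraMap K M (A 1) +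
        algebraMap K M (A 2) * (ξ - algebraMap K M (β / κ / 2)) ^ 2 = 0 ∧
      algebraMap K M (A 3) * (v0 - 1) ^ 2 +
        algebraMap K M (A 4) * ((ξ - algebraMap K M (β / κ / 2)) + 1) ^ 2 +
        algebraMap K M a5 = 0 := by
  have hcz : CharZero M := charZero_of_injective_algebraMap (algebraMap K M).injective
  constructor
  · rw [eq_top_iff, ← hξtop, IntermediateField.adjoin_le_iff, Set.singleton_subset_iff]
    have h0 : ξ - algebraMap K _ (β / κ / 2) ∈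
      IntermediateField.adjoin K {ξ - algebraMap K _ (β / κ / 2)} :=
        IntermediateField.mem_adjoin_simple_self _ _
    generalize IntermediateField.adjoin K {ξ - algebraMap K _ (β / κ / 2)} = T at *
    have := T.add_mem h0 (T.algebraMap_mem (β / κ / 2))
    rwa [sub_add_cancel] at this
  · intro v0 hv0
    have hMA0 : algebraMap K M (A 0) ≠ 0 := (map_ne_zero _).mpr (hA0 0)
    have hMA3 : algebraMap K M (A 3) ≠ 0 := (map_ne_zero _).mpr (hA0 3)
    have hMκ : algebraMap K M κ ≠ 0 := (map_ne_zero _).mpr hκn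
    rw [e4, map_mul, e1, e3, hσ2] at hreq
    simp only [map_add, map_sub, map_mul, map_div₀, map_pow, map_ofNat] at hreq hv0 ⊢
    have key := alg_one _ _ _ _ _ _ ξ hMA0 hMκ hreq
    rw [← hv0] at key
    refine ⟨key, ?_⟩
    refine alg_two _ _ _ _ _ _ _ _ _ _ _ hMA0 hMA3 ?_ ?_ ?_ hv0 key
    · rw [hS]; simp only [map_add, map_sub, map_one, map_div₀, map_ofNat]
    · rw [hβ, map_div₀]
    · rw [hκ']; simp only [map_sub, map_div₀, map_ofNat]

theorem level_one_pack {F : Type*} {K : Type u} [Field F] [Field K] [Algebra F K] (A : Fin 5 → K)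
    (s : K) (c : F) (S κ β : K) {M : Type u} [inst1 : Field M] [inst2 : Algebra K M] (θ : M)
    (h1 : IntermediateField.adjoin K {θ} = ⊤) (h2 : Module.finrank K M = 4)
    (h3 : ∀ v0 : M, v0 = algebraMap K M S + algebraMap K M β * θ + algebraMap K M κ * θ ^ 2 →
        algebraMap K M (A 0) * v0 ^ 2 + algebraMap K M (A 1) + algebraMap K M (A 2) * θ ^ 2 = 0 ∧
        algebraMap K M (A 3) * (v0 - 1) ^ 2 + algebraMap K M (A 4) * (θ + 1) ^ 2 +
          algebraMap K M (s + algebraMap F K c) = 0)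
    (h4 : ∀ z : M, ∀ g : K, z ^ 2 = algebraMap K M g → ∃ c : K, z = algebraMap K M c) :
    ∃ (M : Type u) (_ : Field M) (_ : Algebra K M) (θ : M),
      IntermediateField.adjoin K {θ} = ⊤ ∧ Module.finrank K M = 4 ∧
      (∀ v0 : M, v0 = algebraMap K M S + algebraMap K M β * θ + algebraMap K M κ * θ ^ 2 →
        algebraMap K M (A 0) * v0 ^ 2 + algebraMap K M (A 1) + algebraMap K M (A 2) * θ ^ 2 = 0 ∧
        algebraMap K M (A 3) * (v0 - 1) ^ 2 + algebraMap K M (A 4) * (θ + 1) ^ 2 +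
          algebraMap K M (s + algebraMap F K c) = 0) ∧
      ∀ z : M, ∀ g : K, z ^ 2 = algebraMap K M g → ∃ c : K, z = algebraMap K M c :=
  ⟨M, inst1, inst2, θ, h1, h2, h3, h4⟩

/-- the quartic field and the two conics -/
theorem level_one {F : Type*} {K : Type u} [Field F] [CharZero F] [Field K] [Algebra F K] (s : K)
    (hs : Transcendental F s) (htop : IntermediateField.adjoin F {s} = ⊤) (a : Fin 5 → F)
    (ha : ∀ i, a i ≠ 0) (c : F) (hκ : a 4 / a 3 ≠ a 2 / a 0) (A : Fin 5 → K)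
    (hA : ∀ i, A i = algebraMap F K (a i)) (S κ β : K)
    (hS : S = (1 + A 4 / A 3 + (s + algebraMap F K c) / A 3 - A 1 / A 0) / 2)
    (hβ : β = A 4 / A 3) (hκ' : κ = (A 4 / A 3 - A 2 / A 0) / 2) :
    ∃ (M : Type u) (_ : Field M) (_ : Algebra K M) (θ : M),
      IntermediateField.adjoin K {θ} = ⊤ ∧ Module.finrank K M = 4 ∧
      (∀ v0 : M, v0 = algebraMap K M S + algebraMap K M β * θ + algebraMap K M κ * θ ^ 2 →
        algebraMap K M (A 0) * v0 ^ 2 + algebraMap K M (A 1) + algebraMap K M (A 2) * θ ^ 2 = 0 ∧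
        algebraMap K M (A 3) * (v0 - 1) ^ 2 + algebraMap K M (A 4) * (θ + 1) ^ 2 +
          algebraMap K M (s + algebraMap F K c) = 0) ∧
      ∀ z : M, ∀ g : K, z ^ 2 = algebraMap K M g → ∃ c : K, z = algebraMap K M c := by
  obtain ⟨κ0, hκ0⟩ : ∃ κ0 : F, κ0 = (a 4 / a 3 - a 2 / a 0) / 2 := ⟨_, rfl⟩
  have hκ00 : κ0 ≠ 0 := by
    rw [hκ0]
    exact div_ne_zero (sub_ne_zero.mpr hκ) (by norm_num)
  have hκK : κ = algebraMap F K κ0 := by
    rw [hκ', hκ0]
    simp only [hA, map_div₀, map_sub, map_ofNat]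
  obtain ⟨β0, hβ0⟩ : ∃ β0 : F, β0 = a 4 / a 3 := ⟨_, rfl⟩
  have hβK : β = algebraMap F K β0 := by
    rw [hβ, hβ0]
    simp only [hA, map_div₀]
  obtain ⟨b, hb⟩ : ∃ b : F, b = β0 / κ0 := ⟨_, rfl⟩
  obtain ⟨m, hm⟩ : ∃ m : F, m = a 2 / (a 0 * κ0 ^ 2) := ⟨_, rfl⟩
  obtain ⟨r, hr⟩ : ∃ r : F, r = a 1 / (a 0 * κ0 ^ 2) := ⟨_, rfl⟩
  have hb0 : b ≠ 0 := by
    rw [hb, hβ0]
    exact div_ne_zero (div_ne_zero (ha 4) (ha 3)) hκ00
  have hm0 : m ≠ 0 := by
    rw [hm]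
    exact div_ne_zero (ha 2) (mul_ne_zero (ha 0) (pow_ne_zero 2 hκ00))
  have hr0 : r ≠ 0 := by
    rw [hr]
    exact div_ne_zero (ha 1) (mul_ne_zero (ha 0) (pow_ne_zero 2 hκ00))
  obtain ⟨x, hx⟩ : ∃ x : F, x = (1 + a 4 / a 3 + c / a 3 - a 1 / a 0) / 2 / κ0 - b ^ 2 / 4 :=
    ⟨_, rfl⟩
  obtain ⟨y, hy⟩ : ∃ y : F, y = 1 / a 3 / 2 / κ0 := ⟨_, rfl⟩
  have hy0 : y ≠ 0 := by
    rw [hy]
    exact div_ne_zero (div_ne_zero (div_ne_zero one_ne_zero (ha 3)) two_ne_zero) hκ00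
  obtain ⟨σ, hσ⟩ : ∃ σ : K, σ = algebraMap F K x + algebraMap F K y * s := ⟨_, rfl⟩
  have hσt : Transcendental F σ := by rw [hσ]; exact affine_transcendental s hs x y hy0
  have hσtop : IntermediateField.adjoin F {σ} = ⊤ := by rw [hσ]; exact affine_top s htop x y hy0
  have hA0 : ∀ i, A i ≠ 0 := by
    intro i
    rw [hA]
    exact (map_ne_zero _).mpr (ha i)
  have hκn : κ ≠ 0 := by rw [hκK]; exact (map_ne_zero _).mpr hκ00
  have hσ2 : σ = S / κ - (β / κ) ^ 2 / 4 := by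
    rw [hσ, hx, hy, hS, hb, hκK, hβK]
    simp only [map_sub, map_div₀, map_add, map_one, map_ofNat, map_pow, hA]
    ring
  have e1 : algebraMap F K m = A 2 / (A 0 * κ ^ 2) := by
    rw [hm, hκK, hA, hA]; simp
  have e2 : algebraMap F K r = A 1 / (A 0 * κ ^ 2) := by
    rw [hr, hκK, hA, hA]; simp
  have e3 : algebraMap F K b = β / κ := by
    rw [hb, hκK, hβK]; simp
  have e4 : algebraMap F K (m * b ^ 2 / 4 + r) =
      A 2 / (A 0 * κ ^ 2) * (β / κ) ^ 2 / 4 + A 1 / (A 0 * κ ^ 2) := by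
    rw [← e1, ← e2, ← e3]; simp only [map_add, map_mul, map_div₀, map_pow, map_ofNat]
  have hirr := quart_irr m b r σ hσt hσtop hm0 hb0 hr0
  have : Fact (Irreducible (quart m b r σ)) := ⟨hirr⟩
  have hdim : Module.finrank K (AdjoinRoot (quart m b r σ)) = 4 := by
    rw [(AdjoinRoot.powerBasis hirr.ne_zero).finrank, AdjoinRoot.powerBasis_dim, quart_natDegree]
  have hroot : Polynomial.aeval (AdjoinRoot.root (quart m b r σ)) (quart m b r σ) = 0 := by
    rw [AdjoinRoot.aeval_eq, AdjoinRoot.mk_self]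
  have hξtop : IntermediateField.adjoin K {AdjoinRoot.root (quart m b r σ)} = ⊤ :=
    IntermediateField.adjoin_eq_top_of_algebra _ _ AdjoinRoot.adjoinRoot_eq_top
  have hsq : ∀ z : AdjoinRoot (quart m b r σ), ∀ g : K, z ^ 2 = algebraMap K _ g →
      ∃ c : K, z = algebraMap K _ c := fun z g hz =>
    quart_no_sqrt m b r σ hσt hσtop hm0 hb0 hr0 _ hroot hξtop z g hz
  have hreq := quart_root_eq m b r σ _ hroot
  have hcz : CharZero K := charZero_of_injective_algebraMap (algebraMap F K).injective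
  have haux := level_one_aux A hA0 (s + algebraMap F K c) S κ β σ (algebraMap F K m)
    (algebraMap F K b) (algebraMap F K (m * b ^ 2 / 4 + r)) hκn hS hβ hκ' hσ2 e1 e3 e4
    (AdjoinRoot.root (quart m b r σ)) hξtop (by rw [← map_mul]; exact hreq)
  exact level_one_pack A s c S κ β _ haux.1 hdim haux.2 hsq

end Pool.Agent.H74.LowDeg
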