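import Mathlib
import Pool.Agent.H74.LowDeg.LevelOne
import Pool.Agent.H74.LowDeg.Gen

namespace Pool.Agent.H74.LowDeg

universe u

open Polynomial

theorem level_two_pack {K M : Type u} [Field K] [Field M] [Algebra K M]
    (t : K) (D : ℕ) (G0 : M[X]) {N : Type u} [i1 : Field N] [i2 : Algebra K N] [i3 : Algebra M N]
    [i4 : IsScalarTower K M N] (τ : N) (h1 : IntermediateField.adjoin M {τ} = ⊤)
    (h2 : Module.finrank M N = D)
    (h3 : aeval τ (G0 + C (algebraMap K M t) * X ^ D) = 0)
    (h4 : ∀ z : N, ∀ g : K, z ^ 2 = algebraMap K N g → ∃ c : K, z = algebraMap K N c) :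
    ∃ (N : Type u) (_ : Field N) (_ : Algebra K N) (_ : Algebra M N) (_ : IsScalarTower K M N)
      (τ : N), IntermediateField.adjoin M {τ} = ⊤ ∧ Module.finrank M N = D ∧
      aeval τ (G0 + C (algebraMap K M t) * X ^ D) = 0 ∧
      ∀ z : N, ∀ g : K, z ^ 2 = algebraMap K N g → ∃ c : K, z = algebraMap K N c :=
  ⟨N, i1, i2, i3, i4, τ, h1, h2, h3, h4⟩

theorem odd_no_sqrt {K M N : Type*} [Field K] [Field M] [Field N] [Algebra K M] [Algebra M N]
    [Algebra K N] [IsScalarTower K M N] [FiniteDimensional M N]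
    (hD : Odd (Module.finrank M N))
    (hsq : ∀ z : M, ∀ g : K, z ^ 2 = algebraMap K M g → ∃ c : K, z = algebraMap K M c)
    (z : N) (g : K) (hz : z ^ 2 = algebraMap K N g) : ∃ c : K, z = algebraMap K N c := by
  have hint : IsIntegral M z := Algebra.IsIntegral.isIntegral z
  have h1 : (minpoly M z).natDegree ∣ Module.finrank M N := minpoly.degree_dvd hint
  have h2 : minpoly M z ∣ X ^ 2 - C (algebraMap K M g) := by
    apply minpoly.dvd
    simp only [map_sub, map_pow, aeval_X, aeval_C]
    rw [hz, ← IsScalarTower.algebraMap_apply, sub_self]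
  have hmon : (X ^ 2 - C (algebraMap K M g) : M[X]).Monic := by monicity!
  have h3 : (minpoly M z).natDegree ≤ 2 := by
    have := natDegree_le_of_dvd h2 hmon.ne_zero
    refine this.trans ?_
    compute_degree
  have h4 : 0 < (minpoly M z).natDegree := minpoly.natDegree_pos hint
  have h5 : (minpoly M z).natDegree = 1 := by
    have h6 : (minpoly M z).natDegree ≠ 2 := by
      intro h6
      rw [h6] at h1
      exact (Nat.not_even_iff_odd.mpr hD) (even_iff_two_dvd.mpr h1)
    omega
  have h7 : (minpoly M z).degree = 1 := by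
    rw [degree_eq_natDegree (minpoly.ne_zero hint), h5]; rfl
  obtain ⟨w, hw⟩ := minpoly.mem_range_of_degree_eq_one M z h7
  obtain ⟨c, hc⟩ := hsq w g (by
    apply (algebraMap M N).injective
    rw [map_pow, hw, hz, ← IsScalarTower.algebraMap_apply])
  exact ⟨c, by rw [← hw, hc, ← IsScalarTower.algebraMap_apply]⟩

theorem level_two {k : Type*} {K M : Type u} [Field k] [Field K] [Algebra k K] [Field M]
    [Algebra K M] (E : IntermediateField k K) (t : K) (ht : Transcendental E t)
    (htop : IntermediateField.adjoin E {t} = ⊤) (θ : M)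
    (hθ : IntermediateField.adjoin K {θ} = ⊤) (hθE : IsIntegral E θ) (D : ℕ) (hD : Odd D)
    (G0 : M[X]) (hG0 : ∀ n, G0.coeff n ∈ IntermediateField.adjoin E {θ})
    (hG00 : G0.coeff 0 ≠ 0) (hdeg : G0.natDegree ≤ D)
    (hsq : ∀ z : M, ∀ g : K, z ^ 2 = algebraMap K M g → ∃ c : K, z = algebraMap K M c) :
    ∃ (N : Type u) (_ : Field N) (_ : Algebra K N) (_ : Algebra M N) (_ : IsScalarTower K M N)
      (τ : N), IntermediateField.adjoin M {τ} = ⊤ ∧ Module.finrank M N = D ∧
      aeval τ (G0 + C (algebraMap K M t) * X ^ D) = 0 ∧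
      ∀ z : N, ∀ g : K, z ^ 2 = algebraMap K N g → ∃ c : K, z = algebraMap K N c := by
  have ht2 := ext_transcendental E t ht θ hθE
  have htop2 := ext_top E t htop θ hθ
  have hDpos : 0 < D := hD.pos
  obtain ⟨G0', hG0'⟩ : ∃ G0' : (IntermediateField.adjoin E {θ})[X],
      G0'.map (algebraMap _ M) = G0 := by
    have : G0 ∈ Polynomial.lifts (algebraMap (IntermediateField.adjoin E {θ}) M) := by
      rw [Polynomial.lifts_iff_coeff_lifts]
      intro n
      exact ⟨⟨_, hG0 n⟩, rfl⟩
    exact (Polynomial.mem_lifts _).mp this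
  have hG00' : G0'.coeff 0 ≠ 0 := by
    intro h
    apply hG00
    rw [← hG0', coeff_map, h, map_zero]
  have hcop : IsCoprime G0' (X ^ D) := by
    apply IsCoprime.pow_right
    refine ((irreducible_X.coprime_iff_not_dvd).mpr ?_).symm
    rw [X_dvd_iff]
    exact hG00'
  have hirr := irr_linear (algebraMap K M t) ht2 htop2 G0' (X ^ D) hcop
    (pow_ne_zero _ X_ne_zero) (Or.inr (by rw [natDegree_X_pow]; exact hDpos))
  rw [hG0', Polynomial.map_pow, map_X] at hirr
  have hlead : G0.coeff D + algebraMap K M t ≠ 0 := by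
    intro h
    apply ht2
    have h1 : algebraMap K M t =
        algebraMap (IntermediateField.adjoin E {θ}) M ⟨- G0.coeff D, neg_mem (hG0 D)⟩ := by
      change _ = - G0.coeff D
      linear_combination h
    rw [h1]
    exact isAlgebraic_algebraMap _
  have hnd : (G0 + C (algebraMap K M t) * X ^ D).natDegree = D := by
    apply le_antisymm
    · exact natDegree_add_le_of_le hdeg (natDegree_C_mul_X_pow_le _ _) |>.trans (by simp)
    · apply le_natDegree_of_ne_zero
      rw [coeff_add, coeff_C_mul, coeff_X_pow_self, mul_one]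
      exact hlead
  set P := G0 + C (algebraMap K M t) * X ^ D with hP
  have hfact : Fact (Irreducible P) := ⟨hirr⟩
  have hdim : Module.finrank M (AdjoinRoot P) = D := by
    rw [(AdjoinRoot.powerBasis hirr.ne_zero).finrank, AdjoinRoot.powerBasis_dim, hnd]
  have hroot : Polynomial.aeval (AdjoinRoot.root P) P = 0 := by
    rw [AdjoinRoot.aeval_eq, AdjoinRoot.mk_self]
  have hξtop : IntermediateField.adjoin M {AdjoinRoot.root P} = ⊤ :=
    IntermediateField.adjoin_eq_top_of_algebra _ _ AdjoinRoot.adjoinRoot_eq_top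
  have hfd : FiniteDimensional M (AdjoinRoot P) :=
    FiniteDimensional.of_finrank_pos (by rw [hdim]; exact hDpos)
  exact level_two_pack t D G0 (AdjoinRoot.root P) hξtop hdim hroot
    (fun z g hz => odd_no_sqrt (by rw [hdim]; exact hD) hsq z g hz)

end Pool.Agent.H74.LowDeg
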