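import Mathlib

namespace Pool.Agent.H74.LowDeg

open MvPolynomial

section basic

variable {K : Type*} [Field K] {σ τ : Type*}

/-- The Hilbert function of `K[x] / I`: the dimension of the image of the forms of degree `m`. -/
noncomputable def hilb (I : Ideal (MvPolynomial σ K)) (m : ℕ) : ℕ :=
  Module.finrank K ((homogeneousSubmodule σ K m).map (Ideal.Quotient.mkₐ K I).toLinearMap)

/-- homogeneous components of `c(y) * q` for linear forms `y` and homogeneous `q` -/
theorem hc_aeval_mul (y : τ → MvPolynomial σ K) (hy : ∀ i, (y i).IsHomogeneous 1)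
    (c : MvPolynomial τ K) (q : MvPolynomial σ K) (k : ℕ) (hq : q.IsHomogeneous k) (n : ℕ) :
    homogeneousComponent n (aeval y c * q) =
      if k ≤ n then aeval y (homogeneousComponent (n - k) c) * q else 0 := by
  have hj : ∀ j, (aeval y (homogeneousComponent j c) * q).IsHomogeneous (j + k) := by
    intro j
    have := ((homogeneousComponent_isHomogeneous j c).aeval y hy).mul hq
    simpa using this
  conv_lhs => rw [← sum_homogeneousComponent c]
  rw [map_sum, Finset.sum_mul, map_sum]
  have h1 : ∀ j, homogeneousComponent n (aeval y (homogeneousComponent j c) * q) =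
      if n = j + k then aeval y (homogeneousComponent j c) * q else 0 := by
    intro j
    exact homogeneousComponent_of_mem ((mem_homogeneousSubmodule _ _).mpr (hj j))
  simp_rw [h1]
  split_ifs with hk
  · have h2 : ∀ j, (if n = j + k then aeval y (homogeneousComponent j c) * q else 0) =
        if n - k = j then aeval y (homogeneousComponent (n - k) c) * q else 0 := by
      intro j
      by_cases h : n = j + k
      · have : n - k = j := by omega
        rw [if_pos h, if_pos this, this]
      · rw [if_neg h, if_neg (by omega)]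
    simp_rw [h2]
    rw [Finset.sum_ite_eq]
    split_ifs with h3
    · rfl
    · rw [Finset.mem_range, not_lt] at h3
      rw [homogeneousComponent_eq_zero _ _ (by omega)]
      simp
  · apply Finset.sum_eq_zero
    intro j _
    rw [if_neg (by omega)]

theorem hc_aeval (y : τ → MvPolynomial σ K) (hy : ∀ i, (y i).IsHomogeneous 1)
    (c : MvPolynomial τ K) (n : ℕ) :
    homogeneousComponent n (aeval y c) = aeval y (homogeneousComponent n c) := by
  have := hc_aeval_mul y hy c 1 0 (isHomogeneous_one _ _) n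
  simpa using this

end basic

section count

variable {K : Type*} [Field K] {n : ℕ}

/-- exponents of the monomials of degree `m` in three variables -/
noncomputable def ex (m : ℕ) (p : Σ i : Fin (m + 1), Fin (i.1 + 1)) : Fin 3 →₀ ℕ :=
  Finsupp.equivFunOnFinite.symm ![p.2.1, p.1.1 - p.2.1, m - p.1.1]

theorem ex_inj (m : ℕ) : Function.Injective (ex m) := by
  rintro ⟨⟨i, hi⟩, ⟨j, hj⟩⟩ ⟨⟨i', hi'⟩, ⟨j', hj'⟩⟩ h
  unfold ex at h
  have h' := Finsupp.equivFunOnFinite.symm.injective h
  have h0 := congrFun h' 0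
  have h1 := congrFun h' 1
  have h2 := congrFun h' 2
  simp at h0 h1 h2
  simp only at hj hj'
  have e1 : i = i' := by omega
  subst e1
  have e2 : j = j' := by omega
  subst e2
  rfl

theorem ex_degree (m : ℕ) (p) : (ex m p).degree = m := by
  obtain ⟨⟨i, hi⟩, ⟨j, hj⟩⟩ := p
  simp only at hj
  rw [Finsupp.degree_eq_sum, Fin.sum_univ_three]
  simp [ex]
  omega

theorem card_ex (m : ℕ) : 2 * Fintype.card (Σ i : Fin (m + 1), Fin (i.1 + 1)) =
    (m + 1) * (m + 2) := by
  rw [Fintype.card_sigma]
  simp only [Fintype.card_fin]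
  rw [Fin.sum_univ_eq_sum_range (fun i => i + 1) (m + 1), Finset.mul_sum]
  induction m with
  | zero => simp
  | succ m ih => rw [Finset.sum_range_succ, ih]; ring

/-- three elements independent over `K[y₀,y₁,y₂]` force growth `3/2 m²` -/
theorem count_three (I : Ideal (MvPolynomial (Fin n) K)) (y : Fin 3 → MvPolynomial (Fin n) K)
    (hy : ∀ i, (y i).IsHomogeneous 1) (b : Fin 3 → MvPolynomial (Fin n) K)
    (hb : ∀ i, (b i).IsHomogeneous 2)
    (hind : ∀ f : Fin 3 → MvPolynomial (Fin 3) K, (∑ i, aeval y (f i) * b i) ∈ I → f = 0)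
    (m : ℕ) : 3 * ((m + 1) * (m + 2)) ≤ 2 * hilb I (m + 2) := by
  classical
  set T := Σ i : Fin (m + 1), Fin (i.1 + 1) with hT
  set v : Fin 3 × T → MvPolynomial (Fin n) K ⧸ I :=
    fun p => Ideal.Quotient.mk I (aeval y (monomial (ex m p.2) (1 : K)) * b p.1) with hv
  have hlin : LinearIndependent K v := by
    rw [Fintype.linearIndependent_iff]
    intro c hc p0
    have h1 : (∑ k, aeval y (∑ t : T, monomial (ex m t) (c (k, t))) * b k) ∈ I := by
      rw [← Ideal.Quotient.eq_zero_iff_mem, ← hc, Fintype.sum_prod_type, map_sum]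
      refine Finset.sum_congr rfl fun k _ => ?_
      rw [map_sum, Finset.sum_mul, map_sum]
      refine Finset.sum_congr rfl fun t _ => ?_
      simp only [hv]
      rw [← Ideal.Quotient.mkₐ_eq_mk K I, ← map_smul, Algebra.smul_def]
      congr 1
      rw [← mul_assoc]
      congr 1
      simp only [aeval_monomial, MvPolynomial.algebraMap_eq, map_one, one_mul]
    have h2 := hind _ h1
    have h3 := congrFun h2 p0.1
    have h4 := congrArg (coeff (ex m p0.2)) h3
    simp only [Pi.zero_apply, coeff_zero, coeff_sum, coeff_monomial] at h4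
    rw [Finset.sum_eq_single p0.2] at h4
    · simpa using h4
    · intro t _ ht
      rw [if_neg]
      intro h
      exact ht (ex_inj m h)
    · intro h
      exact absurd (Finset.mem_univ _) h
  have hle : Submodule.span K (Set.range v) ≤
      (homogeneousSubmodule (Fin n) K (m + 2)).map (Ideal.Quotient.mkₐ K I).toLinearMap := by
    rw [Submodule.span_le]
    rintro _ ⟨p, rfl⟩
    refine ⟨aeval y (monomial (ex m p.2) (1 : K)) * b p.1, ?_, rfl⟩
    have h1 : (monomial (ex m p.2) (1 : K)).IsHomogeneous m :=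
      isHomogeneous_monomial _ (ex_degree m p.2)
    have := (h1.aeval y hy).mul (hb p.1)
    simpa using this
  have hfin : Module.Finite K
      ((homogeneousSubmodule (Fin n) K (m + 2)).map (Ideal.Quotient.mkₐ K I).toLinearMap) := by
    have := Module.Finite.iff_fg.mpr (homogeneousSubmodule_fg (Fin n) K (m + 2))
    infer_instance
  have h5 := Submodule.finrank_mono hle
  rw [finrank_span_eq_card hlin, Fintype.card_prod, Fintype.card_fin] at h5
  have h6 := card_ex m
  unfold hilb
  have h7 : 2 * (3 * Fintype.card T) = 3 * ((m + 1) * (m + 2)) := by rw [← h6]; ring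
  omega

end count

section asymp

theorem quad_form (q : Polynomial ℚ) (hq : q.natDegree = 2) (hl : q.leadingCoeff = 1) :
    ∃ b c : ℚ, ∀ x : ℚ, q.eval x = x ^ 2 + b * x + c := by
  refine ⟨q.coeff 1, q.coeff 0, fun x => ?_⟩
  have h3 := Polynomial.eq_quadratic_of_degree_le_two (p := q) (by
    rw [Polynomial.degree_eq_natDegree (by rintro rfl; simp at hq), hq]; norm_num)
  have h4 : q.coeff 2 = 1 := by
    have : q.coeff q.natDegree = 1 := hl
    rwa [hq] at this
  rw [h3, h4]
  simp

theorem asymp_lower (h : ℕ → ℕ) (q : Polynomial ℚ) (hq : q.natDegree = 2)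
    (hl : q.leadingCoeff = 1) (hH : ∃ N, ∀ m ≥ N, (h m : ℚ) = q.eval (m : ℚ))
    (hc : ∀ m, 3 * ((m + 1) * (m + 2)) ≤ 2 * h (m + 2)) : False := by
  obtain ⟨b, c, hbc⟩ := quad_form q hq hl
  obtain ⟨N, hN⟩ := hH
  obtain ⟨k, hk⟩ := exists_nat_gt (|b| + |c| + 10)
  set m := N + 10 * k + 10 with hm
  have h1 := hN (m + 2) (by omega)
  have h2 := hc m
  rw [hbc] at h1
  have h3 : (3 * ((m + 1) * (m + 2)) : ℚ) ≤ 2 * (h (m + 2) : ℚ) := by exact_mod_cast h2
  rw [h1] at h3
  push_cast at h3
  have hmk : (10 * k + 10 : ℚ) ≤ m := by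
    rw [hm]; push_cast; have : (0:ℚ) ≤ N := Nat.cast_nonneg N; linarith
  have hb := abs_nonneg b
  have hc' := abs_nonneg c
  have hb1 := le_abs_self b
  have hc1 := le_abs_self c
  have hk' : (|b| + |c| + 10) < k := hk
  nlinarith [mul_nonneg hb (show (0:ℚ) ≤ m + 2 by linarith),
    mul_le_mul_of_nonneg_right hb1 (show (0:ℚ) ≤ m + 2 by linarith)]

theorem asymp_upper (h : ℕ → ℕ) (q : Polynomial ℚ) (hq : q.natDegree = 2)
    (hl : q.leadingCoeff = 1) (hH : ∃ N, ∀ m ≥ N, (h m : ℚ) = q.eval (m : ℚ))
    (C : ℕ) (hc : ∀ m, h m ≤ C * (m + 1)) : False := by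
  obtain ⟨b, c, hbc⟩ := quad_form q hq hl
  obtain ⟨N, hN⟩ := hH
  obtain ⟨k, hk⟩ := exists_nat_gt (|b| + |c| + 10)
  set m := N + C + 10 * k + 10 with hm
  have h1 := hN m (by omega)
  have h2 := hc m
  rw [hbc] at h1
  have h3 : (h m : ℚ) ≤ C * (m + 1) := by exact_mod_cast h2
  rw [h1] at h3
  have hmk : (C + 10 * k + 10 : ℚ) ≤ m := by
    rw [hm]; push_cast; have : (0:ℚ) ≤ N := Nat.cast_nonneg N; linarith
  have hC0 : (0:ℚ) ≤ C := Nat.cast_nonneg C
  have hb := abs_nonneg b
  have hc' := abs_nonneg c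
  have hb1 := neg_abs_le b
  have hc1 := neg_abs_le c
  have hk' : (|b| + |c| + 10) < k := hk
  nlinarith [mul_nonneg hb (show (0:ℚ) ≤ m by linarith),
    mul_le_mul_of_nonneg_right hb1 (show (0:ℚ) ≤ m by linarith)]

end asymp

end Pool.Agent.H74.LowDeg
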