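import Mathlib
import Pool.Agent.H74.LowDeg.Hilb

namespace Pool.Agent.H74.LowDeg

open MvPolynomial

section coeffs

open Polynomial in
/-- the top coefficient of a homogeneous polynomial evaluated at linear polynomials -/
theorem top_coeff_aux {R τ : Type*} [CommRing R] [Fintype τ] (g : τ → R[X]) (γ : τ → R)
    (hg : ∀ i, (g i).natDegree ≤ 1) (hγ : ∀ i, (g i).coeff 1 = γ i) (s : Finset τ)
    (d : τ → ℕ) :
    (∏ i ∈ s, g i ^ d i).natDegree ≤ ∑ i ∈ s, d i ∧
      (∏ i ∈ s, g i ^ d i).coeff (∑ i ∈ s, d i) = ∏ i ∈ s, γ i ^ d i := by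
  classical
  induction s using Finset.induction_on with
  | empty => simp
  | insert a s ha ih =>
    have h1 : (g a ^ d a).natDegree ≤ d a := by
      refine (natDegree_pow_le).trans ?_
      nlinarith [hg a]
    have h2 : (g a ^ d a).coeff (d a) = γ a ^ d a := by
      have := Polynomial.coeff_pow_of_natDegree_le (m := d a) (hg a)
      rw [mul_one, hγ] at this
      exact this
    rw [Finset.prod_insert ha, Finset.sum_insert ha, Finset.prod_insert ha]
    refine ⟨(natDegree_mul_le).trans (add_le_add h1 ih.1), ?_⟩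
    rw [Polynomial.coeff_mul_add_eq_of_natDegree_le h1 ih.1, h2, ih.2]

open Polynomial in
theorem top_coeff {K R τ : Type*} [Field K] [CommRing R] [Algebra K R] [Fintype τ]
    (g : τ → R[X]) (γ : τ → K)
    (hg : ∀ i, (g i).natDegree ≤ 1) (hγ : ∀ i, (g i).coeff 1 = algebraMap K R (γ i))
    (G : MvPolynomial τ K) (D : ℕ) (hG : G.IsHomogeneous D) :
    (MvPolynomial.aeval g G : R[X]).natDegree ≤ D ∧
      (MvPolynomial.aeval g G : R[X]).coeff D = algebraMap K R (MvPolynomial.eval γ G) := by
  classical
  have key : ∀ d ∈ G.support, ((algebraMap K R[X] (G.coeff d)) * ∏ i, g i ^ d i).natDegree ≤ D ∧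
      ((algebraMap K R[X] (G.coeff d)) * ∏ i, g i ^ d i).coeff D =
        algebraMap K R (G.coeff d * ∏ i, γ i ^ d i) := by
    intro d hd
    have hdD : ∑ i, d i = D := by
      have := hG (mem_support_iff.mp hd)
      rw [← this]
      simp [Finsupp.weight_apply, Finsupp.sum_fintype]
    obtain ⟨h1, h2⟩ := top_coeff_aux g (fun i => algebraMap K R (γ i)) hg hγ Finset.univ d
    rw [hdD] at h1 h2
    have h3 : (algebraMap K R[X] (G.coeff d)) = Polynomial.C (algebraMap K R (G.coeff d)) := rfl
    rw [h3]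
    refine ⟨(natDegree_C_mul_le _ _).trans h1, ?_⟩
    rw [Polynomial.coeff_C_mul, h2]
    simp
  have hsum : (MvPolynomial.aeval g G : R[X]) =
      ∑ d ∈ G.support, (algebraMap K R[X] (G.coeff d)) * ∏ i, g i ^ d i := by
    rw [MvPolynomial.aeval_eq_eval₂Hom, MvPolynomial.coe_eval₂Hom, MvPolynomial.eval₂_eq']
  refine ⟨?_, ?_⟩
  · rw [hsum]
    exact natDegree_sum_le_of_forall_le _ _ fun d hd => (key d hd).1
  · rw [hsum, finsetSum_coeff, Finset.sum_congr rfl fun d hd => (key d hd).2, ← map_sum,
      MvPolynomial.eval_eq']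

end coeffs

section noether

variable {K : Type*} [Field K] [Infinite K] {n : ℕ}

/-- the homomorphism attached to a family of polynomials -/
noncomputable def phi (I : Ideal (MvPolynomial (Fin n) K)) {r : ℕ}
    (y : Fin r → MvPolynomial (Fin n) K) : MvPolynomial (Fin r) K →ₐ[K] MvPolynomial (Fin n) K ⧸ I :=
  aeval fun i => Ideal.Quotient.mk I (y i)

omit [Infinite K] in
theorem phi_apply (I : Ideal (MvPolynomial (Fin n) K)) {r : ℕ}
    (y : Fin r → MvPolynomial (Fin n) K) (c : MvPolynomial (Fin r) K) :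
    phi I y c = Ideal.Quotient.mk I (aeval y c) := by
  unfold phi
  rw [← Ideal.Quotient.mkₐ_eq_mk K I]
  have : (aeval fun i => Ideal.Quotient.mkₐ K I (y i)) =
      (Ideal.Quotient.mkₐ K I).comp (aeval y) := by
    ext i
    simp
  exact congrArg (fun f => f c) this

/-- `B` is integral over the subalgebra generated by `r` linear forms -/
def Nrm (I : Ideal (MvPolynomial (Fin n) K)) (r : ℕ) : Prop :=
  ∃ y : Fin r → MvPolynomial (Fin n) K, (∀ i, (y i).IsHomogeneous 1) ∧
    (phi I y).toRingHom.IsIntegral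

theorem nrm_reduce (I : Ideal (MvPolynomial (Fin n) K)) (hI : I ≠ ⊤)
    (hhom : ∀ f ∈ I, ∀ m, homogeneousComponent m f ∈ I) (r : ℕ)
    (y : Fin r → MvPolynomial (Fin n) K) (hy : ∀ i, (y i).IsHomogeneous 1)
    (hint : (phi I y).toRingHom.IsIntegral) (G : MvPolynomial (Fin r) K) (hG : G ≠ 0)
    (hGI : aeval y G ∈ I) : ∃ r' < r, Nrm I r' := by
  classical
  -- a nonzero homogeneous relation
  obtain ⟨D, hD⟩ : ∃ D, homogeneousComponent D G ≠ 0 := by
    by_contra hcon
    push Not at hcon
    apply hG
    rw [← sum_homogeneousComponent G]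
    exact Finset.sum_eq_zero fun i _ => hcon i
  set H := homogeneousComponent D G with hH
  have hHI : aeval y H ∈ I := by
    rw [hH, ← hc_aeval y hy]
    exact hhom _ hGI D
  have hHhom : H.IsHomogeneous D := homogeneousComponent_isHomogeneous D G
  obtain ⟨c, hc⟩ : ∃ c : Fin r → K, eval c H ≠ 0 := by
    by_contra hcon
    push Not at hcon
    exact hD (hHhom.eq_zero_of_forall_eval_eq_zero hcon)
  have hD0 : D ≠ 0 := by
    rintro rfl
    have h1 : H = C (coeff 0 G) := by rw [hH, homogeneousComponent_zero]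
    have h2 : coeff 0 G ≠ 0 := by
      intro h; rw [h1, h, C_0] at hD; exact hD rfl
    rw [h1, aeval_C] at hHI
    have := I.mul_mem_left (C (coeff 0 G)⁻¹) hHI
    rw [MvPolynomial.algebraMap_eq, ← C_mul, inv_mul_cancel₀ h2, C_1] at this
    exact hI ((Ideal.eq_top_iff_one I).mpr this)
  obtain ⟨i, hi⟩ : ∃ i, c i ≠ 0 := by
    by_contra hcon
    push Not at hcon
    apply hc
    have : c = fun _ => 0 := funext hcon
    rw [this]
    have h0 : eval (fun _ : Fin r => (0 : K)) H = constantCoeff H := by
      rw [← MvPolynomial.eval_zero']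
    rw [h0]
    rw [constantCoeff_eq]
    exact hHhom.coeff_eq_zero (by simpa using hD0.symm)
  obtain ⟨r', rfl⟩ : ∃ r', r = r' + 1 := ⟨r - 1, by have := i.2; omega⟩
  refine ⟨r', Nat.lt_succ_self _, ?_⟩
  set γ : Fin (r' + 1) → K := fun j => (c i)⁻¹ * c j with hγ
  have hu : eval γ H ≠ 0 := by
    have h1 : eval γ H = (c i)⁻¹ ^ D * eval c H := by
      rw [MvPolynomial.eval_eq', MvPolynomial.eval_eq', Finset.mul_sum]
      refine Finset.sum_congr rfl fun d hd => ?_
      have hdD : ∑ i, d i = D := by
        have := hHhom (mem_support_iff.mp hd)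
        rw [← this]
        simp [Finsupp.weight_apply, Finsupp.sum_fintype]
      simp only [hγ, mul_pow, Finset.prod_mul_distrib]
      rw [Finset.prod_pow_eq_pow_sum, hdD]
      ring
    rw [h1]
    exact mul_ne_zero (pow_ne_zero _ (inv_ne_zero hi)) hc
  set u := eval γ H with hudef
  set R := MvPolynomial (Fin r') K with hR
  set g : Fin (r' + 1) → Polynomial R := i.insertNth Polynomial.X
    (fun j => Polynomial.C (X j) + Polynomial.C (C (γ (i.succAbove j))) * Polynomial.X) with hg
  have hg1 : ∀ j, (g j).natDegree ≤ 1 := by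
    intro j
    refine i.succAboveCases ?_ (fun k => ?_) j
    · simp [hg]
    · simp only [hg, Fin.insertNth_apply_succAbove]
      compute_degree
  have hg2 : ∀ j, (g j).coeff 1 = algebraMap K R (γ j) := by
    intro j
    refine i.succAboveCases ?_ (fun k => ?_) j
    · simp [hg, hγ, inv_mul_cancel₀ hi]
    · simp [hg, Polynomial.coeff_C]
      rfl
  obtain ⟨hP1, hP2⟩ := top_coeff g γ hg1 hg2 H D hHhom
  set P : Polynomial R := MvPolynomial.aeval g H with hP
  set P' : Polynomial R := Polynomial.C (C u⁻¹) * P with hP'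
  have hmon : P'.Monic := by
    apply Polynomial.monic_of_natDegree_le_of_coeff_eq_one D
    · exact (Polynomial.natDegree_C_mul_le _ _).trans hP1
    · rw [hP', Polynomial.coeff_C_mul, hP2, ← hudef, MvPolynomial.algebraMap_eq, ← C_mul,
        inv_mul_cancel₀ hu, C_1]
  set y' : Fin r' → MvPolynomial (Fin n) K :=
    fun j => y (i.succAbove j) - C (γ (i.succAbove j)) * y i with hy'
  have hy'1 : ∀ j, (y' j).IsHomogeneous 1 := by
    intro j
    refine (hy _).sub ?_
    have := (isHomogeneous_C (Fin n) (γ (i.succAbove j))).mul (hy i)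
    simpa using this
  set φ' := (phi I y').toRingHom with hφ'
  have hφC : ∀ a : K, φ' (C a) = Ideal.Quotient.mk I (C a) := by
    intro a
    change phi I y' (C a) = _
    rw [phi_apply, aeval_C]
    rfl
  have hφX : ∀ j, φ' (X j) = Ideal.Quotient.mk I (y' j) := by
    intro j
    change phi I y' (X j) = _
    rw [phi_apply, aeval_X]
  have hev : ∀ F : MvPolynomial (Fin (r' + 1)) K,
      Polynomial.eval₂ φ' (Ideal.Quotient.mk I (y i)) (MvPolynomial.aeval g F) = phi I y F := by
    intro F
    have : (Polynomial.eval₂RingHom φ' (Ideal.Quotient.mk I (y i))).comp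
        (MvPolynomial.aeval g : _ →ₐ[K] Polynomial R).toRingHom = (phi I y).toRingHom := by
      apply MvPolynomial.ringHom_ext
      · intro a
        simp only [RingHom.comp_apply, AlgHom.toRingHom_eq_coe, RingHom.coe_coe, algHom_C,
          Polynomial.algebraMap_apply, Polynomial.coe_eval₂RingHom, Polynomial.eval₂_C]
        exact hφC a
      · intro j
        simp only [RingHom.comp_apply, AlgHom.toRingHom_eq_coe, RingHom.coe_coe, aeval_X,
          Polynomial.coe_eval₂RingHom, phi]
        refine i.succAboveCases ?_ (fun k => ?_) j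
        · simp [hg]
        · simp only [hg, Fin.insertNth_apply_succAbove, Polynomial.eval₂_add,
            Polynomial.eval₂_mul, Polynomial.eval₂_C, Polynomial.eval₂_X, hφC, hφX, hy']
          rw [← map_mul, ← map_add]
          congr 1
          ring
    exact congrArg (fun f => f F) this
  have hroot : Polynomial.eval₂ φ' (Ideal.Quotient.mk I (y i)) P' = 0 := by
    rw [hP', Polynomial.eval₂_mul, hP, hev, phi_apply, Ideal.Quotient.eq_zero_iff_mem.mpr hHI,
      mul_zero]
  refine ⟨y', hy'1, ?_⟩
  set lam : AdjoinRoot P' →+* (MvPolynomial (Fin n) K ⧸ I) :=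
    AdjoinRoot.lift φ' (Ideal.Quotient.mk I (y i)) hroot with hlam
  have hlam1 : lam.comp (AdjoinRoot.of P') = φ' :=
    RingHom.ext fun a => AdjoinRoot.lift_of hroot
  have hlam2 : lam.comp ((AdjoinRoot.mk P').comp
      (MvPolynomial.aeval g : _ →ₐ[K] Polynomial R).toRingHom) = (phi I y).toRingHom := by
    refine RingHom.ext fun F => ?_
    have : lam (AdjoinRoot.mk P' (MvPolynomial.aeval g F)) = phi I y F := by
      rw [← hev F, hlam, AdjoinRoot.lift_mk]
    exact this
  have h1 : lam.IsIntegral := by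
    rw [← hlam2] at hint
    exact RingHom.IsIntegral.tower_top _ _ hint
  have h2 : (AdjoinRoot.of P').IsIntegral := by
    have := hmon.finite_adjoinRoot
    exact (Algebra.IsIntegral.of_finite R (AdjoinRoot P')).isIntegral
  have h3 := RingHom.IsIntegral.trans _ _ h2 h1
  rw [hlam1] at h3
  exact h3

end noether

end Pool.Agent.H74.LowDeg
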