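import Mathlib
import Pool.Agent.H74.LowDeg.LevelTwo
import Pool.Agent.H74.LowDeg.Gram
import Pool.Agent.H74.LowDeg.Noeth

namespace Pool.Agent.H74.LowDeg

universe u

open MvPolynomial

section mem

variable {k K M : Type*} [Field k] [Field K] [Algebra k K] [Field M] [Algebra K M]

theorem algMap_mem (E : IntermediateField k K) (T : IntermediateField E M) (x : K) (hx : x ∈ E) :
    algebraMap K M x ∈ T :=
  IntermediateField.algebraMap_mem T ⟨x, hx⟩

theorem aeval_mem_of {n : ℕ} (E : IntermediateField k K) (T : IntermediateField E M)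
    (P : MvPolynomial (Fin n) K) (hP : ∀ d, coeff d P ∈ E) (x : Fin n → M)
    (hx : ∀ i, x i ∈ T) : aeval x P ∈ T := by
  rw [MvPolynomial.aeval_eq_eval₂Hom, MvPolynomial.coe_eval₂Hom, MvPolynomial.eval₂_eq']
  refine sum_mem fun d _ => ?_
  exact mul_mem (algMap_mem E T _ (hP d)) (prod_mem fun i _ => pow_mem (hx i) _)

theorem aeval_poly_mem {n : ℕ} (E : IntermediateField k K) (T : IntermediateField E M)
    (P : MvPolynomial (Fin n) K) (hP : ∀ d, coeff d P ∈ E) (g : Fin n → Polynomial M)
    (hg : ∀ i m, (g i).coeff m ∈ T) (m : ℕ) : (aeval g P : Polynomial M).coeff m ∈ T := by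
  have hl : ∀ q : Polynomial M, q ∈ Polynomial.lifts (algebraMap T M) ↔ ∀ m, q.coeff m ∈ T := by
    intro q
    rw [Polynomial.lifts_iff_coeff_lifts]
    constructor
    · intro h m
      obtain ⟨y, hy⟩ := h m
      rw [← hy]
      exact y.2
    · intro h m
      exact ⟨⟨_, h m⟩, rfl⟩
  revert m
  rw [← hl]
  rw [MvPolynomial.aeval_eq_eval₂Hom, MvPolynomial.coe_eval₂Hom, MvPolynomial.eval₂_eq']
  refine sum_mem fun d _ => mul_mem ?_ (prod_mem fun i _ => pow_mem ?_ _)
  · rw [hl]
    intro m
    change (Polynomial.C (algebraMap K M (coeff d P))).coeff m ∈ T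
    rw [Polynomial.coeff_C]
    split_ifs
    · exact algMap_mem E T _ (hP d)
    · exact zero_mem _
  · rw [hl]
    exact hg i

/-- a form with a generic coefficient does not vanish -/
theorem form_ne {n : ℕ} (E : IntermediateField k K) (t : K) (ht : Transcendental E t) (θ : M)
    (hθ : IsIntegral E θ) (P : MvPolynomial (Fin n) K) (D : ℕ) (i0 : Fin n)
    (hPt : coeff (Finsupp.single i0 D) P = t)
    (hPE : ∀ α, α ≠ Finsupp.single i0 D → coeff α P ∈ E) (x : Fin n → M)
    (hx : ∀ i, x i ∈ IntermediateField.adjoin E {θ}) (hx0 : x i0 ≠ 0) : aeval x P ≠ 0 := by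
  classical
  intro h
  set T := IntermediateField.adjoin E {θ} with hT
  have h1 : aeval x (P - monomial (Finsupp.single i0 D) t) ∈ T := by
    apply aeval_mem_of E T _ _ x hx
    intro d
    rw [coeff_sub, coeff_monomial]
    split_ifs with hd
    · rw [← hd, hPt, sub_self]; exact zero_mem _
    · rw [sub_zero]; exact hPE d (Ne.symm hd)
  rw [map_sub, h, zero_sub, aeval_monomial, Finsupp.prod_single_index (by simp)] at h1
  have h2 : algebraMap K M t ∈ T := by
    have h3 : x i0 ^ D ≠ 0 := pow_ne_zero _ hx0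
    have h4 := mul_mem (neg_mem h1) (inv_mem (pow_mem (hx i0) D))
    have h5 : - -(algebraMap K M t * x i0 ^ D) * (x i0 ^ D)⁻¹ = algebraMap K M t := by
      field_simp
    rwa [h5] at h4
  have ht2 := ext_transcendental E t ht θ hθ
  exact ht2 (isAlgebraic_algebraMap (⟨_, h2⟩ : T))

end mem

section linalg

variable {F : Type*} [Field F]

theorem orth_det (G : Matrix (Fin 5) (Fin 5) F) (f : Fin 5 → Fin 5 → F) (a : Fin 5 → F)
    (ha : ∀ i, a i ≠ 0)
    (h : ∀ i j, (∑ p, ∑ q, f i p * G p q * f j q) = if i = j then a i else 0) :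
    (Matrix.of f).det ≠ 0 := by
  intro hdet
  have h1 : Matrix.of f * G * (Matrix.of f).transpose = Matrix.diagonal a := by
    ext i j
    rw [Matrix.diagonal_apply, ← h i j, Matrix.mul_apply, Finset.sum_comm]
    refine Finset.sum_congr rfl fun q _ => ?_
    rw [Matrix.mul_apply, Finset.sum_mul]
    rfl
  have h2 := congrArg Matrix.det h1
  rw [Matrix.det_mul, Matrix.det_mul, hdet, zero_mul, zero_mul, Matrix.det_diagonal] at h2
  exact (Finset.prod_ne_zero_iff.mpr fun i _ => ha i) h2.symm

theorem orth_exists (G : Matrix (Fin 5) (Fin 5) F) (f : Fin 5 → Fin 5 → F) (a : Fin 5 → F)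
    (ha : ∀ i, a i ≠ 0)
    (h : ∀ i j, (∑ p, ∑ q, f i p * G p q * f j q) = if i = j then a i else 0) :
    ∃ j : Fin 5, j ≠ 0 ∧ (f 0 j ≠ 0 ∨ f 1 j ≠ 0) := by
  by_contra hcon
  push Not at hcon
  have h0 : ∀ i i' : Fin 5, (i = 0 ∨ i = 1) → (i' = 0 ∨ i' = 1) →
      (∑ p, ∑ q, f i p * G p q * f i' q) = f i 0 * G 0 0 * f i' 0 := by
    intro i i' hi hi'
    rw [Finset.sum_eq_single 0, Finset.sum_eq_single 0]
    · intro q _ hq
      have := hcon q hq
      rcases hi' with rfl | rfl
      · rw [this.1, mul_zero]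
      · rw [this.2, mul_zero]
    · intro h; exact absurd (Finset.mem_univ _) h
    · intro p _ hp
      have := hcon p hp
      apply Finset.sum_eq_zero
      intro q _
      rcases hi with rfl | rfl
      · rw [this.1, zero_mul, zero_mul]
      · rw [this.2, zero_mul, zero_mul]
    · intro h; exact absurd (Finset.mem_univ _) h
  have e00 := h 0 0
  have e01 := h 0 1
  have e11 := h 1 1
  rw [h0 0 0 (Or.inl rfl) (Or.inl rfl), if_pos rfl] at e00
  rw [h0 0 1 (Or.inl rfl) (Or.inr rfl), if_neg (by decide)] at e01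
  rw [h0 1 1 (Or.inr rfl) (Or.inr rfl), if_pos rfl] at e11
  have n00 := ha 0
  have n11 := ha 1
  rw [← e00] at n00
  rw [← e11] at n11
  rcases mul_eq_zero.mp e01 with h1 | h1
  · rcases mul_eq_zero.mp h1 with h2 | h2
    · apply n00; rw [h2]; ring
    · apply n00; rw [h2]; ring
  · apply n11; rw [h1]; ring

theorem solve_shift (G : Matrix (Fin 5) (Fin 5) F) (hdet : G.det ≠ 0) (g : Fin 5 → F) :
    ∃ P : Fin 5 → F, ∀ q, ∑ p, G q p * P p = - g q := by
  refine ⟨- (G⁻¹.mulVec g), fun q => ?_⟩
  have h1 : G.mulVec (- (G⁻¹.mulVec g)) = - g := by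
    rw [Matrix.mulVec_neg, Matrix.mulVec_mulVec,
      Matrix.mul_nonsing_inv _ (isUnit_iff_ne_zero.mpr hdet), Matrix.one_mulVec]
  exact congrFun h1 q

end linalg

section indep

variable {K M N : Type*} [Field K] [Field M] [Algebra K M]

theorem quad_indep (θ : M) (hθ : IntermediateField.adjoin K {θ} = ⊤)
    (hfin : Module.finrank K M = 4) (c0 c1 c2 : K)
    (h : algebraMap K M c0 + algebraMap K M c1 * θ + algebraMap K M c2 * θ ^ 2 = 0) :
    c0 = 0 ∧ c1 = 0 ∧ c2 = 0 := by
  have hfd : FiniteDimensional K M := FiniteDimensional.of_finrank_pos (by rw [hfin]; norm_num)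
  have hint : IsIntegral K θ := Algebra.IsIntegral.isIntegral θ
  have hdeg : (minpoly K θ).natDegree = 4 := by
    rw [← IntermediateField.adjoin.finrank hint, hθ, IntermediateField.finrank_top', hfin]
  set q : Polynomial K := Polynomial.C c0 + Polynomial.C c1 * Polynomial.X +
    Polynomial.C c2 * Polynomial.X ^ 2 with hq
  have hq0 : Polynomial.aeval θ q = 0 := by
    rw [hq]
    simpa using h
  have hqd : q.natDegree ≤ 2 := by
    rw [hq]; compute_degree
  have hq1 : q = 0 := by
    by_contra hne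
    have := Polynomial.natDegree_le_of_dvd (minpoly.dvd K θ hq0) hne
    omega
  have h0 := congrArg (fun p => Polynomial.coeff p 0) hq1
  have h1 := congrArg (fun p => Polynomial.coeff p 1) hq1
  have h2 := congrArg (fun p => Polynomial.coeff p 2) hq1
  simp [hq, Polynomial.coeff_X, Polynomial.coeff_C, Polynomial.coeff_X_pow] at h0 h1 h2
  exact ⟨h0, h1, h2⟩

theorem tau_indep [Field N] [Algebra M N] (τ : N) (hτ : IntermediateField.adjoin M {τ} = ⊤)
    (hfin : 2 ≤ Module.finrank M N) (p q : M) (h : algebraMap M N p + τ * algebraMap M N q = 0) :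
    p = 0 ∧ q = 0 := by
  have hq : q = 0 := by
    by_contra hq
    have hτ1 : τ = algebraMap M N (- p / q) := by
      have hq' : algebraMap M N q ≠ 0 := (map_ne_zero _).mpr hq
      rw [map_div₀, map_neg, eq_div_iff hq']
      linear_combination h
    have h1 : IntermediateField.adjoin M {τ} = (⊥ : IntermediateField M N) := by
      rw [hτ1, IntermediateField.adjoin_simple_eq_bot_iff]
      exact IntermediateField.algebraMap_mem _ _
    rw [hτ] at h1
    have h2 : Module.finrank M N = 1 := by
      rw [← IntermediateField.finrank_top' (F := M) (E := N), h1, IntermediateField.finrank_bot]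
    omega
  refine ⟨?_, hq⟩
  rw [hq, map_zero, mul_zero, add_zero] at h
  exact (map_eq_zero _).mp h

end indep

end Pool.Agent.H74.LowDeg
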