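import Mathlib
import Pool.Agent.H74.LowDeg.PointAux

namespace Pool.Agent.H74.LowDeg

universe u

open MvPolynomial

section vec

variable {M N : Type*} [CommRing M] [CommRing N]

theorem vec_castSucc (f : Fin 5 → Fin 5 → M) (P y : Fin 5 → M) (y5 : M) (j : Fin 5) :
    vec f P y y5 (Fin.castSucc j) = ∑ i, y i * f i j + y5 * P j := by
  unfold vec
  rw [Fin.snoc_castSucc]

theorem vec_last (f : Fin 5 → Fin 5 → M) (P y : Fin 5 → M) (y5 : M) :
    vec f P y y5 (Fin.last 5) = y5 := by
  unfold vec
  rw [Fin.snoc_last]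

theorem vec_add (f : Fin 5 → Fin 5 → M) (P y y' : Fin 5 → M) (a b τ : M) (j : Fin 6) :
    vec f P (fun i => y i + τ * y' i) (a + τ * b) j = vec f P y a j + τ * vec f P y' b j := by
  refine Fin.lastCases ?_ (fun j => ?_) j
  · simp only [vec_last]
  · simp only [vec_castSucc]
    have : ∑ i, (y i + τ * y' i) * f i j = ∑ i, y i * f i j + τ * ∑ i, y' i * f i j := by
      rw [Finset.mul_sum, ← Finset.sum_add_distrib]
      refine Finset.sum_congr rfl fun i _ => ?_
      ring
    rw [this]
    ring

theorem vec_map (φ : M →+* N) (f : Fin 5 → Fin 5 → M) (P y : Fin 5 → M) (a : M) (j : Fin 6) :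
    φ (vec f P y a j) = vec (fun i j => φ (f i j)) (fun j => φ (P j)) (fun i => φ (y i)) (φ a) j := by
  refine Fin.lastCases ?_ (fun j => ?_) j
  · simp only [vec_last]
  · simp only [vec_castSucc, map_add, map_sum, map_mul]

end vec

/-- homogeneous evaluation has bounded degree -/
theorem natDegree_aeval_le {K M : Type*} [Field K] [Field M] [Algebra K M] {n : ℕ}
    (g : Fin n → Polynomial M) (hg : ∀ i, (g i).natDegree ≤ 1) (P : MvPolynomial (Fin n) K)
    (D : ℕ) (hP : P.IsHomogeneous D) : (aeval g P : Polynomial M).natDegree ≤ D := by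
  have hsum : (MvPolynomial.aeval g P : Polynomial M) =
      ∑ d ∈ P.support, (algebraMap K (Polynomial M) (P.coeff d)) * ∏ i, g i ^ d i := by
    rw [MvPolynomial.aeval_eq_eval₂Hom, MvPolynomial.coe_eval₂Hom, MvPolynomial.eval₂_eq']
  rw [hsum]
  refine Polynomial.natDegree_sum_le_of_forall_le _ _ fun d hd => ?_
  have hdD : ∑ i, d i = D := by
    have := hP (mem_support_iff.mp hd)
    rw [← this]
    simp [Finsupp.weight_apply, Finsupp.sum_fintype]
  obtain ⟨h1, -⟩ := top_coeff_aux g (fun i => (g i).coeff 1) hg (fun _ => rfl) Finset.univ d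
  rw [hdD] at h1
  have h3 : (algebraMap K (Polynomial M) (P.coeff d)) =
    Polynomial.C (algebraMap K M (P.coeff d)) := rfl
  rw [h3]
  exact (Polynomial.natDegree_C_mul_le _ _).trans h1

/-- linear combinations determine the coordinates -/
theorem coords_zero {F K : Type*} [Field F] [Field K] [Algebra F K] (f : Fin 5 → Fin 5 → F)
    (P : Fin 5 → F) (hdet : (Matrix.of f).det ≠ 0) (c : Fin 6 → K)
    (h : ∀ i : Fin 5, ∑ j : Fin 5, algebraMap F K (f i j) * c (Fin.castSucc j) = 0)
    (h5 : ∑ j : Fin 5, algebraMap F K (P j) * c (Fin.castSucc j) + c (Fin.last 5) = 0) :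
    c = 0 := by
  have hdet' : ((Matrix.of f).map (algebraMap F K)).det ≠ 0 := by
    have : ((Matrix.of f).map (algebraMap F K)).det = algebraMap F K (Matrix.of f).det :=
      ((algebraMap F K).map_det _).symm
    rw [this]
    exact (map_ne_zero _).mpr hdet
  have h1 : ((Matrix.of f).map (algebraMap F K)).mulVec (fun j => c (Fin.castSucc j)) = 0 := by
    funext i
    exact h i
  have h2 := Matrix.eq_zero_of_mulVec_eq_zero hdet' h1
  have h3 : ∀ j : Fin 5, c (Fin.castSucc j) = 0 := fun j => congrFun h2 j
  funext j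
  refine Fin.lastCases ?_ (fun j => ?_) j
  · simp only [h3, mul_zero, Finset.sum_const_zero, zero_add] at h5
    exact h5
  · exact h3 j

section final

variable {F K M N : Type*} [Field F] [Field K] [Algebra F K] [Field M] [Algebra K M] [Field N]
  [Algebra K N] [Algebra M N] [IsScalarTower K M N]

theorem generated (θ : M) (hθ : IntermediateField.adjoin K {θ} = ⊤) (τ : N)
    (hτ : IntermediateField.adjoin M {τ} = ⊤) (W : IntermediateField K N)
    (h1 : algebraMap M N θ ∈ W) (h2 : τ ∈ W) : W = ⊤ := by
  have hM : W.comap (IsScalarTower.toAlgHom K M N) = ⊤ := by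
    rw [eq_top_iff, ← hθ, IntermediateField.adjoin_le_iff, Set.singleton_subset_iff]
    exact h1
  have hM' : ∀ x : M, algebraMap M N x ∈ W := by
    intro x
    have : x ∈ W.comap (IsScalarTower.toAlgHom K M N) := by rw [hM]; trivial
    exact this
  let U : IntermediateField M N :=
    { W.toSubfield with
      algebraMap_mem' := hM' }
  have hU : U = ⊤ := by
    rw [eq_top_iff, ← hτ, IntermediateField.adjoin_le_iff, Set.singleton_subset_iff]
    exact h2
  rw [eq_top_iff]
  intro x _
  have : x ∈ U := by rw [hU]; trivial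
  exact this

theorem final_indep (f : Fin 5 → Fin 5 → F) (P : Fin 5 → F) (hdet : (Matrix.of f).det ≠ 0)
    (θ : M) (hθ : IntermediateField.adjoin K {θ} = ⊤) (hfin : Module.finrank K M = 4)
    (S β κ : K) (hκ : κ ≠ 0) (v0 : M)
    (hv0 : v0 = algebraMap K M S + algebraMap K M β * θ + algebraMap K M κ * θ ^ 2)
    (τ : N) (hτ : IntermediateField.adjoin M {τ} = ⊤) (hN : 2 ≤ Module.finrank M N)
    (fN : Fin 5 → Fin 5 → N) (PN : Fin 5 → N)
    (hfN : ∀ i j, fN i j = algebraMap K N (algebraMap F K (f i j)))
    (hPN : ∀ j, PN j = algebraMap K N (algebraMap F K (P j))) :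
    LinearIndependent K (vec fN PN ![algebraMap M N v0, 1, algebraMap M N θ,
      τ * algebraMap M N (v0 - 1), τ * algebraMap M N (θ + 1)] τ) := by
  rw [Fintype.linearIndependent_iff]
  intro c hc
  set y : Fin 5 → N := ![algebraMap M N v0, 1, algebraMap M N θ,
      τ * algebraMap M N (v0 - 1), τ * algebraMap M N (θ + 1)] with hy
  set d : Fin 5 → K := fun i => ∑ j : Fin 5, algebraMap F K (f i j) * c (Fin.castSucc j) with hd
  set d5 : K := ∑ j : Fin 5, algebraMap F K (P j) * c (Fin.castSucc j) + c (Fin.last 5) with hd5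
  have h1 : ∑ i, algebraMap K N (d i) * y i + algebraMap K N d5 * τ = 0 := by
    rw [← hc, Fin.sum_univ_castSucc (n := 5)]
    simp only [vec_castSucc, vec_last, Algebra.smul_def]
    have e1 : ∑ x : Fin 5, algebraMap K N (c (Fin.castSucc x)) *
        (∑ i, y i * fN i x + τ * PN x) =
        ∑ i, (∑ x : Fin 5, fN i x * algebraMap K N (c (Fin.castSucc x))) * y i +
          (∑ x : Fin 5, PN x * algebraMap K N (c (Fin.castSucc x))) * τ := by
      simp only [Finset.sum_mul, mul_add, Finset.sum_add_distrib, Finset.mul_sum]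
      rw [Finset.sum_comm]
      congr 1
      · refine Finset.sum_congr rfl fun i _ => Finset.sum_congr rfl fun j _ => ?_
        ring
      · refine Finset.sum_congr rfl fun j _ => ?_
        ring
    rw [e1]
    have e2 : ∀ i, algebraMap K N (d i) =
        ∑ x : Fin 5, fN i x * algebraMap K N (c (Fin.castSucc x)) := by
      intro i
      simp only [hd, map_sum, map_mul, hfN]
    have e3 : algebraMap K N d5 =
        ∑ x : Fin 5, PN x * algebraMap K N (c (Fin.castSucc x)) +
          algebraMap K N (c (Fin.last 5)) := by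
      simp only [hd5, map_add, map_sum, map_mul, hPN]
    simp only [e2, e3]
    ring
  have hKMN : ∀ x : K, algebraMap K N x = algebraMap M N (algebraMap K M x) :=
    fun x => IsScalarTower.algebraMap_apply K M N x
  have h2 : algebraMap M N (algebraMap K M (d 0) * v0 + algebraMap K M (d 1) +
      algebraMap K M (d 2) * θ) + τ * algebraMap M N (algebraMap K M (d 3) * (v0 - 1) +
      algebraMap K M (d 4) * (θ + 1) + algebraMap K M d5) = 0 := by
    rw [← h1, Fin.sum_univ_five]
    simp only [hy, Matrix.cons_val_zero, Matrix.cons_val_one, Matrix.cons_val_two,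
      Matrix.head_cons, Matrix.tail_cons, Matrix.cons_val_three, Matrix.cons_val_four, map_add,
      map_mul, map_sub, map_one, hKMN]
    ring
  obtain ⟨hp, hq⟩ := tau_indep τ hτ hN _ _ h2
  obtain ⟨p0, p1, p2⟩ := quad_indep θ hθ hfin (d 0 * S + d 1) (d 0 * β + d 2) (d 0 * κ) (by
    rw [← hp, hv0]
    simp only [map_add, map_mul]
    ring)
  obtain ⟨q0, q1, q2⟩ := quad_indep θ hθ hfin (d 3 * S - d 3 + d 4 + d5) (d 3 * β + d 4)
    (d 3 * κ) (by
    rw [← hq, hv0]
    simp only [map_add, map_mul, map_sub]
    ring)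
  have d0 : d 0 = 0 := (mul_eq_zero.mp p2).resolve_right hκ
  have d3 : d 3 = 0 := (mul_eq_zero.mp q2).resolve_right hκ
  rw [d0, zero_mul, zero_add] at p0 p1
  rw [d3, zero_mul, zero_add] at q1
  rw [d3, q1] at q0
  have d5' : d5 = 0 := by linear_combination q0
  have hdz : ∀ i, d i = 0 := by
    intro i
    fin_cases i
    · exact d0
    · exact p0
    · exact p1
    · exact d3
    · exact q1
  have := coords_zero f P hdet c hdz d5'
  intro i
  rw [this]
  rfl

theorem final_gen (f : Fin 5 → Fin 5 → F) (P : Fin 5 → F) (hdet : (Matrix.of f).det ≠ 0)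
    (θ : M) (hθ : IntermediateField.adjoin K {θ} = ⊤)
    (τ : N) (hτ : IntermediateField.adjoin M {τ} = ⊤) (hτ0 : τ ≠ 0)
    (y : Fin 5 → N) (hy1 : y 1 = 1) (hy2 : y 2 = algebraMap M N θ)
    (fN : Fin 5 → Fin 5 → N) (PN : Fin 5 → N)
    (hfN : ∀ i j, fN i j = algebraMap K N (algebraMap F K (f i j)))
    (hPN : ∀ j, PN j = algebraMap K N (algebraMap F K (P j)))
    (W : IntermediateField K N) (hW : ∀ i j, vec fN PN y τ i / vec fN PN y τ j ∈ W) : W = ⊤ := by
  classical
  set h := (Matrix.of f)⁻¹ with hh
  have hinv : Matrix.of f * h = 1 := Matrix.mul_nonsing_inv _ (isUnit_iff_ne_zero.mpr hdet)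
  have hinv' : ∀ i l, ∑ j, fN i j * algebraMap K N (algebraMap F K (h j l)) =
      if i = l then 1 else 0 := by
    intro i l
    have h1 := congrFun (congrFun hinv i) l
    rw [Matrix.mul_apply, Matrix.one_apply] at h1
    have h2 := congrArg (fun x => algebraMap K N (algebraMap F K x)) h1
    simp only [map_sum, map_mul, Matrix.of_apply] at h2
    simp only [hfN]
    rw [h2]
    split_ifs <;> simp
  have key : ∀ l, y l / τ ∈ W := by
    intro l
    have h1 : y l = ∑ j : Fin 5, vec fN PN y τ (Fin.castSucc j) *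
        algebraMap K N (algebraMap F K (h j l)) -
        τ * ∑ j, PN j * algebraMap K N (algebraMap F K (h j l)) := by
      simp only [vec_castSucc]
      have e1 : ∑ x : Fin 5, (∑ i, y i * fN i x + τ * PN x) *
          algebraMap K N (algebraMap F K (h x l)) =
          ∑ i, y i * (∑ x, fN i x * algebraMap K N (algebraMap F K (h x l))) +
            τ * ∑ j, PN j * algebraMap K N (algebraMap F K (h j l)) := by
        simp only [Finset.mul_sum, add_mul, Finset.sum_mul, Finset.sum_add_distrib]
        rw [Finset.sum_comm]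
        congr 1
        · refine Finset.sum_congr rfl fun i _ => Finset.sum_congr rfl fun j _ => ?_
          ring
        · refine Finset.sum_congr rfl fun j _ => ?_
          ring
      rw [e1]
      simp only [hinv']
      rw [Finset.sum_eq_single l]
      · rw [if_pos rfl]; ring
      · intro i _ hi
        rw [if_neg hi, mul_zero]
      · intro h; exact absurd (Finset.mem_univ _) h
    have h2 : y l / τ = ∑ j : Fin 5, vec fN PN y τ (Fin.castSucc j) / vec fN PN y τ (Fin.last 5) *
        algebraMap K N (algebraMap F K (h j l)) -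
        ∑ j, algebraMap K N (algebraMap F K (P j)) * algebraMap K N (algebraMap F K (h j l)) := by
      rw [vec_last, h1, sub_div, Finset.sum_div, mul_div_cancel_left₀ _ hτ0]
      congr 1
      · refine Finset.sum_congr rfl fun j _ => ?_
        ring
      · refine Finset.sum_congr rfl fun j _ => ?_
        rw [hPN]
    rw [h2]
    refine sub_mem (sum_mem fun j _ => mul_mem (hW _ _) (W.algebraMap_mem _))
      (sum_mem fun j _ => mul_mem (W.algebraMap_mem _) (W.algebraMap_mem _))
  have hτW : τ ∈ W := by
    have h1 := key 1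
    rw [hy1, one_div] at h1
    have := inv_mem h1
    rwa [inv_inv] at this
  have hθW : algebraMap M N θ ∈ W := by
    have h1 := mul_mem (key 2) hτW
    rwa [div_mul_cancel₀ _ hτ0, hy2] at h1
  exact generated θ hθ τ hτ W hθW hτW

end final

end Pool.Agent.H74.LowDeg
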