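import Mathlib
import Pool.Agent.H74.LowDeg.Point

namespace Pool.Agent.H74.LowDeg

universe u

open MvPolynomial

theorem theta_integral {k K M : Type*} [Field k] [Field K] [Algebra k K] [Field M] [Algebra K M]
    (E : IntermediateField k K) (A0 A1 A2 S β κ : K) (h0 : A0 ∈ E) (h1 : A1 ∈ E) (h2 : A2 ∈ E)
    (hS : S ∈ E) (hβ : β ∈ E) (hκ : κ ∈ E) (hA0 : A0 ≠ 0) (hκ0 : κ ≠ 0) (θ : M)
    (h : algebraMap K M A0 * (algebraMap K M S + algebraMap K M β * θ +
      algebraMap K M κ * θ ^ 2) ^ 2 + algebraMap K M A1 + algebraMap K M A2 * θ ^ 2 = 0) :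
    IsIntegral E θ := by
  apply IsAlgebraic.isIntegral
  set p : Polynomial E := Polynomial.C ⟨A0, h0⟩ * (Polynomial.C ⟨S, hS⟩ +
    Polynomial.C ⟨β, hβ⟩ * Polynomial.X + Polynomial.C ⟨κ, hκ⟩ * Polynomial.X ^ 2) ^ 2 +
    Polynomial.C ⟨A1, h1⟩ + Polynomial.C ⟨A2, h2⟩ * Polynomial.X ^ 2 with hp
  refine ⟨p, ?_, ?_⟩
  · intro hp0
    have hc : p.coeff 4 = ⟨A0, h0⟩ * ⟨κ, hκ⟩ ^ 2 := by
      have hq : (Polynomial.C (⟨S, hS⟩ : E) + Polynomial.C (⟨β, hβ⟩ : E) * Polynomial.X +
        Polynomial.C (⟨κ, hκ⟩ : E) * Polynomial.X ^ 2).natDegree ≤ 2 := by compute_degree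
      have h5 := Polynomial.coeff_pow_of_natDegree_le (m := 2) hq
      have h6 : (Polynomial.C (⟨S, hS⟩ : E) + Polynomial.C (⟨β, hβ⟩ : E) * Polynomial.X +
        Polynomial.C (⟨κ, hκ⟩ : E) * Polynomial.X ^ 2).coeff 2 = ⟨κ, hκ⟩ := by
        simp
      rw [h6] at h5
      rw [hp, Polynomial.coeff_add, Polynomial.coeff_add, Polynomial.coeff_C_mul, h5]
      simp [Polynomial.coeff_X_pow]
    rw [hp0, Polynomial.coeff_zero] at hc
    have h7 : (⟨A0, h0⟩ : E) ≠ 0 := fun h => hA0 (congrArg Subtype.val h)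
    have h8 : (⟨κ, hκ⟩ : E) ≠ 0 := fun h => hκ0 (congrArg Subtype.val h)
    exact (mul_ne_zero h7 (pow_ne_zero 2 h8)) hc.symm
  · simp only [hp, map_add, map_mul, map_pow, Polynomial.aeval_X, Polynomial.aeval_C]
    exact h

theorem vec_mem {E M : Type*} [Field E] [Field M] [Algebra E M] (T : IntermediateField E M)
    (f : Fin 5 → Fin 5 → M) (P y : Fin 5 → M) (y5 : M) (hf : ∀ i j, f i j ∈ T)
    (hP : ∀ j, P j ∈ T) (hy : ∀ i, y i ∈ T) (hy5 : y5 ∈ T) (j : Fin 6) : vec f P y y5 j ∈ T := by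
  refine Fin.lastCases ?_ (fun j => ?_) j
  · rw [vec_last]; exact hy5
  · rw [vec_castSucc]
    exact add_mem (sum_mem fun i _ => mul_mem (hy i) (hf i j)) (mul_mem hy5 (hP j))

theorem coeff_zero_aeval {K M : Type*} [Field K] [Field M] [Algebra K M] {n : ℕ}
    (g : Fin n → Polynomial M) (P : MvPolynomial (Fin n) K) :
    (aeval g P : Polynomial M).coeff 0 = aeval (fun i => (g i).coeff 0) P := by
  have : (Polynomial.constantCoeff (R := M)).comp (aeval g : _ →ₐ[K] Polynomial M).toRingHom =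
      (aeval (fun i => (g i).coeff 0) : _ →ₐ[K] M).toRingHom := by
    apply MvPolynomial.ringHom_ext
    · intro a
      simp [Polynomial.algebraMap_apply]
    · intro i
      simp
  exact congrArg (fun φ => φ P) this

theorem aeval_tau {K M N : Type*} [Field K] [Field M] [Algebra K M] [Field N] [Algebra K N]
    [Algebra M N] [IsScalarTower K M N] {n : ℕ}
    (g : Fin n → Polynomial M) (P : MvPolynomial (Fin n) K) (τ : N) :
    Polynomial.aeval τ (aeval g P : Polynomial M) =
      aeval (fun i => Polynomial.aeval τ (g i)) P := by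
  have : ((Polynomial.aeval τ : Polynomial M →ₐ[M] N).toRingHom).comp
      (aeval g : _ →ₐ[K] Polynomial M).toRingHom =
      (aeval (fun i => Polynomial.aeval τ (g i)) : _ →ₐ[K] N).toRingHom := by
    apply MvPolynomial.ringHom_ext
    · intro a
      simp [Polynomial.algebraMap_apply, ← IsScalarTower.algebraMap_apply]
    · intro i
      simp
  exact congrArg (fun φ => φ P) this

theorem exists_nonzero_coord {F K M : Type*} [Field F] [Field K] [Algebra F K] [Field M]
    [Algebra K M] (G : Matrix (Fin 5) (Fin 5) F) (f : Fin 5 → Fin 5 → F) (a : Fin 5 → F)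
    (ha : ∀ i, a i ≠ 0)
    (h : ∀ i j, (∑ p, ∑ q, f i p * G p q * f j q) = if i = j then a i else 0)
    (P : Fin 5 → M) (θ : M) (hθ : IntermediateField.adjoin K {θ} = ⊤)
    (hfin : Module.finrank K M = 4) (S β κ : K) (hκ : κ ≠ 0) (v0 : M)
    (hv0 : v0 = algebraMap K M S + algebraMap K M β * θ + algebraMap K M κ * θ ^ 2) :
    ∃ j : Fin 5, vec (fun i j => algebraMap K M (algebraMap F K (f i j))) P
      ![v0, 1, θ, 0, 0] 0 j.succ ≠ 0 := by
  obtain ⟨j, hj0, hj⟩ := orth_exists G f a ha h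
  obtain ⟨j', hj'⟩ : ∃ j' : Fin 5, j'.succ = j.castSucc := by
    refine ⟨⟨j.1 - 1, by omega⟩, ?_⟩
    have : j.1 ≠ 0 := fun h => hj0 (Fin.ext h)
    ext
    simp
    omega
  refine ⟨j', ?_⟩
  rw [hj', vec_castSucc, Fin.sum_univ_five]
  simp only [Matrix.cons_val_zero, Matrix.cons_val_one, Matrix.cons_val_two,
      Matrix.head_cons, Matrix.tail_cons, Matrix.cons_val_three, Matrix.cons_val_four, zero_mul,
      add_zero, one_mul]
  intro h0
  set x0 := algebraMap F K (f 0 j) with hx0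
  set x1 := algebraMap F K (f 1 j) with hx1
  set x2 := algebraMap F K (f 2 j) with hx2
  obtain ⟨e0, e1, e2⟩ := quad_indep θ hθ hfin (S * x0 + x1) (β * x0 + x2) (κ * x0) (by
    rw [← h0, hv0]
    simp only [map_add, map_mul]
    ring)
  have y0 : x0 = 0 := (mul_eq_zero.mp e2).resolve_left hκ
  rw [y0, mul_zero, zero_add] at e0
  rcases hj with hj | hj
  · exact hj ((map_eq_zero _).mp y0)
  · exact hj ((map_eq_zero _).mp e0)

/-- the algebraic point -/
theorem point_exists {k : Type*} {K : Type u} [Field k] [Field K] [CharZero K] [Algebra k K]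
    (B0 Es : IntermediateField k K) (Et : Fin 5 → IntermediateField k K)
    (hBs : B0 ≤ Es) (hBt : ∀ i, B0 ≤ Et i) (s : K) (t : Fin 5 → K)
    (hs : Transcendental Es s) (hstop : IntermediateField.adjoin Es {s} = ⊤)
    (ht : ∀ i, Transcendental (Et i) (t i))
    (httop : IntermediateField.adjoin (Et 4) {t 4} = ⊤) (hst : ∀ i, s ∈ Et i)
    (Q : MvPolynomial (Fin 6) K) (hQ : Q.IsHomogeneous 2)
    (hQs : coeff (Finsupp.single 5 2) Q = s)
    (hQB : ∀ α, α ≠ Finsupp.single 5 2 → coeff α Q ∈ B0)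
    (hdet : (Matrix.of fun i j : Fin 5 => gram Q i.castSucc j.castSucc).det ≠ 0)
    (D : ℕ) (hD : Odd D) (hD2 : 2 ≤ D)
    (P : MvPolynomial (Fin 6) K) (hP : P.IsHomogeneous D)
    (hPt : ∀ i : Fin 5, coeff (Finsupp.single i.succ D) P = t i)
    (hPE : ∀ i : Fin 5, ∀ α, α ≠ Finsupp.single i.succ D → coeff α P ∈ Et i) :
    ∃ (N : Type u) (_ : Field N) (_ : Algebra K N) (v : Fin 6 → N),
      Module.finrank K N = 4 * D ∧ LinearIndependent K v ∧ aeval v Q = 0 ∧ aeval v P = 0 ∧
      (∀ z : N, ∀ g : K, z ^ 2 = algebraMap K N g → ∃ c : K, z = algebraMap K N c) ∧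
      ∀ W : IntermediateField K N, (∀ i j, v i / v j ∈ W) → W = ⊤ := by
  classical
  -- the Gram matrix
  have h2B : (2 : K) ∈ B0 := by
    exact_mod_cast natCast_mem B0 2
  have hB1 : ∀ i j : Fin 5, gram Q i.castSucc j.castSucc ∈ B0 := by
    intro i j
    unfold gram
    rw [Matrix.of_apply]
    refine mul_mem (hQB _ ?_) ?_
    · intro h
      have h1 := DFunLike.congr_fun h (5 : Fin 6)
      have e1 : (i.castSucc : Fin 6) ≠ 5 := Fin.castSucc_ne_last i
      have e2 : (j.castSucc : Fin 6) ≠ 5 := Fin.castSucc_ne_last j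
      rw [Finsupp.add_apply, Finsupp.single_apply, Finsupp.single_apply, Finsupp.single_apply,
        if_neg e1, if_neg e2, if_pos rfl] at h1
      omega
    · split_ifs
      · exact one_mem _
      · exact div_mem (one_mem _) h2B
  have hB2 : ∀ i : Fin 5, gram Q i.castSucc (Fin.last 5) ∈ B0 := by
    intro i
    unfold gram
    rw [Matrix.of_apply]
    refine mul_mem (hQB _ ?_) ?_
    · intro h
      have h1 := DFunLike.congr_fun h (5 : Fin 6)
      have e1 : (i.castSucc : Fin 6) ≠ 5 := Fin.castSucc_ne_last i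
      have e2 : (Fin.last 5 : Fin 6) = 5 := rfl
      rw [Finsupp.add_apply, Finsupp.single_apply, Finsupp.single_apply, Finsupp.single_apply,
        if_neg e1, if_pos e2, if_pos rfl] at h1
      omega
    · split_ifs
      · exact one_mem _
      · exact div_mem (one_mem _) h2B
  have hB3 : gram Q (Fin.last 5) (Fin.last 5) = s := by
    unfold gram
    rw [Matrix.of_apply, if_pos rfl, mul_one, ← Finsupp.single_add, ← hQs]
    rfl
  set G5 : Matrix (Fin 5) (Fin 5) B0 := Matrix.of fun i j => ⟨_, hB1 i j⟩ with hG5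
  set g : Fin 5 → B0 := fun i => ⟨_, hB2 i⟩ with hg
  have hG5K : ∀ i j, algebraMap B0 K (G5 i j) = gram Q i.castSucc j.castSucc := fun i j => rfl
  have hgK : ∀ i, algebraMap B0 K (g i) = gram Q i.castSucc (Fin.last 5) := fun i => rfl
  have hdet5 : G5.det ≠ 0 := by
    intro h
    apply hdet
    have h1 := congrArg (algebraMap B0 K) h
    rw [RingHom.map_det, map_zero] at h1
    rw [← h1]
    rfl
  have hsymm5 : ∀ i j, G5 i j = G5 j i := by
    intro i j
    apply (algebraMap B0 K).injective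
    rw [hG5K, hG5K, gram_symm]
  obtain ⟨f, a, ha, hκa, horth⟩ := orth_five G5 hsymm5 hdet5
  obtain ⟨P5, hP5⟩ := solve_shift G5 hdet5 g
  obtain ⟨c, hc⟩ : ∃ c : B0, c = ∑ p, g p * P5 p := ⟨_, rfl⟩
  have hfdet := orth_det G5 f a ha horth
  obtain ⟨A, hA⟩ : ∃ A : Fin 5 → K, ∀ i, A i = algebraMap B0 K (a i) :=
    ⟨fun i => algebraMap B0 K (a i), fun i => rfl⟩
  have hA0 : ∀ i, A i ≠ 0 := fun i => by rw [hA]; exact (map_ne_zero _).mpr (ha i)
  have hAB : ∀ i, A i ∈ B0 := fun i => by rw [hA]; exact (a i).2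
  have hκA : A 4 / A 3 ≠ A 2 / A 0 := by
    intro h
    apply hκa
    apply (algebraMap B0 K).injective
    rw [map_div₀, map_div₀, ← hA, ← hA, ← hA, ← hA, h]
  obtain ⟨S, hS⟩ : ∃ S : K, S = (1 + A 4 / A 3 + (s + algebraMap B0 K c) / A 3 - A 1 / A 0) / 2 :=
    ⟨_, rfl⟩
  obtain ⟨κ, hκ⟩ : ∃ κ : K, κ = (A 4 / A 3 - A 2 / A 0) / 2 := ⟨_, rfl⟩
  obtain ⟨β, hβ⟩ : ∃ β : K, β = A 4 / A 3 := ⟨_, rfl⟩
  have hκ0 : κ ≠ 0 := by
    rw [hκ]
    exact div_ne_zero (sub_ne_zero.mpr hκA) two_ne_zero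
  have hcB : algebraMap B0 K c ∈ B0 := c.2
  have hSmem : ∀ i, S ∈ Et i := by
    intro i
    rw [hS]
    have m := fun j => hBt i (hAB j)
    exact div_mem (sub_mem (add_mem (add_mem (one_mem _) (div_mem (m 4) (m 3)))
      (div_mem (add_mem (hst i) (hBt i hcB)) (m 3))) (div_mem (m 1) (m 0))) (hBt i h2B)
  have hκmem : ∀ i, κ ∈ Et i := by
    intro i
    rw [hκ]
    have m := fun j => hBt i (hAB j)
    exact div_mem (sub_mem (div_mem (m 4) (m 3)) (div_mem (m 2) (m 0))) (hBt i h2B)
  have hβmem : ∀ i, β ∈ Et i := by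
    intro i
    rw [hβ]
    have m := fun j => hBt i (hAB j)
    exact div_mem (m 4) (m 3)
  obtain ⟨M, iM, iKM, θ, hθ, hfin, hv0, hsq⟩ := level_one (F := Es) (K := K) s hs hstop
    (fun i => ⟨A i, hBs (hAB i)⟩) (fun i h => hA0 i (congrArg Subtype.val h))
    ⟨algebraMap B0 K c, hBs hcB⟩ (fun h => hκA (congrArg Subtype.val h)) A (fun i => rfl) S κ β
    hS hβ hκ
  obtain ⟨v0, hv0e⟩ : ∃ v0 : M, v0 = algebraMap K M S + algebraMap K M β * θ +
    algebraMap K M κ * θ ^ 2 := ⟨_, rfl⟩
  obtain ⟨hχ, hψ⟩ := hv0 v0 hv0e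
  have hψ' : algebraMap K M (A 3) * (v0 - 1) ^ 2 + algebraMap K M (A 4) * (θ + 1) ^ 2 +
      algebraMap K M (s + algebraMap B0 K c) = 0 := hψ
  have hθE : ∀ i, IsIntegral (Et i) θ := by
    intro i
    have m := fun j => hBt i (hAB j)
    exact theta_integral (Et i) (A 0) (A 1) (A 2) S β κ (m 0) (m 1) (m 2) (hSmem i) (hβmem i)
      (hκmem i) (hA0 0) hκ0 θ (by rw [← hv0e]; exact hχ)
  -- the two spanning vectors
  set fM : Fin 5 → Fin 5 → M := fun i j => algebraMap K M (algebraMap B0 K (f i j)) with hfM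
  set PM : Fin 5 → M := fun j => algebraMap K M (algebraMap B0 K (P5 j)) with hPM
  set uu : Fin 6 → M := vec fM PM ![v0, 1, θ, 0, 0] 0 with huu
  set ww : Fin 6 → M := vec fM PM ![0, 0, 0, v0 - 1, θ + 1] 1 with hww
  have hθm : ∀ i, θ ∈ IntermediateField.adjoin (Et i) {θ} := fun i =>
    IntermediateField.mem_adjoin_simple_self _ _
  have hv0m : ∀ i, v0 ∈ IntermediateField.adjoin (Et i) {θ} := by
    intro i
    rw [hv0e]
    exact add_mem (add_mem (algMap_mem _ _ _ (hSmem i)) (mul_mem (algMap_mem _ _ _ (hβmem i))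
      (hθm i))) (mul_mem (algMap_mem _ _ _ (hκmem i)) (pow_mem (hθm i) 2))
  have hfMm : ∀ l i j, fM i j ∈ IntermediateField.adjoin (Et l) {θ} := fun l i j =>
    algMap_mem _ _ _ (hBt l (f i j).2)
  have hPMm : ∀ l j, PM j ∈ IntermediateField.adjoin (Et l) {θ} := fun l j =>
    algMap_mem _ _ _ (hBt l (P5 j).2)
  have huum : ∀ l j, uu j ∈ IntermediateField.adjoin (Et l) {θ} := by
    intro l j
    refine vec_mem _ fM PM _ _ (hfMm l) (hPMm l) (fun i => ?_) (zero_mem _) j
    fin_cases i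
    · exact hv0m l
    · exact one_mem _
    · exact hθm l
    · exact zero_mem _
    · exact zero_mem _
  have hwwm : ∀ l j, ww j ∈ IntermediateField.adjoin (Et l) {θ} := by
    intro l j
    refine vec_mem _ fM PM _ _ (hfMm l) (hPMm l) (fun i => ?_) (one_mem _) j
    fin_cases i
    · exact zero_mem _
    · exact zero_mem _
    · exact zero_mem _
    · exact sub_mem (hv0m l) (one_mem _)
    · exact add_mem (hθm l) (one_mem _)
  have huu5 : uu 5 = 0 := vec_last fM PM _ _
  have hww5 : ww 5 = 1 := vec_last fM PM _ _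
  obtain ⟨j0, hj0⟩ := exists_nonzero_coord (M := M) G5 f a ha horth PM θ hθ hfin S β κ hκ0 v0 hv0e
  have hPuu : aeval uu P ≠ 0 :=
    form_ne (Et j0) (t j0) (ht j0) θ (hθE j0) P D j0.succ (hPt j0) (hPE j0) uu (huum j0) hj0
  -- the second extension
  have hP4 : coeff (Finsupp.single 5 D) P = t 4 := hPt 4
  have hPE4 : ∀ α, α ≠ Finsupp.single 5 D → coeff α P ∈ Et 4 := hPE 4
  set F0 : MvPolynomial (Fin 6) K := P - monomial (Finsupp.single 5 D) (t 4) with hF0
  have hF0h : F0.IsHomogeneous D :=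
    hP.sub (isHomogeneous_monomial _ (by rw [Finsupp.degree_single]))
  have hF0m : ∀ d, coeff d F0 ∈ Et 4 := by
    intro d
    rw [hF0, coeff_sub, coeff_monomial]
    split_ifs with hd
    · rw [← hd, hP4, sub_self]; exact zero_mem _
    · rw [sub_zero]; exact hPE4 d (Ne.symm hd)
  set gg : Fin 6 → Polynomial M := fun i => Polynomial.C (uu i) + Polynomial.C (ww i) * Polynomial.X
    with hgg
  have hggm : ∀ i m, (gg i).coeff m ∈ IntermediateField.adjoin (Et 4) {θ} := by
    intro i m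
    simp only [hgg, Polynomial.coeff_add, Polynomial.coeff_C_mul, Polynomial.coeff_C,
      Polynomial.coeff_X]
    refine add_mem ?_ (mul_mem (hwwm 4 i) ?_)
    · split_ifs
      · exact huum 4 i
      · exact zero_mem _
    · split_ifs
      · exact one_mem _
      · exact zero_mem _
  have hggd : ∀ i, (gg i).natDegree ≤ 1 := by
    intro i
    simp only [hgg]
    compute_degree
  set G0 : Polynomial M := aeval gg F0 with hG0
  have hG0m : ∀ n, G0.coeff n ∈ IntermediateField.adjoin (Et 4) {θ} := fun n =>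
    aeval_poly_mem (Et 4) _ F0 hF0m gg hggm n
  have hG0d : G0.natDegree ≤ D := natDegree_aeval_le gg hggd F0 D hF0h
  have hD0 : D ≠ 0 := by omega
  have hG00 : G0.coeff 0 ≠ 0 := by
    rw [hG0, coeff_zero_aeval]
    have : (fun i => (gg i).coeff 0) = uu := by
      funext i
      simp [hgg]
    rw [this, hF0, map_sub, aeval_monomial, Finsupp.prod_single_index (by simp), huu5,
      zero_pow hD0, mul_zero, sub_zero]
    exact hPuu
  obtain ⟨N, iN, iKN, iMN, iT, τ, hτ, hND, hroot, hsqN⟩ := level_two (Et 4) (t 4) (ht 4) httop θ hθ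
    (hθE 4) D hD G0 hG0m hG00 hG0d hsq
  have hN2 : 2 ≤ Module.finrank M N := by rw [hND]; exact hD2
  set fN : Fin 5 → Fin 5 → N := fun i j => algebraMap K N (algebraMap B0 K (f i j)) with hfN
  set PN : Fin 5 → N := fun j => algebraMap K N (algebraMap B0 K (P5 j)) with hPN
  set y : Fin 5 → N := ![algebraMap M N v0, 1, algebraMap M N θ,
      τ * algebraMap M N (v0 - 1), τ * algebraMap M N (θ + 1)] with hy
  have hLI : LinearIndependent K (vec fN PN y τ) :=
    final_indep f P5 hfdet θ hθ hfin S β κ hκ0 v0 hv0e τ hτ hN2 fN PN (fun _ _ => rfl)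
      (fun _ => rfl)
  have hτ0 : τ ≠ 0 := by
    have := hLI.ne_zero (Fin.last 5)
    rwa [vec_last] at this
  have hsplit : ∀ j, vec fN PN y τ j = algebraMap M N (uu j) + τ * algebraMap M N (ww j) := by
    intro j
    rw [huu, hww, vec_map, vec_map, map_zero, map_one]
    have e1 : (fun i j => algebraMap M N (fM i j)) = fN := by
      funext i j
      simp only [hfM, hfN]
      rw [← IsScalarTower.algebraMap_apply]
    have e2 : (fun j => algebraMap M N (PM j)) = PN := by
      funext j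
      simp only [hPM, hPN]
      rw [← IsScalarTower.algebraMap_apply]
    rw [e1, e2, ← vec_add]
    congr 1
    · funext i
      fin_cases i <;> simp [hy]
    · ring
  have hKMN : ∀ x : K, algebraMap K N x = algebraMap M N (algebraMap K M x) :=
    fun x => IsScalarTower.algebraMap_apply K M N x
  refine ⟨N, iN, iKN, vec fN PN y τ, ?_, hLI, ?_, ?_, hsqN, ?_⟩
  · rw [← Module.finrank_mul_finrank K M N, hfin, hND]
  · rw [quad_aeval Q hQ]
    have h1 := eval_six (fun i j => algebraMap K N (gram Q i j))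
      (fun i j => by rw [gram_symm]) fN (fun i => algebraMap K N (A i)) PN (by
        intro i j
        have h1 := congrArg (fun x => algebraMap K N (algebraMap B0 K x)) (horth i j)
        simp only [map_sum, map_mul, hG5K] at h1
        rw [h1, hA]
        split_ifs <;> simp) (by
        intro q
        have h1 := congrArg (fun x => algebraMap K N (algebraMap B0 K x)) (hP5 q)
        simp only [map_sum, map_mul, map_neg, hG5K, hgK] at h1
        exact h1) y τ
    rw [h1]
    have h2 : algebraMap K N (gram Q (Fin.last 5) (Fin.last 5)) +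
        ∑ p, algebraMap K N (gram Q (Fin.castSucc p) (Fin.last 5)) * PN p =
        algebraMap M N (algebraMap K M (s + algebraMap B0 K c)) := by
      rw [← hKMN, hB3, hc]
      simp only [map_add, map_sum, map_mul, hgK, hPN]
    rw [h2, Fin.sum_univ_five]
    simp only [hy, Matrix.cons_val_zero, Matrix.cons_val_one, Matrix.cons_val_two,
      Matrix.head_cons, Matrix.tail_cons, Matrix.cons_val_three, Matrix.cons_val_four, hKMN]
    have h3 := congrArg (algebraMap M N) hχ
    have h4 := congrArg (algebraMap M N) hψ'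
    simp only [map_add, map_mul, map_pow, map_sub, map_one, map_zero] at h3 h4 ⊢
    linear_combination h3 + τ ^ 2 * h4
  · have h1 : aeval (vec fN PN y τ) P = aeval (vec fN PN y τ) F0 +
        algebraMap K N (t 4) * τ ^ D := by
      have h2 : (vec fN PN y τ) 5 = τ := vec_last fN PN y τ
      rw [hF0, map_sub, aeval_monomial, Finsupp.prod_single_index (by simp), h2, sub_add_cancel]
    have h3 : aeval (vec fN PN y τ) F0 = Polynomial.aeval τ G0 := by
      rw [hG0, aeval_tau]
      congr 1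
      congr 1
      funext j
      rw [hsplit]
      simp only [hgg, map_add, map_mul, Polynomial.aeval_X, Polynomial.aeval_C]
      ring
    rw [h1, h3, ← hroot]
    simp only [map_add, map_mul, map_pow, Polynomial.aeval_X, Polynomial.aeval_C, ← hKMN]
  · intro W hW
    exact final_gen f P5 hfdet θ hθ τ hτ hτ0 y (by simp [hy]) (by simp [hy]) fN PN
      (fun _ _ => rfl) (fun _ => rfl) W hW

end Pool.Agent.H74.LowDeg
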