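import Mathlib
import Pool.Agent.H74.LowDeg.Noeth

namespace Pool.Agent.H74.LowDeg

open MvPolynomial

variable {K : Type*} [Field K] {n : ℕ}

theorem fin_gen {R B ι : Type*} [CommRing R] [CommRing B] [Algebra R B]
    (hfin : Module.Finite R B) (w : ι → B)
    (hw : ∀ b : B, ∃ (s : Finset ι) (c : ι → R), b = ∑ d ∈ s, algebraMap R B (c d) * w d) :
    ∃ W : Finset ι, ∀ b : B, ∃ c : ι → R, b = ∑ d ∈ W, algebraMap R B (c d) * w d := by
  classical
  have htop : Submodule.span R (w '' Set.univ) = ⊤ := by
    rw [eq_top_iff]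
    rintro b -
    obtain ⟨s, c, rfl⟩ := hw b
    refine Submodule.sum_mem _ fun d _ => ?_
    rw [← Algebra.smul_def]
    exact Submodule.smul_mem _ _ (Submodule.subset_span ⟨d, trivial, rfl⟩)
  have hfg : (Submodule.span R (w '' Set.univ)).FG := by
    rw [htop]; exact Module.Finite.fg_top
  obtain ⟨s', hs', hspan⟩ := (Submodule.fg_span_iff_fg_span_finset_subset _).mp hfg
  obtain ⟨W, -, hW⟩ := Finset.subset_set_image_iff.mp hs'
  refine ⟨W, fun b => ?_⟩
  have hF : b ∈ Submodule.span R (w '' ↑W) := by
    have : (w '' ↑W : Set _) = ↑s' := by rw [← hW]; simp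
    rw [this, ← hspan, htop]
    trivial
  rw [Submodule.mem_span_image_finset_iff_exists_fun] at hF
  obtain ⟨c, hc⟩ := hF
  refine ⟨fun d => if h : d ∈ W then c ⟨d, h⟩ else 0, ?_⟩
  rw [← hc, ← Finset.sum_coe_sort W]
  refine Finset.sum_congr rfl fun d _ => ?_
  simp only [Algebra.smul_def, dif_pos d.2, Subtype.coe_eta]

/-- finitely many monomials generate `B` as a module over the polynomial ring in `y` -/
theorem finite_monomials (I : Ideal (MvPolynomial (Fin n) K))
    (y : Fin 2 → MvPolynomial (Fin n) K)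
    (hint : (phi I y).toRingHom.IsIntegral) :
    ∃ W : Finset (Fin n →₀ ℕ), ∀ F : MvPolynomial (Fin n) K,
      ∃ c : (Fin n →₀ ℕ) → MvPolynomial (Fin 2) K,
        F - ∑ d ∈ W, aeval y (c d) * monomial d 1 ∈ I := by
  classical
  have hft : (phi I y).toRingHom.FiniteType := by
    apply RingHom.FiniteType.of_comp_finiteType (f := algebraMap K (MvPolynomial (Fin 2) K))
    have : (phi I y).toRingHom.comp (algebraMap K (MvPolynomial (Fin 2) K)) =
        algebraMap K (MvPolynomial (Fin n) K ⧸ I) := by
      ext a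
      exact (phi I y).commutes a
    rw [this, RingHom.finiteType_algebraMap]
    infer_instance
  have hfin := hint.to_finite hft
  obtain ⟨W, hW⟩ := @fin_gen (MvPolynomial (Fin 2) K) (MvPolynomial (Fin n) K ⧸ I)
    (Fin n →₀ ℕ) _ _ (phi I y).toRingHom.toAlgebra hfin
    (fun d => Ideal.Quotient.mk I (monomial d 1)) (by
      intro b
      obtain ⟨F, rfl⟩ := Ideal.Quotient.mk_surjective b
      refine ⟨F.support, fun d => C (coeff d F), ?_⟩
      conv_lhs => rw [F.as_sum]
      rw [map_sum]
      refine Finset.sum_congr rfl fun d _ => ?_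
      change _ = phi I y (C (coeff d F)) * _
      rw [phi_apply, aeval_C, ← map_mul, MvPolynomial.algebraMap_eq, C_mul_monomial, mul_one])
  refine ⟨W, fun F => ?_⟩
  obtain ⟨c, hc⟩ := hW (Ideal.Quotient.mk I F)
  refine ⟨c, ?_⟩
  rw [← Ideal.Quotient.eq_zero_iff_mem, map_sub, map_sum, hc, sub_eq_zero]
  refine Finset.sum_congr rfl fun d _ => ?_
  change phi I y (c d) * _ = _
  rw [phi_apply, ← map_mul]

theorem hilb_upper (I : Ideal (MvPolynomial (Fin n) K))
    (hhom : ∀ f ∈ I, ∀ m, homogeneousComponent m f ∈ I)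
    (y : Fin 2 → MvPolynomial (Fin n) K) (hy : ∀ i, (y i).IsHomogeneous 1)
    (hint : (phi I y).toRingHom.IsIntegral) :
    ∃ C : ℕ, ∀ m, hilb I m ≤ C * (m + 1) := by
  classical
  obtain ⟨W, hW⟩ := finite_monomials I y hint
  refine ⟨W.card, fun m => ?_⟩
  set b : W × Fin (m + 1) → MvPolynomial (Fin n) K ⧸ I := fun p =>
    Ideal.Quotient.mk I (y 0 ^ (p.2 : ℕ) * y 1 ^ (m - p.1.1.degree - p.2) * monomial p.1.1 1)
    with hb
  have hle : (homogeneousSubmodule (Fin n) K m).map (Ideal.Quotient.mkₐ K I).toLinearMap ≤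
      Submodule.span K (Set.range b) := by
    rintro _ ⟨F, hF, rfl⟩
    have hF' : F.IsHomogeneous m := hF
    obtain ⟨c, hc⟩ := hW F
    have h1 := hhom _ hc m
    rw [map_sub, map_sum, homogeneousComponent_of_mem hF, if_pos rfl] at h1
    have h2 : Ideal.Quotient.mk I F = ∑ d ∈ W, Ideal.Quotient.mk I
        (homogeneousComponent m (aeval y (c d) * monomial d 1)) := by
      rw [← map_sum, ← sub_eq_zero, ← map_sub, Ideal.Quotient.eq_zero_iff_mem]
      exact h1
    change Ideal.Quotient.mk I F ∈ _
    rw [h2]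
    refine Submodule.sum_mem _ fun d hd => ?_
    rw [hc_aeval_mul y hy (c d) (monomial d 1) d.degree (isHomogeneous_monomial _ rfl)]
    split_ifs with hdm
    · set G := homogeneousComponent (m - d.degree) (c d) with hG
      have hGh : G.IsHomogeneous (m - d.degree) := homogeneousComponent_isHomogeneous _ _
      rw [G.as_sum, map_sum, Finset.sum_mul, map_sum]
      refine Submodule.sum_mem _ fun e he => ?_
      have hed : e 0 + e 1 = m - d.degree := by
        have := hGh (mem_support_iff.mp he)
        rw [← this]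
        simp [Finsupp.weight_apply, Finsupp.sum_fintype]
      have h3 : Ideal.Quotient.mk I (aeval y (monomial e (coeff e G)) * monomial d 1) =
          coeff e G • b (⟨d, hd⟩, ⟨e 0, by omega⟩) := by
        simp only [hb]
        rw [← Ideal.Quotient.mkₐ_eq_mk K I, ← map_smul, Algebra.smul_def]
        congr 1
        rw [← mul_assoc, aeval_monomial, Finsupp.prod_fintype _ _ (by simp), Fin.prod_univ_two]
        have : m - d.degree - e 0 = e 1 := by omega
        rw [this]
      rw [h3]
      exact Submodule.smul_mem _ _ (Submodule.subset_span ⟨_, rfl⟩)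
    · rw [map_zero]
      exact Submodule.zero_mem _
  have hfin : Module.Finite K (Submodule.span K (Set.range b)) :=
    FiniteDimensional.span_of_finite K (Set.finite_range b)
  have h1 := Submodule.finrank_mono hle
  have h2 := finrank_range_le_card (R := K) b
  rw [Fintype.card_prod, Fintype.card_coe, Fintype.card_fin] at h2
  exact h1.trans h2

end Pool.Agent.H74.LowDeg
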