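import Mathlib
import Pool.Agent.H74.LowDeg.Upper

namespace Pool.Agent.H74.LowDeg

open MvPolynomial

section relations

theorem monic_of_relation {R B : Type*} [CommRing R] [IsDomain R] [IsIntegrallyClosed R]
    [CommRing B] [IsDomain B] (φ : R →+* B) (hφ : Function.Injective φ) (l : B)
    (hl : φ.IsIntegralElem l) (P : Polynomial R) (hP : P ≠ 0) (hPl : P.eval₂ φ l = 0) :
    ∃ P' : Polynomial R, P'.Monic ∧ P'.natDegree ≤ P.natDegree ∧ 0 < P'.natDegree ∧
      P'.eval₂ φ l = 0 := by
  let := φ.toAlgebra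
  have : FaithfulSMul R B := (faithfulSMul_iff_algebraMap_injective R B).mpr hφ
  have h0 : Module.IsTorsionFree R B := inferInstance
  have hint : IsIntegral R l := hl
  have h1 := minpoly.IsIntegrallyClosed.degree_le_of_ne_zero hP (s := l) hPl
  exact ⟨minpoly R l, minpoly.monic hint, Polynomial.natDegree_le_natDegree h1,
    minpoly.natDegree_pos hint, minpoly.aeval R l⟩

theorem lin_of_relation {R B : Type*} [CommRing R] [IsDomain R] [IsIntegrallyClosed R]
    [CommRing B] [IsDomain B] (φ : R →+* B) (hφ : Function.Injective φ) (l : B)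
    (hl : φ.IsIntegralElem l) (q p : R) (hq : q ≠ 0) (h : φ q * l = φ p) :
    ∃ a : R, l = φ a := by
  obtain ⟨P', hm, hd, hp, he⟩ := monic_of_relation φ hφ l hl
    (Polynomial.C q * Polynomial.X - Polynomial.C p) (by
      intro h0
      have := congrArg (fun f => Polynomial.coeff f 1) h0
      simp [Polynomial.coeff_C] at this
      exact hq this) (by simp [h])
  have h1 : (Polynomial.C q * Polynomial.X - Polynomial.C p).natDegree ≤ 1 := by
    compute_degree
  have h2 : P'.natDegree = 1 := by omega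
  have h3 := hm.eq_X_add_C h2
  refine ⟨- P'.coeff 0, ?_⟩
  rw [h3] at he
  simp at he
  rw [map_neg]
  linear_combination he

theorem quad_of_relation {R B : Type*} [CommRing R] [IsDomain R] [IsIntegrallyClosed R]
    [CommRing B] [IsDomain B] (φ : R →+* B) (hφ : Function.Injective φ) (l : B)
    (hl : φ.IsIntegralElem l) (f : Fin 3 → R) (hf : f ≠ 0) (y : R) (hy : y ≠ 0)
    (h : φ (f 0 * y) * φ y + φ (f 1 * y) * l + φ (f 2) * l ^ 2 = 0) :
    ∃ a b : R, l ^ 2 + φ a * l + φ b = 0 := by
  obtain ⟨P', hm, hd, hp, he⟩ := monic_of_relation φ hφ l hl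
    (Polynomial.C (f 0 * y * y) + Polynomial.C (f 1 * y) * Polynomial.X +
      Polynomial.C (f 2) * Polynomial.X ^ 2) (by
      intro h0
      apply hf
      have c0 := congrArg (fun f => Polynomial.coeff f 0) h0
      have c1 := congrArg (fun f => Polynomial.coeff f 1) h0
      have c2 := congrArg (fun f => Polynomial.coeff f 2) h0
      simp [Polynomial.coeff_X, Polynomial.coeff_X_pow, hy] at c0 c1 c2
      funext i
      fin_cases i <;> simp_all) (by
        simp only [Polynomial.eval₂_add, Polynomial.eval₂_mul, Polynomial.eval₂_C,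
          Polynomial.eval₂_X, Polynomial.eval₂_pow]
        rw [map_mul]; exact h)
  have h1 : (Polynomial.C (f 0 * y * y) + Polynomial.C (f 1 * y) * Polynomial.X +
      Polynomial.C (f 2) * Polynomial.X ^ 2).natDegree ≤ 2 := by
    compute_degree
  have h2 : P'.natDegree = 1 ∨ P'.natDegree = 2 := by omega
  rcases h2 with h2 | h2
  · have h3 := hm.eq_X_add_C h2
    rw [h3] at he
    simp at he
    refine ⟨P'.coeff 0, 0, ?_⟩
    rw [map_zero]
    linear_combination l * he
  · have h3 := Polynomial.eq_quadratic_of_degree_le_two (p := P') (by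
      rw [Polynomial.degree_eq_natDegree hm.ne_zero, h2]; norm_num)
    have h4 : P'.coeff 2 = 1 := by
      have := hm.coeff_natDegree
      rwa [h2] at this
    rw [h3, h4] at he
    simp at he
    exact ⟨P'.coeff 1, P'.coeff 0, he⟩

end relations

section linear

variable {K M : Type*} [Field K] [Field M] [Algebra K M] {n : ℕ}

theorem lin_inj (v : Fin n → M) (hv : LinearIndependent K v) (L : MvPolynomial (Fin n) K)
    (hL : L.IsHomogeneous 1) (h0 : aeval v L = 0) : L = 0 := by
  have h1 : L ∈ homogeneousSubmodule (Fin n) K 1 := hL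
  rw [homogeneousSubmodule_one_eq_span_X, Submodule.mem_span_range_iff_exists_fun] at h1
  obtain ⟨c, rfl⟩ := h1
  rw [map_sum] at h0
  simp only [map_smul, aeval_X] at h0
  have h2 := Fintype.linearIndependent_iff.mp hv c h0
  exact Finset.sum_eq_zero fun i _ => by rw [h2 i, zero_smul]

theorem aeval_mem_span {r : ℕ} (y : Fin r → MvPolynomial (Fin n) K) (A : MvPolynomial (Fin r) K)
    (hA : A.IsHomogeneous 1) : aeval y A ∈ Submodule.span K (Set.range y) := by
  have h1 : A ∈ homogeneousSubmodule (Fin r) K 1 := hA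
  rw [homogeneousSubmodule_one_eq_span_X, Submodule.mem_span_range_iff_exists_fun] at h1
  obtain ⟨c, rfl⟩ := h1
  rw [map_sum]
  refine Submodule.sum_mem _ fun i _ => ?_
  rw [map_smul, aeval_X]
  exact Submodule.smul_mem _ _ (Submodule.subset_span ⟨i, rfl⟩)

theorem exists_X_notMem (hn : 5 ≤ n) (u : Fin 4 → MvPolynomial (Fin n) K) :
    ∃ i, (X i : MvPolynomial (Fin n) K) ∉ Submodule.span K (Set.range u) := by
  by_contra hcon
  push Not at hcon
  have hli : LinearIndependent K (X : Fin n → MvPolynomial (Fin n) K) :=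
    linearIndependent_X (Fin n) K
  have h1 : Submodule.span K (Set.range (X : Fin n → MvPolynomial (Fin n) K)) ≤
      Submodule.span K (Set.range u) := by
    rw [Submodule.span_le]
    rintro _ ⟨i, rfl⟩
    exact hcon i
  have hfin : Module.Finite K (Submodule.span K (Set.range u)) :=
    FiniteDimensional.span_of_finite K (Set.finite_range u)
  have h2 := Submodule.finrank_mono h1
  rw [finrank_span_eq_card hli, Fintype.card_fin] at h2
  have h3 := finrank_range_le_card (R := K) u
  rw [Fintype.card_fin] at h3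
  have h4 : Module.finrank K (Submodule.span K (Set.range u)) ≤ 4 := h3
  omega

end linear

section three

variable {K M : Type*} [Field K] [CharZero K] [Field M] [Algebra K M] {n : ℕ}

omit [CharZero K] in
theorem mk_eq_phi (p : Ideal (MvPolynomial (Fin n) K)) {r : ℕ}
    (y : Fin r → MvPolynomial (Fin n) K) (c : MvPolynomial (Fin r) K) :
    (phi p y).toRingHom c = Ideal.Quotient.mk p (aeval y c) := phi_apply p y c

omit [CharZero K] in
theorem mem_of_mul_linear (v : Fin n → M) (hv : LinearIndependent K v)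
    (p : Ideal (MvPolynomial (Fin n) K)) [p.IsPrime]
    (hhom : ∀ f ∈ p, ∀ m, homogeneousComponent m f ∈ p)
    (hpv : ∀ f ∈ p, ∀ d, f.IsHomogeneous d → aeval v f = 0) {r : ℕ}
    (y : Fin r → MvPolynomial (Fin n) K) (hy : ∀ i, (y i).IsHomogeneous 1)
    (hint : (phi p y).toRingHom.IsIntegral) (hinj : Function.Injective (phi p y).toRingHom)
    (L : MvPolynomial (Fin n) K) (hL : L.IsHomogeneous 1) (Q P : MvPolynomial (Fin r) K)
    (hQ : Q ≠ 0) (h : aeval y Q * L - aeval y P ∈ p) :
    L ∈ Submodule.span K (Set.range y) := by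
  obtain ⟨a, ha⟩ := lin_of_relation (phi p y).toRingHom hinj (Ideal.Quotient.mk p L) (hint _) Q P
    hQ (by
      rw [mk_eq_phi, mk_eq_phi, ← map_mul, ← sub_eq_zero, ← map_sub,
        Ideal.Quotient.eq_zero_iff_mem]
      exact h)
  rw [mk_eq_phi, ← sub_eq_zero, ← map_sub, Ideal.Quotient.eq_zero_iff_mem] at ha
  have h1 := hhom _ ha 1
  rw [map_sub, homogeneousComponent_of_mem ((mem_homogeneousSubmodule _ _).mpr hL), if_pos rfl,
    hc_aeval y hy] at h1
  have h2 : (homogeneousComponent 1 a).IsHomogeneous 1 := homogeneousComponent_isHomogeneous 1 a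
  have h3 : (aeval y (homogeneousComponent 1 a)).IsHomogeneous 1 := by
    have := h2.aeval y hy
    simpa using this
  have h4 := lin_inj v hv _ (hL.sub h3) (hpv _ h1 1 (hL.sub h3))
  rw [sub_eq_zero] at h4
  rw [h4]
  exact aeval_mem_span y _ h2

theorem exists_square (p : Ideal (MvPolynomial (Fin n) K)) [p.IsPrime]
    (hhom : ∀ f ∈ p, ∀ m, homogeneousComponent m f ∈ p)
    (y : Fin 3 → MvPolynomial (Fin n) K) (hy : ∀ i, (y i).IsHomogeneous 1)
    (hint : (phi p y).toRingHom.IsIntegral) (hinj : Function.Injective (phi p y).toRingHom)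
    (hct : ∀ b : Fin 3 → MvPolynomial (Fin n) K, (∀ i, (b i).IsHomogeneous 2) →
      ∃ f : Fin 3 → MvPolynomial (Fin 3) K, f ≠ 0 ∧ (∑ i, aeval y (f i) * b i) ∈ p)
    (L : MvPolynomial (Fin n) K) (hL : L.IsHomogeneous 1) :
    ∃ A D : MvPolynomial (Fin 3) K, A.IsHomogeneous 1 ∧ D.IsHomogeneous 2 ∧
      (L + aeval y A) ^ 2 - aeval y D ∈ p := by
  obtain ⟨f, hf, hfp⟩ := hct ![y 0 ^ 2, y 0 * L, L ^ 2] (by
    intro i
    fin_cases i
    · simpa using (hy 0).pow 2
    · simpa using (hy 0).mul hL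
    · simpa using hL.pow 2)
  rw [Fin.sum_univ_three] at hfp
  simp only [Matrix.cons_val_zero, Matrix.cons_val_one, Matrix.cons_val_two, Matrix.head_cons,
    Matrix.tail_cons] at hfp
  obtain ⟨a, b, hab⟩ := quad_of_relation (phi p y).toRingHom hinj (Ideal.Quotient.mk p L) (hint _)
    f hf (X 0) (X_ne_zero 0) (by
      have h0 := Ideal.Quotient.eq_zero_iff_mem.mpr hfp
      simp only [mk_eq_phi, map_mul, map_add, map_pow, aeval_X] at h0 ⊢
      linear_combination h0)
  rw [mk_eq_phi, mk_eq_phi, ← map_pow, ← map_mul, ← map_add, ← map_add,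
    Ideal.Quotient.eq_zero_iff_mem] at hab
  have h1 := hhom _ hab 2
  have hL2 : (L ^ 2).IsHomogeneous 2 := by simpa using hL.pow 2
  rw [map_add, map_add, homogeneousComponent_of_mem ((mem_homogeneousSubmodule _ _).mpr hL2),
    if_pos rfl, hc_aeval y hy, hc_aeval_mul y hy _ _ 1 hL, if_pos (by norm_num)] at h1
  have ha1 : (homogeneousComponent 1 a).IsHomogeneous 1 := homogeneousComponent_isHomogeneous 1 a
  have hb2 : (homogeneousComponent 2 b).IsHomogeneous 2 := homogeneousComponent_isHomogeneous 2 b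
  have hA : (C (1 / 2 : K) * homogeneousComponent 1 a).IsHomogeneous 1 := ha1.C_mul _
  refine ⟨C (1 / 2) * homogeneousComponent 1 a,
    (C (1 / 2) * homogeneousComponent 1 a) ^ 2 - homogeneousComponent 2 b, hA, ?_, ?_⟩
  · have := hA.pow 2
    exact (by simpa using this : IsHomogeneous _ 2).sub hb2
  · convert h1 using 1
    have h2 : (algebraMap K (MvPolynomial (Fin n) K) (1 / 2)) * 2 = 1 := by
      rw [← map_ofNat (algebraMap K (MvPolynomial (Fin n) K)) 2, ← map_mul]
      norm_num
    simp only [map_mul, map_sub, map_pow, aeval_C]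
    linear_combination (L * aeval y (homogeneousComponent 1 a)) * h2

theorem no_three (hn : 5 ≤ n) (v : Fin n → M) (hv : LinearIndependent K v)
    (hsq : ∀ z : M, (∃ c : K, z ^ 2 = algebraMap K M c) → ∃ c : K, z = algebraMap K M c)
    (p : Ideal (MvPolynomial (Fin n) K)) [p.IsPrime]
    (hhom : ∀ f ∈ p, ∀ m, homogeneousComponent m f ∈ p)
    (hpv : ∀ f ∈ p, ∀ d, f.IsHomogeneous d → aeval v f = 0)
    (y : Fin 3 → MvPolynomial (Fin n) K) (hy : ∀ i, (y i).IsHomogeneous 1)
    (hint : (phi p y).toRingHom.IsIntegral) (hinj : Function.Injective (phi p y).toRingHom)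
    (hct : ∀ b : Fin 3 → MvPolynomial (Fin n) K, (∀ i, (b i).IsHomogeneous 2) →
      ∃ f : Fin 3 → MvPolynomial (Fin 3) K, f ≠ 0 ∧ (∑ i, aeval y (f i) * b i) ∈ p) : False := by
  classical
  have hinj' : ∀ c : MvPolynomial (Fin 3) K, aeval y c ∈ p → c = 0 := by
    intro c hc
    apply hinj
    rw [mk_eq_phi, map_zero, Ideal.Quotient.eq_zero_iff_mem]
    exact hc
  have hlin : ∀ (L : MvPolynomial (Fin n) K), L.IsHomogeneous 1 → ∀ Q P : MvPolynomial (Fin 3) K,
      Q ≠ 0 → aeval y Q * L - aeval y P ∈ p → L ∈ Submodule.span K (Set.range y) :=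
    fun L hL Q P hQ h => mem_of_mul_linear v hv p hhom hpv y hy hint hinj L hL Q P hQ h
  have hAh : ∀ A : MvPolynomial (Fin 3) K, A.IsHomogeneous 1 → (aeval y A).IsHomogeneous 1 := by
    intro A hA
    simpa using hA.aeval y hy
  -- the first form
  obtain ⟨i, hi⟩ := exists_X_notMem hn (Fin.snoc y 0 : Fin 4 → MvPolynomial (Fin n) K)
  obtain ⟨A, D, hA, hD, hAD⟩ := exists_square p hhom y hy hint hinj hct (X i) (isHomogeneous_X K i)
  set l : MvPolynomial (Fin n) K := X i + aeval y A with hl
  have hl1 : l.IsHomogeneous 1 := (isHomogeneous_X K i).add (hAh A hA)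
  have hsub0 : Submodule.span K (Set.range y) ≤
      Submodule.span K (Set.range (Fin.snoc y 0 : Fin 4 → MvPolynomial (Fin n) K)) := by
    apply Submodule.span_mono
    rintro _ ⟨j, rfl⟩
    exact ⟨j.castSucc, by simp⟩
  have hl2 : l ∉ Submodule.span K (Set.range y) := by
    intro h
    apply hi
    apply hsub0
    have := Submodule.sub_mem _ h (aeval_mem_span y A hA)
    simpa [hl] using this
  -- the second form
  obtain ⟨j, hj⟩ := exists_X_notMem hn (Fin.snoc y l : Fin 4 → MvPolynomial (Fin n) K)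
  obtain ⟨A', D', hA', hD', hAD'⟩ :=
    exists_square p hhom y hy hint hinj hct (X j) (isHomogeneous_X K j)
  set l' : MvPolynomial (Fin n) K := X j + aeval y A' with hl'
  have hl'1 : l'.IsHomogeneous 1 := (isHomogeneous_X K j).add (hAh A' hA')
  have hsub1 : Submodule.span K (Set.range y) ≤
      Submodule.span K (Set.range (Fin.snoc y l : Fin 4 → MvPolynomial (Fin n) K)) := by
    apply Submodule.span_mono
    rintro _ ⟨j, rfl⟩
    exact ⟨j.castSucc, by simp⟩
  have hlmem : l ∈ Submodule.span K (Set.range (Fin.snoc y l : Fin 4 → MvPolynomial (Fin n) K)) :=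
    Submodule.subset_span
      ⟨Fin.last 3, Fin.snoc_last (α := fun _ => MvPolynomial (Fin n) K) l y⟩
  have hl'3 : l' ∉ Submodule.span K
      (Set.range (Fin.snoc y l : Fin 4 → MvPolynomial (Fin n) K)) := by
    intro h
    apply hj
    have := Submodule.sub_mem _ h (hsub1 (aeval_mem_span y A' hA'))
    simpa [hl'] using this
  have hl'2 : l' ∉ Submodule.span K (Set.range y) := fun h => hl'3 (hsub1 h)
  have hlp : ∀ L : MvPolynomial (Fin n) K, L.IsHomogeneous 1 → L ∈ p → L = 0 := by
    intro L hL hLp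
    exact lin_inj v hv L hL (hpv L hLp 1 hL)
  have hlnp : l ∉ p := fun h => hl2 (by rw [hlp l hl1 h]; exact Submodule.zero_mem _)
  have hl'np : l' ∉ p := fun h => hl'2 (by rw [hlp l' hl'1 h]; exact Submodule.zero_mem _)
  -- the relation between them
  obtain ⟨f, hf, hfp⟩ := hct ![y 0 ^ 2, y 0 * l, y 0 * l'] (by
    intro i
    fin_cases i
    · simpa using (hy 0).pow 2
    · simpa using (hy 0).mul hl1
    · simpa using (hy 0).mul hl'1)
  rw [Fin.sum_univ_three] at hfp
  simp only [Matrix.cons_val_zero, Matrix.cons_val_one, Matrix.cons_val_two, Matrix.head_cons,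
    Matrix.tail_cons] at hfp
  have hy0 : y 0 ∉ p := by
    intro h
    have := hinj' (X 0) (by rw [aeval_X]; exact h)
    exact X_ne_zero 0 this
  have hfp' : aeval y (f 0 * X 0) + aeval y (f 1) * l + aeval y (f 2) * l' ∈ p := by
    have : y 0 * (aeval y (f 0 * X 0) + aeval y (f 1) * l + aeval y (f 2) * l') ∈ p := by
      convert hfp using 1
      simp only [map_mul, aeval_X]
      ring
    exact (Ideal.IsPrime.mem_or_mem ‹p.IsPrime› this).resolve_left hy0
  have hf2 : f 2 ≠ 0 := by
    intro h2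
    rw [h2, map_zero, zero_mul, add_zero] at hfp'
    by_cases h1 : f 1 = 0
    · rw [h1, map_zero, zero_mul, add_zero] at hfp'
      have h3 := hinj' _ hfp'
      have h4 : f 0 = 0 := (mul_eq_zero.mp h3).resolve_right (X_ne_zero 0)
      apply hf
      funext k
      fin_cases k
      · exact h4
      · exact h1
      · exact h2
    · apply hl2
      apply hlin l hl1 (f 1) (- (f 0 * X 0)) h1
      convert hfp' using 1
      rw [map_neg]
      ring
  have hf1 : f 1 ≠ 0 := by
    intro h1
    rw [h1, map_zero, zero_mul, add_zero] at hfp'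
    apply hl'2
    apply hlin l' hl'1 (f 2) (- (f 0 * X 0)) hf2
    convert hfp' using 1
    rw [map_neg]
    ring
  -- the constant term vanishes
  have hc0 : f 0 * X 0 = 0 := by
    by_contra hc
    apply hl'2
    have h20 : C (2 : K) * (f 0 * X 0) * f 2 ≠ 0 :=
      mul_ne_zero (mul_ne_zero (by simp) hc) hf2
    apply hlin l' hl'1 _ (f 1 ^ 2 * D - (f 0 * X 0) ^ 2 - f 2 ^ 2 * D') h20
    have e1 : (aeval y (f 0 * X 0) + aeval y (f 1) * l + aeval y (f 2) * l') *
        (aeval y (f 0 * X 0) - aeval y (f 1) * l + aeval y (f 2) * l') ∈ p :=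
      Ideal.mul_mem_right _ _ hfp'
    have e2 : aeval y (f 1) ^ 2 * (l ^ 2 - aeval y D) ∈ p := Ideal.mul_mem_left _ _ hAD
    have e3 : aeval y (f 2) ^ 2 * (l' ^ 2 - aeval y D') ∈ p := Ideal.mul_mem_left _ _ hAD'
    have e4 := Ideal.sub_mem _ (Ideal.add_mem _ e1 e2) e3
    convert e4 using 1
    simp only [map_mul, map_sub, map_pow, aeval_C, map_ofNat]
    ring
  rw [hc0, map_zero, zero_add] at hfp'
  -- reduce the fraction
  obtain ⟨f1, f2, c, hrel, hcf1, hcf2⟩ :=
    UniqueFactorizationMonoid.exists_reduced_factors' (f 1) (f 2) hf2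
  have hc : c ≠ 0 := by
    rintro rfl
    rw [zero_mul] at hcf2
    exact hf2 hcf2.symm
  have hf2' : f2 ≠ 0 := by
    rintro rfl
    rw [mul_zero] at hcf2
    exact hf2 hcf2.symm
  have hrelp : aeval y f1 * l + aeval y f2 * l' ∈ p := by
    have : aeval y c * (aeval y f1 * l + aeval y f2 * l') ∈ p := by
      convert hfp' using 1
      rw [← hcf1, ← hcf2, map_mul, map_mul]
      ring
    exact (Ideal.IsPrime.mem_or_mem ‹p.IsPrime› this).resolve_left fun h => hc (hinj' _ h)
  have hDD : f1 ^ 2 * D = f2 ^ 2 * D' := by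
    rw [← sub_eq_zero]
    apply hinj'
    have e1 : (aeval y f1 * l + aeval y f2 * l') * (aeval y f1 * l - aeval y f2 * l') ∈ p :=
      Ideal.mul_mem_right _ _ hrelp
    have e2 : aeval y f1 ^ 2 * (l ^ 2 - aeval y D) ∈ p := Ideal.mul_mem_left _ _ hAD
    have e3 : aeval y f2 ^ 2 * (l' ^ 2 - aeval y D') ∈ p := Ideal.mul_mem_left _ _ hAD'
    have e4 := Ideal.add_mem _ (Ideal.sub_mem _ e1 e2) e3
    convert e4 using 1
    simp only [map_mul, map_sub, map_pow]
    ring
  have hdvd : f2 ^ 2 ∣ D := by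
    have h1 : IsRelPrime (f2 ^ 2) (f1 ^ 2) := (hrel.symm.pow_left).pow_right
    exact h1.dvd_of_dvd_mul_left ⟨D', hDD⟩
  obtain ⟨g, hg⟩ := hdvd
  have hD0 : D ≠ 0 := by
    rintro rfl
    rw [map_zero, sub_zero] at hAD
    exact hlnp (Ideal.IsPrime.mem_of_pow_mem ‹p.IsPrime› 2 hAD)
  have hD0' : D' ≠ 0 := by
    rintro rfl
    rw [map_zero, sub_zero] at hAD'
    exact hl'np (Ideal.IsPrime.mem_of_pow_mem ‹p.IsPrime› 2 hAD')
  have hg0 : g ≠ 0 := by
    rintro rfl
    rw [mul_zero] at hg
    exact hD0 hg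
  have hf1' : f1 ≠ 0 := by
    rintro rfl
    rw [mul_zero] at hcf1
    exact hf1 hcf1.symm
  have hpow : ∀ q : MvPolynomial (Fin 3) K, q ≠ 0 → (q ^ 2).totalDegree = 2 * q.totalDegree := by
    intro q hq
    rw [pow_two, totalDegree_mul_of_isDomain hq hq, two_mul]
  have htd : 2 = 2 * f2.totalDegree + g.totalDegree := by
    have h1 := hD.totalDegree hD0
    rw [hg, totalDegree_mul_of_isDomain (pow_ne_zero 2 hf2') hg0, hpow f2 hf2'] at h1
    omega
  have htd' : 2 * f1.totalDegree + 2 = 2 * f2.totalDegree + 2 := by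
    have h1 := congrArg totalDegree hDD
    rw [totalDegree_mul_of_isDomain (pow_ne_zero 2 hf2') hD0', hpow f2 hf2',
      totalDegree_mul_of_isDomain (pow_ne_zero 2 hf1') hD0, hpow f1 hf1', hD.totalDegree hD0,
      hD'.totalDegree hD0'] at h1
    omega
  have hf2d : f2.totalDegree ≠ 0 := by
    intro h0
    have h1 : f1.totalDegree = 0 := by omega
    obtain ⟨c1, hc1⟩ : ∃ c1 : K, f1 = C c1 := ⟨_, totalDegree_eq_zero_iff_eq_C.mp h1⟩
    obtain ⟨c2, hc2⟩ : ∃ c2 : K, f2 = C c2 := ⟨_, totalDegree_eq_zero_iff_eq_C.mp h0⟩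
    rw [hc1, hc2, aeval_C, aeval_C] at hrelp
    have hc20 : c2 ≠ 0 := by
      rintro rfl
      rw [C_0] at hc2
      exact hf2' hc2
    have h2 : (C c1 * l + C c2 * l').IsHomogeneous 1 := (hl1.C_mul c1).add (hl'1.C_mul c2)
    have h3 := hlp _ h2 hrelp
    apply hl'3
    have h4 : l' = (- (c2⁻¹ * c1)) • l := by
      have h5 : C c2⁻¹ * (C c1 * l + C c2 * l') = 0 := by rw [h3, mul_zero]
      have h6 : (C c2⁻¹ * C c2 : MvPolynomial (Fin n) K) = 1 := by
        rw [← C_mul, inv_mul_cancel₀ hc20, C_1]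
      rw [smul_eq_C_mul, C_neg, C_mul]
      linear_combination h5 - l' * h6
    rw [h4]
    exact Submodule.smul_mem _ _ hlmem
  have hgd : g.totalDegree = 0 := by omega
  have hf2d1 : f2.totalDegree = 1 := by omega
  obtain ⟨g0, hg0'⟩ : ∃ g0 : K, g = C g0 := ⟨_, totalDegree_eq_zero_iff_eq_C.mp hgd⟩
  have hg00 : g0 ≠ 0 := by
    rintro rfl
    rw [C_0] at hg0'
    exact hg0 hg0'
  -- f2 is a linear form
  have hcf : coeff 0 f2 = 0 := by
    have h1 := congrArg constantCoeff hg
    rw [map_mul, map_pow, hg0', constantCoeff_C] at h1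
    have h2 : constantCoeff D = 0 := by
      rw [constantCoeff_eq]
      exact hD.coeff_eq_zero (by simp)
    rw [h2] at h1
    have h3 : constantCoeff f2 ^ 2 = 0 := (mul_eq_zero.mp h1.symm).resolve_right hg00
    exact pow_eq_zero_iff (by norm_num) |>.mp h3
  have hf2h : f2.IsHomogeneous 1 := by
    have h1 := sum_homogeneousComponent f2
    rw [hf2d1, Finset.sum_range_succ, Finset.sum_range_one, homogeneousComponent_zero, hcf, C_0,
      zero_add] at h1
    rw [← h1]
    exact homogeneousComponent_isHomogeneous 1 f2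
  -- evaluation at the point
  set s : M := aeval v (aeval y f2) with hs
  have hev : aeval v l ^ 2 = s ^ 2 * algebraMap K M g0 := by
    have h1 : (l ^ 2 - aeval y D).IsHomogeneous 2 := by
      have h2 : (aeval y D).IsHomogeneous 2 := by simpa using hD.aeval y hy
      have h3 : (l ^ 2).IsHomogeneous 2 := by simpa using hl1.pow 2
      exact h3.sub h2
    have h4 := hpv _ hAD 2 h1
    rw [hg, hg0', map_sub, sub_eq_zero, map_pow, map_mul, map_pow, map_mul, map_pow, aeval_C,
      MvPolynomial.algebraMap_eq, aeval_C] at h4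
    exact h4
  have hlv : aeval v l ≠ 0 := by
    intro h
    exact hlnp (by rw [lin_inj v hv l hl1 h]; exact Submodule.zero_mem _)
  have hs0 : s ≠ 0 := by
    intro h
    rw [h] at hev
    apply hlv
    have : aeval v l ^ 2 = 0 := by rw [hev]; ring
    exact pow_eq_zero_iff (by norm_num) |>.mp this
  obtain ⟨z, hz⟩ := hsq (aeval v l / s) ⟨g0, by
    rw [div_pow, hev, mul_div_assoc, mul_comm, div_mul_cancel₀]
    exact pow_ne_zero 2 hs0⟩
  have hz' : aeval v l = algebraMap K M z * s := by
    rw [← hz, div_mul_cancel₀ _ hs0]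
  have hfin : l - C z * aeval y f2 = 0 := by
    apply lin_inj v hv
    · exact hl1.sub ((hAh f2 hf2h).C_mul z)
    · rw [map_sub, map_mul, aeval_C, hz', ← hs, sub_self]
  apply hl2
  rw [sub_eq_zero.mp hfin, ← smul_eq_C_mul]
  exact Submodule.smul_mem _ _ (aeval_mem_span y f2 hf2h)

end three

section main

variable {K M : Type*} [Field K] [CharZero K] [Field M] [Algebra K M] {n : ℕ}

theorem nrm_top (p : Ideal (MvPolynomial (Fin n) K)) : Nrm p n := by
  refine ⟨X, fun i => isHomogeneous_X K i, ?_⟩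
  apply RingHom.isIntegral_of_surjective
  intro b
  obtain ⟨F, rfl⟩ := Ideal.Quotient.mk_surjective b
  refine ⟨F, ?_⟩
  rw [mk_eq_phi, aeval_X_left_apply]

/-- four algebraically independent elements give three independent quadrics over three of them -/
theorem four_indep (p : Ideal (MvPolynomial (Fin n) K)) {r : ℕ} (hr : 4 ≤ r)
    (y : Fin r → MvPolynomial (Fin n) K)
    (hinj' : ∀ c : MvPolynomial (Fin r) K, aeval y c ∈ p → c = 0)
    (f : Fin 3 → MvPolynomial (Fin 3) K)
    (hf : (∑ i, aeval (fun j : Fin 3 => y ⟨j, by omega⟩) (f i) *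
      (![y ⟨0, by omega⟩ ^ 2, y ⟨0, by omega⟩ * y ⟨3, by omega⟩, y ⟨3, by omega⟩ ^ 2] :
        Fin 3 → MvPolynomial (Fin n) K) i) ∈ p) : f = 0 := by
  set ι : Fin 3 → Fin r := fun j => ⟨j, by omega⟩ with hι
  have h1 : aeval y (∑ i, rename ι (f i) *
      (![X ⟨0, by omega⟩ ^ 2, X ⟨0, by omega⟩ * X ⟨3, by omega⟩, X ⟨3, by omega⟩ ^ 2] :
        Fin 3 → MvPolynomial (Fin r) K) i) ∈ p := by
    convert hf using 1
    rw [map_sum, Fin.sum_univ_three, Fin.sum_univ_three]
    simp only [Matrix.cons_val_zero, Matrix.cons_val_one, Matrix.cons_val_two, Matrix.head_cons,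
      Matrix.tail_cons, map_mul, map_pow, aeval_X, aeval_rename]
    rfl
  have h2 := hinj' _ h1
  set ψ : MvPolynomial (Fin r) K →ₐ[K] Polynomial (MvPolynomial (Fin 3) K) :=
    aeval (fun j : Fin r => if h : j.1 < 3 then Polynomial.C (X ⟨j.1, h⟩)
      else if j.1 = 3 then Polynomial.X else 0) with hψ
  have hψι : ∀ g : MvPolynomial (Fin 3) K, ψ (rename ι g) = Polynomial.C g := by
    intro g
    have : (ψ.comp (rename ι)).toRingHom = (Polynomial.C :
        MvPolynomial (Fin 3) K →+* Polynomial (MvPolynomial (Fin 3) K)) := by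
      apply MvPolynomial.ringHom_ext
      · intro a
        exact (ψ.comp (rename ι)).commutes a
      · intro j
        simp [hψ, hι]
    exact congrArg (fun φ => φ g) this
  have h3 := congrArg ψ h2
  rw [map_zero, map_sum, Fin.sum_univ_three] at h3
  simp only [Matrix.cons_val_zero, Matrix.cons_val_one, Matrix.cons_val_two, Matrix.head_cons,
      Matrix.tail_cons, map_mul, map_pow, hψι] at h3
  have h0 : ψ (X ⟨0, by omega⟩) = Polynomial.C (X 0) := by simp [hψ]
  have h3' : ψ (X ⟨3, by omega⟩) = Polynomial.X := by simp [hψ]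
  rw [h0, h3'] at h3
  have c0 := congrArg (fun q => Polynomial.coeff q 0) h3
  have c1 := congrArg (fun q => Polynomial.coeff q 1) h3
  have c2 := congrArg (fun q => Polynomial.coeff q 2) h3
  simp only [← Polynomial.C_pow, ← mul_assoc, ← Polynomial.C_mul, Polynomial.coeff_add,
    Polynomial.coeff_C_mul, Polynomial.coeff_X, Polynomial.coeff_X_pow, Polynomial.coeff_C,
    Polynomial.coeff_zero] at c0 c1 c2
  simp at c0 c1 c2
  funext i
  fin_cases i
  · exact c0
  · exact c1
  · exact c2

/-- The point `v` lies on no surface of degree two. -/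
theorem no_surface (hn : 5 ≤ n) (v : Fin n → M) (hv : LinearIndependent K v)
    (hsq : ∀ z : M, (∃ c : K, z ^ 2 = algebraMap K M c) → ∃ c : K, z = algebraMap K M c)
    (p : Ideal (MvPolynomial (Fin n) K)) (hp : p.IsPrime)
    (hhom : ∀ f ∈ p, ∀ m, homogeneousComponent m f ∈ p)
    (hpv : ∀ f ∈ p, ∀ d, f.IsHomogeneous d → aeval v f = 0)
    (q : Polynomial ℚ) (hq : q.natDegree = 2) (hl : q.leadingCoeff = 1)
    (hH : ∃ N, ∀ m ≥ N, (hilb p m : ℚ) = q.eval (m : ℚ)) : False := by
  classical
  have hex : ∃ r, Nrm p r := ⟨n, nrm_top p⟩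
  obtain ⟨r, ⟨y, hy, hint⟩, hmin⟩ : ∃ r, Nrm p r ∧ ∀ r' < r, ¬ Nrm p r' :=
    ⟨Nat.find hex, Nat.find_spec hex, fun r hr => Nat.find_min hex hr⟩
  have hinj' : ∀ c : MvPolynomial (Fin r) K, aeval y c ∈ p → c = 0 := by
    intro c hc
    by_contra hc0
    obtain ⟨r', hr', hN⟩ := nrm_reduce p hp.ne_top hhom r y hy hint c hc0 hc
    exact hmin r' hr' hN
  have hct : ∀ y : Fin 3 → MvPolynomial (Fin n) K, (∀ i, (y i).IsHomogeneous 1) →
      ∀ b : Fin 3 → MvPolynomial (Fin n) K, (∀ i, (b i).IsHomogeneous 2) →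
      ∃ f : Fin 3 → MvPolynomial (Fin 3) K, f ≠ 0 ∧ (∑ i, aeval y (f i) * b i) ∈ p := by
    intro y hy b hb
    by_contra hcon
    push Not at hcon
    refine asymp_lower (hilb p) q hq hl hH fun m => count_three p y hy b hb ?_ m
    intro f hf
    by_contra hf0
    exact hcon f hf0 hf
  rcases lt_trichotomy r 3 with h | h | h
  · -- at most two
    set y' : Fin 2 → MvPolynomial (Fin n) K := fun i => if h : i.1 < r then y ⟨i.1, h⟩ else 0
      with hy'
    have hy'1 : ∀ i, (y' i).IsHomogeneous 1 := by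
      intro i
      simp only [hy']
      split_ifs with h
      · exact hy _
      · exact isHomogeneous_zero _ _ _
    have hint' : (phi p y').toRingHom.IsIntegral := by
      have h1 : (phi p y').toRingHom.comp (rename (fun i : Fin r => (⟨i.1, by omega⟩ : Fin 2)) :
          MvPolynomial (Fin r) K →ₐ[K] MvPolynomial (Fin 2) K).toRingHom =
          (phi p y).toRingHom := by
        have : (phi p y').comp (rename (fun i : Fin r => (⟨i.1, by omega⟩ : Fin 2))) =
            phi p y := by
          apply MvPolynomial.algHom_ext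
          intro i
          simp [phi, hy']
        exact congrArg AlgHom.toRingHom this
      rw [← h1] at hint
      exact RingHom.IsIntegral.tower_top _ _ hint
    obtain ⟨Cc, hC⟩ := hilb_upper p hhom y' hy'1 hint'
    exact asymp_upper (hilb p) q hq hl hH Cc hC
  · -- exactly three
    subst h
    have hinj : Function.Injective (phi p y).toRingHom := by
      rw [injective_iff_map_eq_zero]
      intro c hc
      rw [mk_eq_phi, Ideal.Quotient.eq_zero_iff_mem] at hc
      exact hinj' c hc
    exact no_three hn v hv hsq p hhom hpv y hy hint hinj (hct y hy)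
  · -- at least four
    obtain ⟨f, hf, hfp⟩ := hct (fun j : Fin 3 => y ⟨j, by omega⟩) (fun i => hy _)
      ![y ⟨0, by omega⟩ ^ 2, y ⟨0, by omega⟩ * y ⟨3, by omega⟩, y ⟨3, by omega⟩ ^ 2] (by
        intro i
        fin_cases i
        · simpa using (hy _).pow 2
        · simpa using (hy _).mul (hy _)
        · simpa using (hy _).pow 2)
    exact hf (four_indep p h y hinj' f hfp)

end main

end Pool.Agent.H74.LowDeg
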