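import Mathlib
import Pool.Agent.H74.LowDeg.Geom
import Pool.Agent.H74.LowDeg.Surf
import Pool.Agent.H74.LowDeg.PointMain

namespace Pool.Agent.H74.LowDeg

open MvPolynomial

attribute [local instance] MvPolynomial.gradedAlgebra

section generic

variable (N : ℕ) {e : ℕ} (d : Fin e → ℕ)

noncomputable instance bField_algebra_poly : Algebra (MvPolynomial (CoefIdx N d) ℂ) (BField N d) :=
  inferInstanceAs (Algebra (MvPolynomial (CoefIdx N d) ℂ)
    (FractionRing (MvPolynomial (CoefIdx N d) ℂ)))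

instance bField_frac : IsFractionRing (MvPolynomial (CoefIdx N d) ℂ) (BField N d) :=
  inferInstanceAs (IsFractionRing (MvPolynomial (CoefIdx N d) ℂ)
    (FractionRing (MvPolynomial (CoefIdx N d) ℂ)))

noncomputable instance bField_algebra : Algebra ℂ (BField N d) :=
  inferInstanceAs (Algebra ℂ (FractionRing (MvPolynomial (CoefIdx N d) ℂ)))

instance bField_tower : IsScalarTower ℂ (MvPolynomial (CoefIdx N d) ℂ) (BField N d) :=
  inferInstanceAs (IsScalarTower ℂ (MvPolynomial (CoefIdx N d) ℂ)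
    (FractionRing (MvPolynomial (CoefIdx N d) ℂ)))

theorem aeval_genA (p : MvPolynomial (CoefIdx N d) ℂ) :
    aeval (genA N d) p = algebraMap (MvPolynomial (CoefIdx N d) ℂ) (BField N d) p := by
  have : aeval (genA N d) = IsScalarTower.toAlgHom ℂ (MvPolynomial (CoefIdx N d) ℂ)
      (BField N d) := by
    apply MvPolynomial.algHom_ext
    intro i
    rw [aeval_X]
    rfl
  rw [this]
  rfl

theorem genA_indep : AlgebraicIndependent ℂ (genA N d) := by
  rw [algebraicIndependent_iff_injective_aeval]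
  intro p q h
  rw [aeval_genA, aeval_genA] at h
  exact IsFractionRing.injective (MvPolynomial (CoefIdx N d) ℂ) (BField N d) h

theorem genA_top : IntermediateField.adjoin ℂ (Set.range (genA N d)) = ⊤ := by
  rw [eq_top_iff]
  intro x _
  obtain ⟨p, q, -, rfl⟩ := IsFractionRing.div_surjective (A := MvPolynomial (CoefIdx N d) ℂ) x
  have h : ∀ p : MvPolynomial (CoefIdx N d) ℂ,
      algebraMap (MvPolynomial (CoefIdx N d) ℂ) (BField N d) p ∈
        IntermediateField.adjoin ℂ (Set.range (genA N d)) := by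
    intro p
    rw [← aeval_genA]
    have h1 : aeval (genA N d) p ∈ Algebra.adjoin ℂ (Set.range (genA N d)) := by
      rw [Algebra.adjoin_range_eq_range_aeval]
      exact ⟨p, rfl⟩
    exact IntermediateField.algebra_adjoin_le_adjoin _ _ h1
  exact div_mem (h p) (h q)

theorem coeff_univForm (i : Fin e) (α : Fin (N + 1) →₀ ℕ) :
    coeff α (univForm N d i) = if α.degree = d i then univCoef N d i α else 0 := by
  classical
  unfold univForm
  rw [coeff_sum]
  simp only [coeff_monomial]
  rw [Finset.sum_ite_eq']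
  have : α ∈ Finset.finsuppAntidiag Finset.univ (d i) ↔ α.degree = d i := by
    rw [Finset.mem_finsuppAntidiag, Finsupp.degree_eq_sum]
    simp
  simp only [this]

theorem univForm_homogeneous (i : Fin e) : (univForm N d i).IsHomogeneous (d i) := by
  intro α hα
  rw [coeff_univForm] at hα
  by_cases h : α.degree = d i
  · rw [← h]
    simp [Finsupp.weight_apply, Finsupp.sum_fintype, Finsupp.degree_eq_sum]
  · rw [if_neg h] at hα
    exact absurd rfl hα

end generic

section concrete

variable (D : ℕ)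

/-- the index of the last square -/
noncomputable def sIdx : CoefIdx 5 ![2, D] :=
  ⟨(0, Finsupp.single 5 2), by simp, by
    intro h
    have := DFunLike.congr_fun h (5 : Fin 6)
    simp at this⟩

/-- the indices of the pure powers in the second form -/
noncomputable def tIdx (hD : 2 ≤ D) (i : Fin 5) : CoefIdx 5 ![2, D] :=
  ⟨(1, Finsupp.single i.succ D), by simp, by
    intro h
    have := DFunLike.congr_fun h (i.succ : Fin 6)
    have h2 : (i.succ : Fin 6) ≠ 0 := Fin.succ_ne_zero i
    simp only [Finsupp.single_eq_same] at this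
    rw [Finsupp.single_apply, if_neg (Ne.symm h2)] at this
    omega⟩

/-- the field of the coefficients of the quadratic form except the last square -/
noncomputable def Bz : IntermediateField ℂ (BField 5 ![2, D]) :=
  IntermediateField.adjoin ℂ (genA 5 ![2, D] '' {c | c.1.1 = 0 ∧ c ≠ sIdx D})

theorem Bz_le_s : Bz D ≤ Eo (k := ℂ) (genA 5 ![2, D]) (sIdx D) := by
  apply IntermediateField.adjoin.mono
  exact Set.image_mono fun c hc => hc.2

theorem Bz_le_t (hD : 2 ≤ D) (i : Fin 5) :
    Bz D ≤ Eo (k := ℂ) (genA 5 ![2, D]) (tIdx D hD i) := by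
  apply IntermediateField.adjoin.mono
  refine Set.image_mono fun c hc => ?_
  rintro rfl
  have := hc.1
  simp [tIdx] at this

theorem s_mem_t (hD : 2 ≤ D) (i : Fin 5) :
    genA 5 ![2, D] (sIdx D) ∈ Eo (k := ℂ) (genA 5 ![2, D]) (tIdx D hD i) := by
  apply IntermediateField.subset_adjoin
  refine ⟨_, ?_, rfl⟩
  intro h
  have h1 : sIdx D = tIdx D hD i := h
  have := congrArg (fun c => c.1.1) h1
  simp [tIdx, sIdx] at this

theorem coeff_Q_s : coeff (Finsupp.single 5 2) (univForm 5 ![2, D] 0) =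
    genA 5 ![2, D] (sIdx D) := by
  rw [coeff_univForm, if_pos (by simp)]
  exact dif_pos (sIdx D).2

theorem coeff_Q_mem (α : Fin 6 →₀ ℕ) (hα : α ≠ Finsupp.single 5 2) :
    coeff α (univForm 5 ![2, D] 0) ∈ Bz D := by
  rw [coeff_univForm]
  split_ifs with h1
  · unfold univCoef
    split_ifs with h2
    · apply IntermediateField.subset_adjoin
      refine ⟨⟨(0, α), h2⟩, ⟨rfl, ?_⟩, rfl⟩
      intro h
      exact hα (congrArg (fun c => c.1.2) h)
    · exact one_mem _
  · exact zero_mem _

theorem coeff_P_t (hD : 2 ≤ D) (i : Fin 5) :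
    coeff (Finsupp.single i.succ D) (univForm 5 ![2, D] 1) = genA 5 ![2, D] (tIdx D hD i) := by
  rw [coeff_univForm, if_pos (by simp)]
  exact dif_pos (tIdx D hD i).2

theorem coeff_P_mem (hD : 2 ≤ D) (i : Fin 5) (α : Fin 6 →₀ ℕ)
    (hα : α ≠ Finsupp.single i.succ D) :
    coeff α (univForm 5 ![2, D] 1) ∈ Eo (k := ℂ) (genA 5 ![2, D]) (tIdx D hD i) := by
  rw [coeff_univForm]
  split_ifs with h1
  · unfold univCoef
    split_ifs with h2
    · apply IntermediateField.subset_adjoin
      refine ⟨⟨(1, α), h2⟩, ?_, rfl⟩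
      intro h
      exact hα (congrArg (fun c => c.1.2) h)
    · exact one_mem _
  · exact zero_mem _

open Classical in
/-- the integral version of the coefficients of the quadratic form -/
noncomputable def coefR (α : Fin 6 →₀ ℕ) : MvPolynomial (CoefIdx 5 ![2, D]) ℂ :=
  if h : α.degree = (![2, D] : Fin 2 → ℕ) 0 ∧ α ≠ Finsupp.single 0 ((![2, D] : Fin 2 → ℕ) 0) then
    X ⟨(0, α), h⟩ else 1

theorem coefR_map (α : Fin 6 →₀ ℕ) : algebraMap _ (BField 5 ![2, D]) (coefR D α) =
    univCoef 5 ![2, D] 0 α := by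
  unfold coefR univCoef
  split_ifs
  · rfl
  · exact map_one _

open Classical in
/-- the specialisation to the sum of squares -/
noncomputable def spec : MvPolynomial (CoefIdx 5 ![2, D]) ℂ →+* ℂ :=
  (aeval fun c : CoefIdx 5 ![2, D] =>
    if ∃ i : Fin 6, c.1.2 = Finsupp.single i 2 then (1 : ℂ) else 0 :
      MvPolynomial (CoefIdx 5 ![2, D]) ℂ →ₐ[ℂ] ℂ).toRingHom

theorem single_add_ne (i j l : Fin 6) (hij : i ≠ j) :
    Finsupp.single i 1 + Finsupp.single j 1 ≠ (Finsupp.single l 2 : Fin 6 →₀ ℕ) := by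
  intro h
  have h1 := DFunLike.congr_fun h i
  rw [Finsupp.add_apply, Finsupp.single_apply, Finsupp.single_apply, Finsupp.single_apply,
    if_pos rfl, if_neg (Ne.symm hij)] at h1
  split_ifs at h1
  omega

theorem spec_coefR (i j : Fin 6) :
    spec D (coefR D (Finsupp.single i 1 + Finsupp.single j 1)) = if i = j then 1 else 0 := by
  unfold coefR
  split_ifs with h h2 h2
  · unfold spec
    subst h2
    simp only [AlgHom.toRingHom_eq_coe, RingHom.coe_coe, aeval_X]
    rw [if_pos]
    exact ⟨i, by rw [← Finsupp.single_add]⟩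
  · unfold spec
    simp only [AlgHom.toRingHom_eq_coe, RingHom.coe_coe, aeval_X]
    rw [if_neg]
    rintro ⟨l, hl⟩
    exact single_add_ne i j l h2 hl
  · exact map_one _
  · exfalso
    apply h
    refine ⟨by simp [Finsupp.degree_eq_sum, Finset.sum_add_distrib], ?_⟩
    exact single_add_ne i j 0 h2

theorem det_gram_ne :
    (Matrix.of fun i j : Fin 5 =>
      gram (univForm 5 ![2, D] 0) i.castSucc j.castSucc).det ≠ 0 := by
  set GR : Matrix (Fin 5) (Fin 5) (MvPolynomial (CoefIdx 5 ![2, D]) ℂ) :=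
    Matrix.of fun i j => coefR D (Finsupp.single i.castSucc 1 + Finsupp.single j.castSucc 1) *
      (if i.castSucc = j.castSucc then 1 else C (1 / 2)) with hGR
  have h1 : (Matrix.of fun i j : Fin 5 =>
      gram (univForm 5 ![2, D] 0) i.castSucc j.castSucc) =
      GR.map (algebraMap _ (BField 5 ![2, D])) := by
    ext i j
    rw [Matrix.map_apply, hGR, Matrix.of_apply, Matrix.of_apply, map_mul, coefR_map]
    unfold gram
    rw [Matrix.of_apply, coeff_univForm, if_pos (by simp [Finsupp.degree_eq_sum, Finset.sum_add_distrib])]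
    congr 1
    split_ifs
    · simp
    · have : (algebraMap (MvPolynomial (CoefIdx 5 ![2, D]) ℂ) (BField 5 ![2, D]) (C (1 / 2))) =
        algebraMap ℂ (BField 5 ![2, D]) (1 / 2) := rfl
      rw [this, map_div₀, map_one, map_ofNat]
  have h2 : GR.map (spec D) = 1 := by
    ext i j
    rw [Matrix.map_apply, hGR, Matrix.of_apply, map_mul, spec_coefR, Matrix.one_apply]
    by_cases h : i = j
    · subst h
      simp
    · rw [if_neg (by simpa using h), if_neg h, zero_mul]
  have h3 : GR.det ≠ 0 := by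
    intro h
    have h4 := congrArg (spec D) h
    rw [RingHom.map_det, map_zero] at h4
    have h5 : (spec D).mapMatrix GR = GR.map (spec D) := rfl
    rw [h5, h2, Matrix.det_one] at h4
    exact one_ne_zero h4
  rw [h1]
  have h4 : (GR.map (algebraMap _ (BField 5 ![2, D]))).det =
      algebraMap _ (BField 5 ![2, D]) GR.det := ((algebraMap _ (BField 5 ![2, D])).map_det _).symm
  rw [h4]
  intro h5
  apply h3
  apply IsFractionRing.injective (MvPolynomial (CoefIdx 5 ![2, D]) ℂ) (BField 5 ![2, D])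
  rw [h5, map_zero]

theorem main_five (hDodd : Odd D) (hD : 3 ≤ D) :
    ∃ P : PSpace (BField 5 ![2, D]) 5, IsClosed {P} ∧ OnX ![2, D] P ∧
      pointDegree P = 2 * (2 * D) ∧ ¬ Arises ![2, D] 2 P := by
  have hD2 : 2 ≤ D := by omega
  have hcz : CharZero (BField 5 ![2, D]) :=
    charZero_of_injective_algebraMap (algebraMap ℂ (BField 5 ![2, D])).injective
  obtain ⟨N, iN, iKN, v, hfin, hLI, hQ, hP, hsq, hgen⟩ := point_exists (k := ℂ)
    (K := BField 5 ![2, D]) (Bz D)
    (Eo (k := ℂ) (genA 5 ![2, D]) (sIdx D))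
    (fun i => Eo (k := ℂ) (genA 5 ![2, D]) (tIdx D hD2 i))
    (Bz_le_s D) (Bz_le_t D hD2) (genA 5 ![2, D] (sIdx D))
    (fun i => genA 5 ![2, D] (tIdx D hD2 i))
    (gen_transcendental _ (genA_indep 5 ![2, D]) _) (gen_top _ (genA_top 5 ![2, D]) _)
    (fun i => gen_transcendental _ (genA_indep 5 ![2, D]) _) (gen_top _ (genA_top 5 ![2, D]) _)
    (s_mem_t D hD2) (univForm 5 ![2, D] 0) (univForm_homogeneous 5 ![2, D] 0)
    (coeff_Q_s D) (coeff_Q_mem D) (det_gram_ne D) D hDodd hD2 (univForm 5 ![2, D] 1)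
    (univForm_homogeneous 5 ![2, D] 1) (coeff_P_t D hD2) (coeff_P_mem D hD2)
  have hfd : FiniteDimensional (BField 5 ![2, D]) N :=
    FiniteDimensional.of_finrank_pos (by rw [hfin]; omega)
  have hv : ∀ i, v i ≠ 0 := fun i => hLI.ne_zero i
  have hv' : ∃ i, v i ≠ 0 := ⟨0, hv 0⟩
  refine ⟨vecPoint (K := BField 5 ![2, D]) v hv', vecPoint_closed v hv hgen hv', ?_, ?_, ?_⟩
  · intro i
    rw [mem_vecPoint_of_homogeneous v hv' _ _ (univForm_homogeneous 5 ![2, D] i)]
    fin_cases i
    · exact hQ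
    · exact hP
  · rw [vecPoint_degree v hgen hv hv', hfin]
    ring
  · rintro ⟨Z, ⟨q, hq, hl, hH⟩, hZ⟩
    have hmem : vecPoint (K := BField 5 ![2, D]) v hv' ∈ {p : PSpace (BField 5 ![2, D]) 5 |
      ptIdeal Z ≤ ptIdeal p ∧ OnX ![2, D] p} := by
      rw [hZ]
      exact Set.mem_singleton _
    have hle := hmem.1
    refine no_surface (n := 6) (by norm_num) v hLI
      (fun z hz => by obtain ⟨c, hc⟩ := hz; exact hsq z c hc)
      (ptIdeal Z) (ptIdeal_isPrime Z)
      (fun f hf m => homogeneousComponent_mem_of_mem Z.asHomogeneousIdeal.isHomogeneous hf m)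
      (fun f hf d hd => (mem_vecPoint_of_homogeneous v hv' f d hd).mp (hle hf)) q hq ?_ hH
    rw [hl]
    norm_num [Nat.factorial]

theorem main_result :
    (∀ D : ℕ, Odd D → 3 ≤ D → ∃ P : PSpace (BField (3 + 2) ![2, D]) (3 + 2), IsClosed {P} ∧
      OnX ![2, D] P ∧ pointDegree P = 2 * (2 * D) ∧ ¬ Arises ![2, D] 2 P) ∧ ¬ AllArise 3 2 := by
  refine ⟨fun D h1 h2 => main_five D h1 h2, ?_⟩
  rintro ⟨δ, hδ⟩
  have hodd : Odd (2 * δ + 3) := ⟨δ + 1, by ring⟩
  obtain ⟨P, hcl, hX, hdeg, hnot⟩ := main_five (2 * δ + 3) hodd (by omega)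
  apply hnot
  refine hδ 2 ![2, 2 * δ + 3] (by norm_num) ?_ ?_ P hcl hX ?_
  · intro i
    fin_cases i
    · simp
    · simp
  · simp [Fin.sum_univ_two]
    omega
  · rw [hdeg, Fin.prod_univ_two]
    rfl

end concrete

end Pool.Agent.H74.LowDeg
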